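import Mathlib

/-! The infinite torus, trigonometric sums on it. -/

open MeasureTheory ProbabilityTheory Filter Topology

namespace Pool.Agent.NH96.SG

/-- the infinite torus -/
abbrev Om : Type := ℕ → UnitAddCircle

instance instProbC : IsProbabilityMeasure (volume : Measure UnitAddCircle) :=
  ⟨UnitAddCircle.measure_univ⟩

/-- the product measure -/
noncomputable def PP : Measure Om := Measure.infinitePi (fun _ : ℕ => (volume : Measure UnitAddCircle))

instance : IsProbabilityMeasure PP := by unfold PP; infer_instance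

/-- squarefree part -/
noncomputable def qq (m : ℕ) : ℕ := (Nat.sq_mul_squarefree m).choose
/-- the square root of the square part -/
noncomputable def kk (m : ℕ) : ℕ := (Nat.sq_mul_squarefree m).choose_spec.choose

lemma qk_spec (m : ℕ) : (kk m)^2 * qq m = m ∧ Squarefree (qq m) :=
  (Nat.sq_mul_squarefree m).choose_spec.choose_spec

lemma kk_pos {m : ℕ} (hm : 1 ≤ m) : 1 ≤ kk m := by
  have h := (qk_spec m).1
  rcases Nat.eq_zero_or_pos (kk m) with h0 | h0
  · rw [h0] at h; simp at h; omega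
  · exact h0

lemma qq_sf (m : ℕ) : Squarefree (qq m) := (qk_spec m).2

lemma qq_pos (m : ℕ) : 1 ≤ qq m := Nat.one_le_iff_ne_zero.mpr (qq_sf m).ne_zero

lemma qq_le {m : ℕ} (hm : 1 ≤ m) : qq m ≤ m := by
  have h := (qk_spec m).1
  have := kk_pos hm
  nlinarith [Nat.pow_le_pow_left this 2, qq_pos m]

lemma sqrt_eq (m : ℕ) : √(m:ℝ) = kk m * √(qq m : ℝ) := by
  have h := (qk_spec m).1
  have h1 : (m:ℝ) = (kk m : ℝ)^2 * (qq m : ℝ) := by exact_mod_cast h.symm
  rw [h1, Real.sqrt_mul (by positivity), Real.sqrt_sq (Nat.cast_nonneg _)]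

lemma qk_inj {m m' : ℕ} (h1 : qq m = qq m') (h2 : kk m = kk m') : m = m' := by
  rw [← (qk_spec m).1, ← (qk_spec m').1, h1, h2]

lemma qq_prime {q : ℕ} (hq : q.Prime) : qq q = q ∧ kk q = 1 := by
  have h := (qk_spec q).1
  have hk : kk q = 1 := by
    have h1 : kk q * kk q ∣ q := ⟨qq q, by rw [← sq]; exact h.symm⟩
    exact Nat.isUnit_iff.mp (hq.squarefree _ h1)
  rw [hk, one_pow, one_mul] at h
  exact ⟨h, hk⟩

/-- the character attached to `m` -/
noncomputable def ch (m : ℕ) (ω : Om) : ℂ := fourier (kk m : ℤ) (ω (qq m))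

lemma ch_cont (m : ℕ) : Continuous (ch m) := by
  unfold ch
  exact (fourier (kk m : ℤ)).continuous.comp (continuous_apply _)

lemma ch_norm (m : ℕ) (ω : Om) : ‖ch m ω‖ = 1 := by
  unfold ch
  rw [fourier_apply, Circle.norm_coe]

lemma ch_add (m : ℕ) (ω ω' : Om) : ch m (ω + ω') = ch m ω * ch m ω' := by
  unfold ch
  simp [fourier_apply, smul_add, AddCircle.toCircle_add]

/-- translation invariance -/
lemma PP_map_add (c : Om) : PP.map (fun ω => ω + c) = PP := by
  unfold PP
  have h := Measure.infinitePi_map_pi (fun _ : ℕ => (volume : Measure UnitAddCircle))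
    (Y := fun _ => UnitAddCircle) (f := fun i x => x + c i) (fun i => measurable_add_const _)
  have e : (fun ω : Om => ω + c) = fun (x : Om) i => x i + c i := rfl
  rw [e, h]
  congr 1
  funext i
  exact (measurePreserving_add_right volume (c i)).map_eq

lemma mp_add (c : Om) : MeasurePreserving (fun ω => ω + c) PP PP :=
  ⟨measurable_add_const c, PP_map_add c⟩

lemma int_zero_of {χ : Om → ℂ} {c : Om} {z : ℂ} (hz : z ≠ 1)
    (h : ∀ ω, χ (ω + c) = χ ω * z) : ∫ ω, χ ω ∂PP = 0 := by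
  have h1 : ∫ ω, χ (ω + c) ∂PP = ∫ ω, χ ω ∂PP := by
    have e : MeasurableEmbedding (fun ω : Om => ω + c) := (MeasurableEquiv.addRight c).measurableEmbedding
    exact (mp_add c).integral_comp e χ
  simp only [h] at h1
  rw [integral_mul_const] at h1
  have h2 : (∫ ω, χ ω ∂PP) * (1 - z) = 0 := by linear_combination -h1
  rcases mul_eq_zero.1 h2 with h3 | h3
  · exact h3
  · exact absurd (sub_eq_zero.1 h3).symm hz

/-- half a period -/
lemma fourier_half {n : ℤ} (hn : n ≠ 0) : fourier n (((1 / (2 * (n : ℝ)) : ℝ)) : UnitAddCircle) = -1 := by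
  rw [fourier_coe_apply]
  have hki : (n : ℂ) ≠ 0 := by exact_mod_cast hn
  have h4 : 2 * (Real.pi : ℂ) * Complex.I * (n : ℂ) * ((1 / (2 * (n : ℝ)) : ℝ) : ℂ) / ((1 : ℝ) : ℂ) =
      Real.pi * Complex.I := by
    push_cast
    field_simp
  rw [h4, Complex.exp_pi_mul_I]

lemma fourier_add_apply (n : ℤ) (x y : UnitAddCircle) : fourier n (x + y) = fourier n x * fourier n y := by
  simp [fourier_apply, smul_add, AddCircle.toCircle_add]

lemma int_ch {m : ℕ} (hm : 1 ≤ m) : ∫ ω, ch m ω ∂PP = 0 := by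
  have hk := kk_pos hm
  have hn : ((kk m : ℕ) : ℤ) ≠ 0 := by exact_mod_cast (by omega : kk m ≠ 0)
  apply int_zero_of (c := fun _ => (((1 / (2 * ((kk m : ℤ) : ℝ)) : ℝ)) : UnitAddCircle)) (z := -1) (by norm_num)
  intro ω
  unfold ch
  rw [Pi.add_apply, fourier_add_apply, fourier_half hn]

lemma int_ch_mul {m m' : ℕ} (hm : 1 ≤ m) (hm' : 1 ≤ m') : ∫ ω, ch m ω * ch m' ω ∂PP = 0 := by
  have hk := kk_pos hm
  have hk' := kk_pos hm'
  set n : ℤ := (kk m : ℤ) + (kk m' : ℤ) with hnd
  have hn : n ≠ 0 := by omega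
  apply int_zero_of (c := fun _ => (((1 / (2 * (n : ℝ)) : ℝ)) : UnitAddCircle)) (z := -1) (by norm_num)
  intro ω
  unfold ch
  rw [Pi.add_apply, Pi.add_apply, fourier_add_apply, fourier_add_apply]
  have h := fourier_half hn
  rw [hnd, fourier_add] at h
  rw [← hnd] at h
  linear_combination (fourier (kk m : ℤ)) (ω (qq m)) * (fourier (kk m' : ℤ)) (ω (qq m')) * h

lemma int_ch_conj {m m' : ℕ} (hm : 1 ≤ m) (hne : m ≠ m') :
    ∫ ω, ch m ω * (starRingEnd ℂ) (ch m' ω) ∂PP = 0 := by
  have hk := kk_pos hm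
  have hconj : ∀ (k : ℤ) (x : UnitAddCircle), (starRingEnd ℂ) (fourier k x) = fourier (-k) x := by
    intro k x; exact (fourier_neg).symm
  by_cases hkk : kk m = kk m'
  · -- different classes
    have hq : qq m ≠ qq m' := fun h => hne (qk_inj h hkk)
    have hn : ((kk m : ℕ) : ℤ) ≠ 0 := by exact_mod_cast (by omega : kk m ≠ 0)
    apply int_zero_of (c := Pi.single (qq m) (((1 / (2 * ((kk m : ℤ) : ℝ)) : ℝ)) : UnitAddCircle)) (z := -1) (by norm_num)
    intro ω
    unfold ch
    rw [Pi.add_apply, Pi.add_apply, Pi.single_eq_same, Pi.single_eq_of_ne (fun h => hq h.symm), add_zero, fourier_add_apply,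
      fourier_half hn]
    ring
  · set n : ℤ := (kk m : ℤ) - (kk m' : ℤ) with hnd
    have hn : n ≠ 0 := by omega
    apply int_zero_of (c := fun _ => (((1 / (2 * (n : ℝ)) : ℝ)) : UnitAddCircle)) (z := -1) (by norm_num)
    intro ω
    unfold ch
    rw [Pi.add_apply, Pi.add_apply, fourier_add_apply, fourier_add_apply, map_mul]
    have h := fourier_half hn
    rw [hconj (kk m' : ℤ) (((1 / (2 * (n : ℝ)) : ℝ)) : UnitAddCircle)]
    rw [hnd, sub_eq_add_neg, fourier_add, ← sub_eq_add_neg] at h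
    rw [← hnd] at h
    linear_combination (fourier (kk m : ℤ)) (ω (qq m)) * (starRingEnd ℂ) ((fourier (kk m' : ℤ)) (ω (qq m'))) * h

/-- real trigonometric sums -/
noncomputable def Y (T : Finset ℕ) (c : ℕ → ℂ) (ω : Om) : ℝ := ∑ m ∈ T, (c m * ch m ω).re

lemma Y_cont (T : Finset ℕ) (c : ℕ → ℂ) : Continuous (Y T c) := by
  unfold Y
  exact continuous_finsetSum _ (fun m _ => Complex.continuous_re.comp (continuous_const.mul (ch_cont m)))

lemma Y_abs_le (T : Finset ℕ) (c : ℕ → ℂ) (ω : Om) : |Y T c ω| ≤ ∑ m ∈ T, ‖c m‖ := by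
  unfold Y
  refine (Finset.abs_sum_le_sum_abs _ _).trans (Finset.sum_le_sum (fun m _ => ?_))
  refine (Complex.abs_re_le_norm _).trans ?_
  rw [norm_mul, ch_norm, mul_one]

lemma integ_of_cont {f : Om → ℝ} (hf : Continuous f) : Integrable f PP := by
  obtain ⟨C, hC⟩ := (isCompact_range hf).isBounded.exists_norm_le
  exact Integrable.of_bound hf.measurable.aestronglyMeasurable C
    (Eventually.of_forall (fun ω => hC _ ⟨ω, rfl⟩))

lemma integ_of_contC {f : Om → ℂ} (hf : Continuous f) : Integrable f PP := by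
  obtain ⟨C, hC⟩ := (isCompact_range hf).isBounded.exists_norm_le
  exact Integrable.of_bound hf.measurable.aestronglyMeasurable C
    (Eventually.of_forall (fun ω => hC _ ⟨ω, rfl⟩))

lemma re_int {f : Om → ℂ} (hf : Continuous f) : ∫ ω, (f ω).re ∂PP = (∫ ω, f ω ∂PP).re := by
  have := Complex.reCLM.integral_comp_comm (integ_of_contC hf)
  exact this

lemma int_Y {T : Finset ℕ} (hT : ∀ m ∈ T, 1 ≤ m) (c : ℕ → ℂ) : ∫ ω, Y T c ω ∂PP = 0 := by
  unfold Y
  rw [integral_finsetSum]
  · apply Finset.sum_eq_zero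
    intro m hm
    have hc : Continuous (fun ω => c m * ch m ω) := continuous_const.mul (ch_cont m)
    rw [re_int hc, integral_const_mul, int_ch (hT m hm), mul_zero, Complex.zero_re]
  · intro m _
    exact integ_of_cont (Complex.continuous_re.comp (continuous_const.mul (ch_cont m)))

lemma re_mul_re (z w : ℂ) : z.re * w.re = ((z * w).re + (z * (starRingEnd ℂ) w).re) / 2 := by
  simp only [Complex.mul_re, Complex.conj_re, Complex.conj_im]
  ring

lemma int_pair {m m' : ℕ} (hm : 1 ≤ m) (hm' : 1 ≤ m') (z w : ℂ) :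
    ∫ ω, (z * ch m ω).re * (w * ch m' ω).re ∂PP = if m = m' then (z * (starRingEnd ℂ) w).re / 2 else 0 := by
  have c1 := ch_cont m
  have c2 := ch_cont m'
  have hc : Continuous (fun ω => (starRingEnd ℂ) (ch m' ω)) := Complex.continuous_conj.comp c2
  have e : ∀ ω, (z * ch m ω).re * (w * ch m' ω).re =
      ((z * w) * (ch m ω * ch m' ω) / 2).re + ((z * (starRingEnd ℂ) w) * (ch m ω * (starRingEnd ℂ) (ch m' ω)) / 2).re := by
    intro ω
    rw [re_mul_re, map_mul]
    have e1 : z * ch m ω * (w * ch m' ω) = (z * w) * (ch m ω * ch m' ω) := by ring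
    have e2 : z * ch m ω * ((starRingEnd ℂ) w * (starRingEnd ℂ) (ch m' ω)) =
      (z * (starRingEnd ℂ) w) * (ch m ω * (starRingEnd ℂ) (ch m' ω)) := by ring
    rw [e1, e2]
    have e3 : ∀ x : ℂ, (x / 2).re = x.re / 2 := fun x => by
      rw [show (2:ℂ) = ((2:ℝ):ℂ) by norm_num, Complex.div_ofReal_re]
    rw [e3, e3]; ring
  simp only [e]
  rw [integral_add (integ_of_cont (by fun_prop)) (integ_of_cont (by fun_prop)), re_int (by fun_prop), re_int (by fun_prop)]
  have e5 : ∫ ω, z * w * (ch m ω * ch m' ω) / 2 ∂PP = 0 := by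
    rw [integral_div, integral_const_mul, int_ch_mul hm hm', mul_zero, zero_div]
  rw [e5, integral_div, integral_const_mul]
  by_cases h : m = m'
  · subst h
    rw [if_pos rfl]
    have e6 : ∀ ω, ch m ω * (starRingEnd ℂ) (ch m ω) = 1 := by
      intro ω
      rw [Complex.mul_conj, Complex.normSq_eq_norm_sq, ch_norm]; norm_num
    simp only [e6]
    rw [integral_const]
    simp only [probReal_univ, one_smul, mul_one, Complex.zero_re, zero_add]
    rw [show (2:ℂ) = ((2:ℝ):ℂ) by norm_num, Complex.div_ofReal_re]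
  · rw [if_neg h, int_ch_conj hm h]
    simp

lemma int_Y_sq {T : Finset ℕ} (hT : ∀ m ∈ T, 1 ≤ m) (c : ℕ → ℂ) :
    ∫ ω, (Y T c ω)^2 ∂PP = (∑ m ∈ T, ‖c m‖^2) / 2 := by
  unfold Y
  have e : ∀ ω, (∑ m ∈ T, (c m * ch m ω).re)^2 = ∑ m ∈ T, ∑ m' ∈ T, (c m * ch m ω).re * (c m' * ch m' ω).re := by
    intro ω
    rw [sq, Finset.sum_mul_sum]
  simp only [e]
  have hc : ∀ m, Continuous (fun ω => (c m * ch m ω).re) := fun m =>
    Complex.continuous_re.comp (continuous_const.mul (ch_cont m))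
  have hcc : ∀ m m', Continuous (fun ω => (c m * ch m ω).re * (c m' * ch m' ω).re) := fun m m' => (hc m).mul (hc m')
  have hcs : ∀ m, Continuous (fun ω => ∑ m' ∈ T, (c m * ch m ω).re * (c m' * ch m' ω).re) := fun m =>
    continuous_finsetSum _ (fun m' _ => hcc m m')
  rw [integral_finsetSum _ (fun m _ => integ_of_cont (hcs m))]
  have e2 : ∀ m ∈ T, ∫ ω, ∑ m' ∈ T, (c m * ch m ω).re * (c m' * ch m' ω).re ∂PP = ‖c m‖^2 / 2 := by
    intro m hm
    rw [integral_finsetSum _ (fun m' _ => integ_of_cont (hcc m m'))]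
    rw [Finset.sum_eq_single m]
    · rw [int_pair (hT m hm) (hT m hm), if_pos rfl, Complex.mul_conj, Complex.normSq_eq_norm_sq, Complex.ofReal_re]
    · intro m' hm' hne
      rw [int_pair (hT m hm) (hT m' hm'), if_neg (fun h => hne h.symm)]
    · intro h; exact absurd hm h
  rw [Finset.sum_congr rfl e2, Finset.sum_div]

end Pool.Agent.NH96.SG
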