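import Mathlib
import Pool.Agent.NH96.SG.Om

/-! Independence and characteristic functions on the infinite torus. -/

open MeasureTheory ProbabilityTheory Filter Topology

namespace Pool.Agent.NH96.SG

/-- dependence on finitely many coordinates -/
def Dep {β : Type*} (A : Finset ℕ) (F : Om → β) : Prop :=
  ∀ x y : Om, (∀ i ∈ A, x i = y i) → F x = F y

open Classical in
/-- extension by zero -/
noncomputable def ext0 (A : Finset ℕ) (x : A → UnitAddCircle) : Om := fun i => if h : i ∈ A then x ⟨i, h⟩ else 0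

lemma ext0_meas (A : Finset ℕ) : Measurable (ext0 A) := by
  apply measurable_pi_lambda
  intro i
  by_cases h : i ∈ A
  · simp only [ext0, dif_pos h]; exact measurable_pi_apply _
  · simp only [ext0, dif_neg h]; exact measurable_const

lemma ext0_comp {β : Type*} {A : Finset ℕ} {F : Om → β} (dF : Dep A F) :
    (F ∘ ext0 A) ∘ (fun (a : Om) (i : A) => a i) = F := by
  funext ω
  apply dF
  intro i hi
  simp [ext0, hi]

lemma indep_of_dep {β γ : Type*} [MeasurableSpace β] [MeasurableSpace γ] {A B : Finset ℕ} (hAB : Disjoint A B)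
    {F : Om → β} {G : Om → γ} (hF : Measurable F) (hG : Measurable G) (dF : Dep A F) (dG : Dep B G) :
    IndepFun F G PP := by
  have h0 : iIndepFun (fun (i : ℕ) (ω : Om) => ω i) PP :=
    iIndepFun_infinitePi (P := fun _ : ℕ => (volume : Measure UnitAddCircle)) (X := fun _ x => x) (fun _ => measurable_id)
  have h := h0.indepFun_finset A B hAB (fun i => measurable_pi_apply i)
  have h2 := h.comp (hF.comp (ext0_meas A)) (hG.comp (ext0_meas B))
  rw [ext0_comp dF, ext0_comp dG] at h2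
  exact h2

lemma ch_dep {A : Finset ℕ} {m : ℕ} (h : qq m ∈ A) {x y : Om} (hxy : ∀ i ∈ A, x i = y i) : ch m x = ch m y := by
  unfold ch; rw [hxy _ h]

lemma Y_dep {A T : Finset ℕ} (h : ∀ m ∈ T, qq m ∈ A) (c : ℕ → ℂ) : Dep A (Y T c) := by
  intro x y hxy
  unfold Y
  exact Finset.sum_congr rfl (fun m hm => by rw [ch_dep (h m hm) hxy])

/-- characteristic function -/
noncomputable def cf (X : Om → ℝ) (t : ℝ) : ℂ := ∫ ω, Complex.exp (((t * X ω : ℝ) : ℂ) * Complex.I) ∂PP

lemma exp_cont {X : Om → ℝ} (hX : Measurable X) (t : ℝ) :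
    Measurable (fun ω => Complex.exp (((t * X ω : ℝ) : ℂ) * Complex.I)) := by
  fun_prop

lemma exp_int {X : Om → ℝ} (hX : Measurable X) (t : ℝ) :
    Integrable (fun ω => Complex.exp (((t * X ω : ℝ) : ℂ) * Complex.I)) PP := by
  apply Integrable.of_bound (exp_cont hX t).aestronglyMeasurable 1
  exact Eventually.of_forall (fun ω => by rw [Complex.norm_exp_ofReal_mul_I])

lemma cf_norm_le (X : Om → ℝ) (t : ℝ) : ‖cf X t‖ ≤ 1 := by
  unfold cf
  refine (norm_integral_le_of_norm_le_const (C := 1) (Eventually.of_forall (fun ω => by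
    rw [Complex.norm_exp_ofReal_mul_I]))).trans ?_
  simp

lemma cf_add {X Z : Om → ℝ} (hX : Measurable X) (hZ : Measurable Z) (h : IndepFun X Z PP) (t : ℝ) :
    cf (fun ω => X ω + Z ω) t = cf X t * cf Z t := by
  unfold cf
  have h1 := h.integral_fun_comp_mul_comp (f := fun x : ℝ => Complex.exp (((t * x : ℝ) : ℂ) * Complex.I))
    (g := fun x : ℝ => Complex.exp (((t * x : ℝ) : ℂ) * Complex.I)) hX.aemeasurable hZ.aemeasurable
    (by apply Measurable.aestronglyMeasurable; fun_prop) (by apply Measurable.aestronglyMeasurable; fun_prop)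
  rw [← h1]
  congr 1
  funext ω
  rw [← Complex.exp_add]
  congr 1
  push_cast; ring

lemma exp3 {y : ℝ} (hy : |y| ≤ 1) : ‖Complex.exp ((y : ℂ) * Complex.I) - (1 + (y : ℂ) * Complex.I - (y:ℂ)^2 / 2)‖ ≤ (2/9) * y^2 := by
  have h := Complex.exp_bound (x := (y : ℂ) * Complex.I) (by rw [norm_mul, Complex.norm_I, mul_one, Complex.norm_real]; exact hy)
    (n := 3) (by norm_num)
  have e1 : ∑ m ∈ Finset.range 3, ((y : ℂ) * Complex.I) ^ m / (m.factorial : ℂ) = 1 + (y : ℂ) * Complex.I - (y:ℂ)^2 / 2 := by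
    simp only [Finset.sum_range_succ, Finset.sum_range_zero]
    have : ((y : ℂ) * Complex.I) ^ 2 = - (y:ℂ)^2 := by rw [mul_pow, Complex.I_sq]; ring
    rw [this]
    norm_num [Nat.factorial]
    ring
  rw [e1] at h
  refine h.trans ?_
  rw [norm_mul, Complex.norm_I, mul_one, Complex.norm_real, Real.norm_eq_abs]
  have h0 := abs_nonneg y
  have h3 : |y|^3 ≤ y^2 := by
    rw [← sq_abs y]
    calc |y|^3 = |y|^2 * |y| := by ring
      _ ≤ |y|^2 * 1 := by gcongr
      _ = |y|^2 := mul_one _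
  have h4 : ((Nat.succ 3 : ℕ) : ℝ) * (((Nat.factorial 3 : ℕ) : ℝ) * ((3:ℕ):ℝ))⁻¹ = 2/9 := by
    norm_num [Nat.factorial]
  rw [h4]
  linarith

lemma cf_small {X : Om → ℝ} (hX : Measurable X) {B : ℝ} (hB : ∀ ω, |X ω| ≤ B) (h0 : ∫ ω, X ω ∂PP = 0) {t : ℝ}
    (ht : |t| * B ≤ 1) : ‖cf X t‖ ≤ Real.exp (-((5/18) * (t^2 * ∫ ω, (X ω)^2 ∂PP))) := by
  have hiX : Integrable X PP := Integrable.of_bound hX.aestronglyMeasurable B (Eventually.of_forall hB)
  have hiX2 : Integrable (fun ω => (X ω)^2) PP := by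
    apply Integrable.of_bound (hX.pow_const 2).aestronglyMeasurable (B^2)
    refine Eventually.of_forall (fun ω => ?_)
    rw [norm_pow, Real.norm_eq_abs]
    exact pow_le_pow_left₀ (abs_nonneg _) (hB ω) 2
  set v := ∫ ω, (X ω)^2 ∂PP with hv
  have hv0 : 0 ≤ v := integral_nonneg (fun ω => sq_nonneg _)
  have htX : ∀ ω, |t * X ω| ≤ 1 := by
    intro ω
    rw [abs_mul]
    exact (mul_le_mul_of_nonneg_left (hB ω) (abs_nonneg t)).trans ht
  have htv : t^2 * v ≤ 1 := by
    rw [hv, ← integral_const_mul]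
    calc ∫ ω, t^2 * (X ω)^2 ∂PP ≤ ∫ ω, (1:ℝ) ∂PP := by
          apply integral_mono (hiX2.const_mul _) (integrable_const _)
          intro ω
          have h1 := htX ω
          have h2 : t^2 * (X ω)^2 = |t * X ω|^2 := by rw [sq_abs]; ring
          simp only
          rw [h2]
          exact pow_le_one₀ (abs_nonneg _) h1
      _ = 1 := by simp
  set G : Om → ℂ := fun ω => 1 + ((t * X ω : ℝ) : ℂ) * Complex.I - ((t * X ω : ℝ) : ℂ)^2 / 2 with hG
  have hGi : Integrable G PP := by
    have a1 : Integrable (fun ω => ((t * X ω : ℝ) : ℂ) * Complex.I) PP := ((hiX.const_mul t).ofReal).mul_const _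
    have a2 : Integrable (fun ω => ((t * X ω : ℝ) : ℂ)^2 / 2) PP := by
      have : (fun ω => ((t * X ω : ℝ) : ℂ)^2 / 2) = fun ω => (((t^2/2) * (X ω)^2 : ℝ) : ℂ) := by
        funext ω; push_cast; ring
      rw [this]
      exact (hiX2.const_mul (t^2/2)).ofReal
    exact ((integrable_const (1:ℂ)).add a1).sub a2
  have hGint : ∫ ω, G ω ∂PP = ((1 - t^2 * v / 2 : ℝ) : ℂ) := by
    have e : G = fun ω => (1 : ℂ) + (((t * X ω : ℝ) : ℂ) * Complex.I - (((t^2/2) * (X ω)^2 : ℝ) : ℂ)) := by
      funext ω; simp only [hG]; push_cast; ring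
    have i1 : Integrable (fun ω => ((t * X ω : ℝ) : ℂ) * Complex.I) PP := ((hiX.const_mul t).ofReal).mul_const _
    have i2 : Integrable (fun ω => (((t^2/2) * (X ω)^2 : ℝ) : ℂ)) PP := (hiX2.const_mul (t^2/2)).ofReal
    have i12 : Integrable (fun ω => ((t * X ω : ℝ) : ℂ) * Complex.I - (((t^2/2) * (X ω)^2 : ℝ) : ℂ)) PP := i1.sub i2
    rw [e, integral_add (integrable_const _) i12, integral_sub i1 i2, integral_mul_const, integral_complex_ofReal, integral_complex_ofReal,
      integral_const_mul, integral_const_mul, h0, integral_const]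
    simp only [probReal_univ, one_smul]
    rw [← hv]
    push_cast; ring
  have hdiff : ‖cf X t - ∫ ω, G ω ∂PP‖ ≤ (2/9) * (t^2 * v) := by
    unfold cf
    rw [← integral_sub (exp_int hX t) hGi]
    refine (norm_integral_le_integral_norm _).trans ?_
    calc ∫ ω, ‖Complex.exp (((t * X ω : ℝ) : ℂ) * Complex.I) - G ω‖ ∂PP ≤ ∫ ω, (2/9) * t^2 * (X ω)^2 ∂PP := by
          apply integral_mono_of_nonneg (Eventually.of_forall (fun ω => norm_nonneg _)) (hiX2.const_mul _)
          refine Eventually.of_forall (fun ω => ?_)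
          have := exp3 (htX ω)
          simp only [hG]
          refine this.trans (le_of_eq (by ring))
      _ = (2/9) * (t^2 * v) := by rw [integral_const_mul, ← hv]; ring
  have h1 : ‖cf X t‖ ≤ (1 - t^2 * v / 2) + (2/9) * (t^2 * v) := by
    have e : cf X t = (cf X t - ∫ ω, G ω ∂PP) + ∫ ω, G ω ∂PP := by ring
    rw [e]
    refine (norm_add_le _ _).trans ?_
    rw [hGint, Complex.norm_real, Real.norm_eq_abs, abs_of_nonneg (by linarith)]
    rw [hGint] at hdiff
    linarith
  refine h1.trans ?_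
  have h2 := Real.add_one_le_exp (-((5/18) * (t^2 * v)))
  linarith

lemma Y_split (T : Finset ℕ) (c : ℕ → ℂ) (p : ℕ → Prop) [DecidablePred p] (ω : Om) :
    Y T c ω = Y (T.filter p) c ω + Y (T.filter (fun m => ¬ p m)) c ω := by
  unfold Y
  rw [Finset.sum_filter_add_sum_filter_not]

lemma Y_indep {T T' : Finset ℕ} (h : ∀ m ∈ T, ∀ m' ∈ T', qq m ≠ qq m') (c c' : ℕ → ℂ) :
    IndepFun (Y T c) (Y T' c') PP := by
  classical
  apply indep_of_dep (A := T.image qq) (B := T'.image qq) _ (Y_cont T c).measurable (Y_cont T' c').measurable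
    (Y_dep (fun m hm => Finset.mem_image_of_mem _ hm) c) (Y_dep (fun m hm => Finset.mem_image_of_mem _ hm) c')
  rw [Finset.disjoint_left]
  intro q hq hq'
  rw [Finset.mem_image] at hq hq'
  obtain ⟨m, hm, rfl⟩ := hq
  obtain ⟨m', hm', h2⟩ := hq'
  exact h m hm m' hm' h2.symm

open Classical in
/-- the fundamental bound for the characteristic function -/
theorem cf_Y {t : ℝ} {c : ℕ → ℂ} (Q : Finset ℕ) : ∀ {T : Finset ℕ}, (∀ m ∈ T, 1 ≤ m) →
    (∀ q ∈ Q, |t| * ∑ m ∈ T.filter (fun m => qq m = q), ‖c m‖ ≤ 1) →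
    ‖cf (Y T c) t‖ ≤ Real.exp (-((5/36) * (t^2 * ∑ m ∈ T.filter (fun m => qq m ∈ Q), ‖c m‖^2))) := by
  induction Q using Finset.induction_on with
  | empty =>
    intro T _ _
    simp only [Finset.notMem_empty, Finset.filter_false, Finset.sum_empty, mul_zero, neg_zero, Real.exp_zero]
    exact cf_norm_le _ _
  | insert q Q hq ih =>
    intro T hT hQ
    set T1 := T.filter (fun m => qq m = q) with hT1
    set T2 := T.filter (fun m => ¬ qq m = q) with hT2
    have hsplit : Y T c = fun ω => Y T1 c ω + Y T2 c ω := by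
      funext ω; exact Y_split T c (fun m => qq m = q) ω
    have hind : IndepFun (Y T1 c) (Y T2 c) PP := by
      apply Y_indep
      intro m hm m' hm'
      rw [hT1, Finset.mem_filter] at hm
      rw [hT2, Finset.mem_filter] at hm'
      rw [hm.2]; exact fun h => hm'.2 h.symm
    rw [hsplit, cf_add (Y_cont _ _).measurable (Y_cont _ _).measurable hind, norm_mul]
    have hT1' : ∀ m ∈ T1, 1 ≤ m := fun m hm => hT m (Finset.mem_filter.mp hm).1
    have hT2' : ∀ m ∈ T2, 1 ≤ m := fun m hm => hT m (Finset.mem_filter.mp hm).1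
    have b1 := cf_small (Y_cont T1 c).measurable (Y_abs_le T1 c) (int_Y hT1' c) (t := t)
      (hQ q (Finset.mem_insert_self _ _))
    rw [int_Y_sq hT1'] at b1
    have b2 := ih hT2' (by
      intro q' hq'
      refine le_trans ?_ (hQ q' (Finset.mem_insert_of_mem hq'))
      apply mul_le_mul_of_nonneg_left _ (abs_nonneg _)
      apply Finset.sum_le_sum_of_subset_of_nonneg
      · intro m hm
        rw [Finset.mem_filter, hT2, Finset.mem_filter] at hm
        rw [Finset.mem_filter]
        exact ⟨hm.1.1, hm.2⟩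
      · intro m _ _; exact norm_nonneg _)
    have e1 : ∑ m ∈ T.filter (fun m => qq m ∈ insert q Q), ‖c m‖^2 =
        ∑ m ∈ T1, ‖c m‖^2 + ∑ m ∈ T2.filter (fun m => qq m ∈ Q), ‖c m‖^2 := by
      rw [← Finset.sum_union]
      · apply Finset.sum_congr _ (fun _ _ => rfl)
        ext m
        simp only [hT1, hT2, Finset.mem_filter, Finset.mem_union, Finset.mem_insert]
        constructor
        · rintro ⟨h1, h2⟩
          by_cases h3 : qq m = q
          · exact Or.inl ⟨h1, h3⟩
          · exact Or.inr ⟨⟨h1, h3⟩, h2.resolve_left h3⟩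
        · rintro (⟨h1, h2⟩ | ⟨⟨h1, h2⟩, h3⟩)
          · exact ⟨h1, Or.inl h2⟩
          · exact ⟨h1, Or.inr h3⟩
      · rw [Finset.disjoint_left]
        intro m hm hm'
        rw [hT1, Finset.mem_filter] at hm
        rw [hT2, Finset.mem_filter, Finset.mem_filter] at hm'
        exact hm'.1.2 hm.2
    calc ‖cf (Y T1 c) t‖ * ‖cf (Y T2 c) t‖ ≤ Real.exp (-((5/18) * (t^2 * ((∑ m ∈ T1, ‖c m‖^2) / 2)))) *
          Real.exp (-((5/36) * (t^2 * ∑ m ∈ T2.filter (fun m => qq m ∈ Q), ‖c m‖^2))) := by gcongr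
      _ = _ := by
        rw [← Real.exp_add, e1]
        congr 1; ring

end Pool.Agent.NH96.SG
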