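import Mathlib
import Pool.Agent.NH96.SG.Ind

/-! Mean square limits of trigonometric sums on the infinite torus. -/

open MeasureTheory ProbabilityTheory Filter Topology

namespace Pool.Agent.NH96.SG

open Classical in
/-- the indices up to `M` with class in `S` -/
noncomputable def Tc (S : Set ℕ) (M : ℕ) : Finset ℕ := (Finset.Icc 1 M).filter (fun m => qq m ∈ S)

lemma Tc_mem {S : Set ℕ} {M m : ℕ} : m ∈ Tc S M ↔ (1 ≤ m ∧ m ≤ M) ∧ qq m ∈ S := by
  classical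
  unfold Tc
  rw [Finset.mem_filter, Finset.mem_Icc]

lemma Tc_pos {S : Set ℕ} {M : ℕ} : ∀ m ∈ Tc S M, 1 ≤ m := fun _ hm => (Tc_mem.mp hm).1.1

lemma memLp_cont {f : Om → ℝ} (hf : Continuous f) : MemLp f 2 PP := by
  obtain ⟨C, hC⟩ := (isCompact_range hf).isBounded.exists_norm_le
  exact MemLp.of_bound hf.measurable.aestronglyMeasurable C (Eventually.of_forall (fun ω => hC _ ⟨ω, rfl⟩))

lemma toLp_norm_sq {f : Om → ℝ} (hf : MemLp f 2 PP) : ‖hf.toLp f‖^2 = ∫ ω, (f ω)^2 ∂PP := by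
  rw [← real_inner_self_eq_norm_sq, MeasureTheory.L2.inner_def]
  apply integral_congr_ae
  filter_upwards [hf.coeFn_toLp] with ω hω
  rw [hω]
  simp [sq]

lemma Y_sub_sdiff {T T' : Finset ℕ} (h : T ⊆ T') (c : ℕ → ℂ) (ω : Om) : Y T' c ω - Y T c ω = Y (T' \ T) c ω := by
  unfold Y
  rw [← Finset.sum_sdiff h]; ring

lemma Tc_mono {S : Set ℕ} {M M' : ℕ} (h : M ≤ M') : Tc S M ⊆ Tc S M' := by
  intro m hm
  rw [Tc_mem] at hm ⊢
  exact ⟨⟨hm.1.1, hm.1.2.trans h⟩, hm.2⟩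

/-- the tail of the sum of squares -/
lemma tail_le {c : ℕ → ℂ} (hc : Summable (fun m => ‖c m‖^2)) {S : Set ℕ} {N M M' : ℕ} (hN : N ≤ M) :
    ∑ m ∈ Tc S M' \ Tc S M, ‖c m‖^2 ≤ (∑' m, ‖c m‖^2) - ∑ m ∈ Finset.range (N+1), ‖c m‖^2 := by
  rw [le_sub_iff_add_le]
  have hd : Disjoint (Tc S M' \ Tc S M) (Finset.range (N+1)) := by
    rw [Finset.disjoint_left]
    intro m hm hm'
    rw [Finset.mem_sdiff, Tc_mem, Tc_mem] at hm
    rw [Finset.mem_range] at hm'
    apply hm.2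
    exact ⟨⟨hm.1.1.1, by omega⟩, hm.1.2⟩
  rw [← Finset.sum_union hd]
  exact hc.sum_le_tsum _ (fun _ _ => sq_nonneg _)

lemma tail_tendsto {c : ℕ → ℂ} (hc : Summable (fun m => ‖c m‖^2)) :
    Tendsto (fun N => (∑' m, ‖c m‖^2) - ∑ m ∈ Finset.range (N+1), ‖c m‖^2) atTop (𝓝 0) := by
  have h1 := hc.hasSum.tendsto_sum_nat
  have h2 := h1.comp (tendsto_add_atTop_nat 1)
  have h3 := h2.const_sub (∑' m, ‖c m‖^2)
  rw [sub_self] at h3
  exact h3

theorem l2lim {c : ℕ → ℂ} (hc : Summable (fun m => ‖c m‖^2)) (S : Set ℕ) :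
    ∃ g : Om → ℝ, Measurable g ∧ MemLp g 2 PP ∧
      Tendsto (fun M => ∫ ω, (Y (Tc S M) c ω - g ω)^2 ∂PP) atTop (𝓝 0) := by
  set f : ℕ → Lp ℝ 2 PP := fun M => (memLp_cont (Y_cont (Tc S M) c)).toLp _ with hf
  set tl : ℕ → ℝ := fun N => (∑' m, ‖c m‖^2) - ∑ m ∈ Finset.range (N+1), ‖c m‖^2 with htl
  have hdist : ∀ M M' N : ℕ, N ≤ M → M ≤ M' → dist (f M') (f M) ≤ √(tl N) := by
    intro M M' N hN hM
    have hcont : Continuous (fun ω => Y (Tc S M') c ω - Y (Tc S M) c ω) := (Y_cont _ _).sub (Y_cont _ _)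
    have e1 : f M' - f M = (memLp_cont hcont).toLp _ := by
      simp only [hf]
      rw [← MemLp.toLp_sub]
      rfl
    rw [dist_eq_norm, e1]
    apply Real.le_sqrt_of_sq_le
    rw [toLp_norm_sq]
    have e2 : ∀ ω, Y (Tc S M') c ω - Y (Tc S M) c ω = Y (Tc S M' \ Tc S M) c ω := fun ω => Y_sub_sdiff (Tc_mono hM) c ω
    simp only [e2]
    rw [int_Y_sq (fun m hm => Tc_pos m (Finset.mem_sdiff.mp hm).1)]
    have h3 := tail_le hc (S := S) (M' := M') hN
    have h4 : 0 ≤ ∑ m ∈ Tc S M' \ Tc S M, ‖c m‖^2 := Finset.sum_nonneg (fun _ _ => sq_nonneg _)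
    simp only [htl]
    linarith
  have hcauchy : CauchySeq f := by
    apply cauchySeq_of_le_tendsto_0 (fun N => √(tl N))
    · intro n m N hn hm
      rcases le_total n m with h | h
      · rw [dist_comm]; exact hdist n m N hn h
      · exact hdist m n N hm h
    · have h1 := (Real.continuous_sqrt.tendsto 0).comp (tail_tendsto hc)
      rw [Real.sqrt_zero] at h1
      exact h1
  obtain ⟨g, hg⟩ := cauchySeq_tendsto_of_complete hcauchy
  refine ⟨g, (Lp.stronglyMeasurable g).measurable, Lp.memLp g, ?_⟩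
  have h1 : Tendsto (fun M => ‖f M - g‖^2) atTop (𝓝 0) := by
    have h2 := tendsto_iff_norm_sub_tendsto_zero.mp hg
    have h3 := h2.pow 2
    simpa using h3
  refine h1.congr (fun M => ?_)
  have hsub : MemLp (fun ω => Y (Tc S M) c ω - g ω) 2 PP := (memLp_cont (Y_cont _ _)).sub (Lp.memLp g)
  have e1 : f M - g = hsub.toLp _ := by
    have e2 : g = (Lp.memLp g).toLp _ := (Lp.toLp_coeFn g (Lp.memLp g)).symm
    conv_lhs => rw [e2]
    simp only [hf]
    rw [← MemLp.toLp_sub]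
    rfl
  rw [e1, toLp_norm_sq]

/-- Cauchy–Schwarz -/
lemma int_abs_le {f : Om → ℝ} (hf : MemLp f 2 PP) : ∫ ω, |f ω| ∂PP ≤ √(∫ ω, (f ω)^2 ∂PP) := by
  apply Real.le_sqrt_of_sq_le
  have hi : Integrable f PP := hf.integrable one_le_two
  have hi2 : Integrable (fun ω => (f ω)^2) PP := hf.integrable_sq
  set a := ∫ ω, |f ω| ∂PP with ha
  have h1 : 0 ≤ ∫ ω, (|f ω| - a)^2 ∂PP := integral_nonneg (fun ω => sq_nonneg _)
  have e : ∀ ω, (|f ω| - a)^2 = (f ω)^2 - 2 * a * |f ω| + a^2 := by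
    intro ω; rw [← sq_abs (f ω)]; ring
  simp only [e] at h1
  have i3 : Integrable (fun ω => (f ω)^2 - 2 * a * |f ω|) PP := hi2.sub (hi.abs.const_mul _)
  rw [integral_add i3 (integrable_const _), integral_sub hi2 (hi.abs.const_mul _),
    integral_const_mul, ← ha, integral_const] at h1
  simp only [probReal_univ, one_smul] at h1
  linarith

lemma cf_close {X g : Om → ℝ} (hX : Measurable X) (hg : Measurable g) (h : MemLp (fun ω => X ω - g ω) 2 PP) (t : ℝ) :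
    ‖cf X t - cf g t‖ ≤ |t| * √(∫ ω, (X ω - g ω)^2 ∂PP) := by
  unfold cf
  rw [← integral_sub (exp_int hX t) (exp_int hg t)]
  refine (norm_integral_le_integral_norm _).trans ?_
  have hi : Integrable (fun ω => X ω - g ω) PP := h.integrable one_le_two
  calc ∫ ω, ‖Complex.exp (((t * X ω : ℝ) : ℂ) * Complex.I) - Complex.exp (((t * g ω : ℝ) : ℂ) * Complex.I)‖ ∂PP
      ≤ ∫ ω, |t| * |X ω - g ω| ∂PP := by
        apply integral_mono_of_nonneg (Eventually.of_forall (fun ω => norm_nonneg _)) (hi.abs.const_mul _)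
        refine Eventually.of_forall (fun ω => ?_)
        simp only
        have e1 : Complex.exp (((t * X ω : ℝ) : ℂ) * Complex.I) - Complex.exp (((t * g ω : ℝ) : ℂ) * Complex.I) =
            Complex.exp (((t * g ω : ℝ) : ℂ) * Complex.I) * (Complex.exp (Complex.I * ((t * (X ω - g ω) : ℝ) : ℂ)) - 1) := by
          rw [mul_sub, ← Complex.exp_add, mul_one]
          congr 2
          push_cast; ring
        rw [e1, norm_mul, Complex.norm_exp_ofReal_mul_I, one_mul, ← abs_mul]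
        exact Real.norm_exp_I_mul_ofReal_sub_one_le
    _ = |t| * ∫ ω, |X ω - g ω| ∂PP := integral_const_mul _ _
    _ ≤ |t| * √(∫ ω, (X ω - g ω)^2 ∂PP) := mul_le_mul_of_nonneg_left (int_abs_le h) (abs_nonneg _)

lemma cf_limit_le {c : ℕ → ℂ} {S : Set ℕ} {g : Om → ℝ} (hg : Measurable g) (hg2 : MemLp g 2 PP)
    (hlim : Tendsto (fun M => ∫ ω, (Y (Tc S M) c ω - g ω)^2 ∂PP) atTop (𝓝 0)) {t B : ℝ}
    (hB : ∀ᶠ M in atTop, ‖cf (Y (Tc S M) c) t‖ ≤ B) : ‖cf g t‖ ≤ B := by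
  have h1 : Tendsto (fun M => |t| * √(∫ ω, (Y (Tc S M) c ω - g ω)^2 ∂PP) + B) atTop (𝓝 B) := by
    have h2 := (Real.continuous_sqrt.tendsto 0).comp hlim
    rw [Real.sqrt_zero] at h2
    have h3 := (h2.const_mul |t|).add_const B
    simpa using h3
  refine ge_of_tendsto h1 ?_
  filter_upwards [hB] with M hM
  have h2 := cf_close (Y_cont (Tc S M) c).measurable hg ((memLp_cont (Y_cont _ _)).sub hg2) t
  calc ‖cf g t‖ = ‖cf (Y (Tc S M) c) t - (cf (Y (Tc S M) c) t - cf g t)‖ := by congr 1; ring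
    _ ≤ ‖cf (Y (Tc S M) c) t‖ + ‖cf (Y (Tc S M) c) t - cf g t‖ := norm_sub_le _ _
    _ ≤ B + |t| * √(∫ ω, (Y (Tc S M) c ω - g ω)^2 ∂PP) := add_le_add hM h2
    _ = _ := add_comm _ _

/-- charFun of the law -/
lemma charFun_map {g : Om → ℝ} (hg : Measurable g) (t : ℝ) : charFun (PP.map g) t = cf g t := by
  rw [charFun_apply_real, integral_map hg.aemeasurable (by apply Measurable.aestronglyMeasurable; fun_prop)]
  unfold cf
  congr 1
  funext ω
  push_cast; ring_nf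

end Pool.Agent.NH96.SG
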