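import Mathlib
import Pool.Agent.H383.Rich
import Pool.Agent.H383.EntDens2
import Pool.Agent.NH96.SG.Lim

/-! Decay of the characteristic functions of sparse families of classes. -/

open MeasureTheory ProbabilityTheory Filter Topology
open Pool.Agent.H383.Rich

namespace Pool.Agent.NH96.SG

/-- standing hypotheses on the coefficients -/
structure CB (c : ℕ → ℂ) (C c1 : ℝ) : Prop where
  C0 : 0 < C
  c10 : 0 < c1
  up : ∀ m : ℕ, 1 ≤ m → ‖c m‖ ≤ C * (m:ℝ) ^ (-(7/10):ℝ)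
  lo : ∀ q : ℕ, q.Prime → q % 4 = 1 → c1 * (q:ℝ) ^ (-(3/4):ℝ) ≤ ‖c q‖

/-- the constant for the sum over a class -/
noncomputable def ZZ (C : ℝ) : ℝ := C * ∑' t : ℕ, (t:ℝ) ^ (-(7/5):ℝ)

lemma sum75 : Summable (fun t : ℕ => (t:ℝ) ^ (-(7/5):ℝ)) := by
  rw [Real.summable_nat_rpow]; norm_num

lemma ZZ_pos {C : ℝ} (hC : 0 < C) : 0 < ZZ C := by
  apply mul_pos hC
  have := sum75.sum_le_tsum {1} (fun t _ => by positivity)
  simp only [Finset.sum_singleton, Nat.cast_one, Real.one_rpow] at this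
  linarith

variable {c : ℕ → ℂ} {C c1 : ℝ}

open Classical in
lemma cls_sum {c : ℕ → ℂ} {C : ℝ} (hC : 0 < C) (hup : ∀ m : ℕ, 1 ≤ m → ‖c m‖ ≤ C * (m:ℝ) ^ (-(7/10):ℝ))
    {T : Finset ℕ} (hT : ∀ m ∈ T, 1 ≤ m) {q : ℕ} :
    ∑ m ∈ T.filter (fun m => qq m = q), ‖c m‖ ≤ ZZ C * (q:ℝ) ^ (-(7/10):ℝ) := by
  set T' := T.filter (fun m => qq m = q) with hT'
  have hinj : Set.InjOn kk (T' : Set ℕ) := by
    intro m hm m' hm' h
    rw [Finset.mem_coe, hT', Finset.mem_filter] at hm hm'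
    exact qk_inj (hm.2.trans hm'.2.symm) h
  have h1 : ∀ m ∈ T', ‖c m‖ ≤ C * (q:ℝ) ^ (-(7/10):ℝ) * ((kk m : ℕ) : ℝ) ^ (-(7/5):ℝ) := by
    intro m hm
    rw [hT', Finset.mem_filter] at hm
    have hm1 := hT m hm.1
    have hk : (0:ℝ) < kk m := by exact_mod_cast kk_pos hm1
    have hq0 : (0:ℝ) ≤ q := Nat.cast_nonneg q
    refine (hup m hm1).trans (le_of_eq ?_)
    have h2 := (qk_spec m).1
    rw [hm.2] at h2
    have h3 : (m:ℝ) = (kk m : ℝ)^2 * (q:ℝ) := by exact_mod_cast h2.symm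
    rw [h3, Real.mul_rpow (by positivity) hq0, ← Real.rpow_natCast, ← Real.rpow_mul hk.le]
    norm_num
    ring
  calc ∑ m ∈ T', ‖c m‖ ≤ ∑ m ∈ T', C * (q:ℝ) ^ (-(7/10):ℝ) * ((kk m : ℕ) : ℝ) ^ (-(7/5):ℝ) := Finset.sum_le_sum h1
    _ = C * (q:ℝ) ^ (-(7/10):ℝ) * ∑ m ∈ T', ((kk m : ℕ) : ℝ) ^ (-(7/5):ℝ) := by rw [Finset.mul_sum]
    _ = C * (q:ℝ) ^ (-(7/10):ℝ) * ∑ t ∈ T'.image kk, ((t : ℕ) : ℝ) ^ (-(7/5):ℝ) := by rw [Finset.sum_image hinj]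
    _ ≤ C * (q:ℝ) ^ (-(7/10):ℝ) * ∑' t : ℕ, (t:ℝ) ^ (-(7/5):ℝ) := by
        gcongr
        exact sum75.sum_le_tsum _ (fun t _ => by positivity)
    _ = _ := by unfold ZZ; ring

lemma sq_summable (hc : CB c C c1) : Summable (fun m => ‖c m‖^2) := by
  have h1 : Summable (fun m : ℕ => C^2 * (m:ℝ) ^ (-(7/5):ℝ)) := sum75.mul_left _
  rw [← summable_nat_add_iff 1]
  refine Summable.of_nonneg_of_le (fun m => sq_nonneg _) (fun m => ?_) ((summable_nat_add_iff 1).mpr h1)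
  have h2 := hc.up (m+1) (by omega)
  have h3 : (0:ℝ) < ((m+1:ℕ):ℝ) := by positivity
  calc ‖c (m+1)‖^2 ≤ (C * ((m+1:ℕ):ℝ) ^ (-(7/10):ℝ))^2 := pow_le_pow_left₀ (norm_nonneg _) h2 2
    _ = C^2 * ((m+1:ℕ):ℝ) ^ (-(7/5):ℝ) := by
      rw [mul_pow, ← Real.rpow_natCast (((m+1:ℕ):ℝ) ^ (-(7/10):ℝ)), ← Real.rpow_mul h3.le]
      norm_num

/-- the classes of the family `r` -/
def SS (r : ℕ) : Set ℕ := {q | q.Prime ∧ q % 4 = 1 ∧ Nat.log 2 q % 4 = r}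

lemma exists_pow {y : ℝ} (hy : 1 ≤ y) {r : ℕ} (hr : r < 4) : ∃ j : ℕ, j % 4 = r ∧ y ≤ 2^j ∧ (2:ℝ)^j ≤ 16 * y := by
  obtain ⟨n, h1, h2⟩ := exists_nat_pow_near hy (by norm_num : (1:ℝ) < 2)
  obtain ⟨s, hs, hs2⟩ : ∃ s : ℕ, s ≤ 3 ∧ (n + 1 + s) % 4 = r := by
    refine ⟨(r + 4 - (n+1) % 4) % 4, ?_, ?_⟩ <;> omega
  refine ⟨n+1+s, hs2, ?_, ?_⟩
  · refine h2.le.trans ?_
    exact pow_le_pow_right₀ (by norm_num) (by omega)
  · have h3 : (2:ℝ)^s ≤ 8 := by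
      calc (2:ℝ)^s ≤ 2^3 := pow_le_pow_right₀ (by norm_num) hs
        _ = 8 := by norm_num
    calc (2:ℝ)^(n+1+s) = 2 * 2^n * 2^s := by ring
      _ ≤ 2 * y * 8 := by gcongr
      _ = 16 * y := by ring

lemma log_PB {j q : ℕ} (hq : q ∈ PB ∅ ((2:ℝ)^j)) : q.Prime ∧ q % 4 = 1 ∧ Nat.log 2 q = j ∧ (2:ℝ)^j < q ∧ (q:ℝ) ≤ 2 * 2^j := by
  have h := PB_mem (by positivity) hq
  refine ⟨h.1, h.2.1, ?_, h.2.2.2.1, h.2.2.2.2⟩
  have h1 : 2^j < q := by exact_mod_cast h.2.2.2.1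
  have h2 : q ≤ 2^(j+1) := by
    have : (q:ℝ) ≤ ((2^(j+1) : ℕ) : ℝ) := by push_cast; rw [pow_succ]; linarith [h.2.2.2.2]
    exact_mod_cast this
  have h3 : q ≠ 2^(j+1) := by
    intro h4
    have h5 := h.2.1
    rw [h4, pow_succ] at h5
    omega
  exact Nat.log_eq_of_pow_le_of_lt_pow h1.le (by omega)

lemma T_lower {S : Set ℕ} {Q : Finset ℕ} {M : ℕ} (hQ : ∀ q ∈ Q, q.Prime ∧ q ∈ S ∧ q ≤ M) (c : ℕ → ℂ) [DecidableEq ℕ] :
    ∑ q ∈ Q, ‖c q‖^2 ≤ ∑ m ∈ (Tc S M).filter (fun m => qq m ∈ Q), ‖c m‖^2 := by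
  apply Finset.sum_le_sum_of_subset_of_nonneg
  · intro q hq
    have h := hQ q hq
    have h2 := (qq_prime h.1).1
    rw [Finset.mem_filter, Tc_mem, h2]
    exact ⟨⟨⟨h.1.one_lt.le, h.2.2⟩, h.2.1⟩, hq⟩
  · intro m _ _; exact sq_nonneg _

lemma PB_sum (hc : CB c C c1) {y0 : ℝ} (hcard : ∀ y : ℝ, y0 ≤ y → (1/20) * y / Real.log y ≤ ((PB ∅ y).card : ℝ))
    {y : ℝ} (hy1 : 1 < y) (hyy0 : y0 ≤ y) :
    (c1^2 * 2 ^ (-(3/2):ℝ) * (1/500)) * y ^ (-(27/50):ℝ) ≤ ∑ q ∈ PB ∅ y, ‖c q‖^2 := by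
  have hyp : 0 < y := by linarith
  have hc1 := hc.c10
  have h3 : ((PB ∅ y).card : ℝ) * (c1^2 * (2*y) ^ (-(3/2):ℝ)) ≤ ∑ q ∈ PB ∅ y, ‖c q‖^2 := by
    rw [← nsmul_eq_mul]
    apply Finset.card_nsmul_le_sum
    intro q hq
    have h4 := PB_mem hyp.le hq
    have hq0 : (0:ℝ) < q := by linarith [h4.2.2.2.1]
    have h5 := hc.lo q h4.1 h4.2.1
    have h6 : (2*y) ^ (-(3/4):ℝ) ≤ (q:ℝ) ^ (-(3/4):ℝ) :=
      Real.rpow_le_rpow_of_nonpos hq0 h4.2.2.2.2 (by norm_num)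
    have h7 : c1 * (2*y) ^ (-(3/4):ℝ) ≤ ‖c q‖ := by
      refine le_trans ?_ h5
      gcongr
    have h8 : (c1 * (2*y) ^ (-(3/4):ℝ))^2 ≤ ‖c q‖^2 := by
      apply pow_le_pow_left₀ (by positivity) h7
    have h9 : (c1 * (2*y) ^ (-(3/4):ℝ))^2 = c1^2 * (2*y) ^ (-(3/2):ℝ) := by
      rw [mul_pow, ← Real.rpow_natCast ((2*y) ^ (-(3/4):ℝ)), ← Real.rpow_mul (by positivity)]
      norm_num
    linarith
  have h10 := hcard y hyy0
  have hlogy : 0 < Real.log y := Real.log_pos hy1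
  have hlog : Real.log y ≤ y ^ (1/25:ℝ) / (1/25) := Real.log_le_rpow_div hyp.le (by norm_num)
  have h11 : (1/20) * y / (y ^ (1/25:ℝ) / (1/25)) ≤ ((PB ∅ y).card : ℝ) := by
    refine le_trans ?_ h10
    exact div_le_div_of_nonneg_left (by positivity) hlogy hlog
  refine le_trans ?_ h3
  have h13 : (c1^2 * 2 ^ (-(3/2):ℝ) * (1/500)) * y ^ (-(27/50):ℝ) =
      ((1/20) * y / (y ^ (1/25:ℝ) / (1/25))) * (c1^2 * (2*y) ^ (-(3/2):ℝ)) := by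
    rw [Real.mul_rpow (by norm_num) hyp.le]
    have e1 : y ^ (-(27/50):ℝ) = y * y ^ (-(3/2):ℝ) / y ^ (1/25:ℝ) := by
      rw [eq_div_iff (by positivity), ← Real.rpow_add hyp]
      conv_rhs => rw [← Real.rpow_one y, ← Real.rpow_mul hyp.le, one_mul, ← Real.rpow_add hyp]
      congr 1; norm_num
    rw [e1]
    field_simp
    norm_num
  rw [h13]
  gcongr

/-- the decay -/
theorem decay (hc : CB c C c1) {r : ℕ} (hr : r < 4) : ∃ A c0 : ℝ, 0 < A ∧ 0 < c0 ∧ ∀ t : ℝ, ∀ᶠ M : ℕ in atTop,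
    ‖cf (Y (Tc (SS r) M) c) t‖ ≤ A * Real.exp (-(c0 * |t| ^ (43/35:ℝ))) := by
  classical
  obtain ⟨yP, hyP, hcard⟩ := PB_card ∅
  obtain ⟨Z, hZ⟩ : ∃ Z, Z = ZZ C := ⟨_, rfl⟩
  have hZ0 : 0 < Z := by rw [hZ]; exact ZZ_pos hc.C0
  have hc1 := hc.c10
  obtain ⟨D, hD⟩ : ∃ D, D = c1^2 * (2:ℝ) ^ (-(3/2):ℝ) * (1/500) := ⟨_, rfl⟩
  have hD0 : 0 < D := by rw [hD]; positivity
  obtain ⟨c0, hc0⟩ : ∃ c0, c0 = (5/36) * (D * (16:ℝ) ^ (-(27/50):ℝ) * Z ^ (-(27/35):ℝ)) := ⟨_, rfl⟩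
  have hc00 : 0 < c0 := by rw [hc0]; positivity
  obtain ⟨t0, ht0⟩ : ∃ t0, t0 = yP ^ (7/10:ℝ) / Z := ⟨_, rfl⟩
  have ht00 : 0 < t0 := by rw [ht0]; positivity
  refine ⟨Real.exp (c0 * t0 ^ (43/35:ℝ)), c0, Real.exp_pos _, hc00, fun t => ?_⟩
  by_cases ht : |t| < t0
  · refine Eventually.of_forall (fun M => (cf_norm_le _ t).trans ?_)
    rw [← Real.exp_add]
    apply Real.one_le_exp
    have : |t| ^ (43/35:ℝ) ≤ t0 ^ (43/35:ℝ) := Real.rpow_le_rpow (abs_nonneg _) ht.le (by norm_num)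
    nlinarith
  · push Not at ht
    have ht1 : 0 < |t| := by linarith
    obtain ⟨y0, hy0⟩ : ∃ y0, y0 = (Z * |t|) ^ (10/7:ℝ) := ⟨_, rfl⟩
    have hy0κ : y0 ^ (7/10:ℝ) = Z * |t| := by
      rw [hy0, ← Real.rpow_mul (by positivity)]; norm_num
    have hyPy0 : yP ≤ y0 := by
      have h1 : yP ^ (7/10:ℝ) ≤ Z * |t| := by
        rw [ht0, div_le_iff₀ hZ0] at ht; linarith
      rw [← hy0κ] at h1
      exact (Real.rpow_le_rpow_iff (by linarith) (by rw [hy0]; positivity) (by norm_num)).mp h1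
    obtain ⟨j, hj1, hj2, hj3⟩ := exists_pow (y := y0) (by linarith) hr
    set y : ℝ := 2^j with hy
    have hyp : 0 < y := by positivity
    filter_upwards [eventually_ge_atTop (2^(j+1))] with M hM
    have hQ : ∀ q ∈ PB ∅ y, q.Prime ∧ q ∈ SS r ∧ q ≤ M := by
      intro q hq
      have h := log_PB hq
      refine ⟨h.1, ⟨h.1, h.2.1, by rw [h.2.2.1]; exact hj1⟩, ?_⟩
      have h2 : (q:ℝ) ≤ M := by
        have h3 : ((2^(j+1) : ℕ) : ℝ) ≤ M := by exact_mod_cast hM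
        push_cast at h3
        rw [pow_succ] at h3
        linarith [h.2.2.2.2]
      exact_mod_cast h2
    have h1 := cf_Y (t := t) (c := c) (PB ∅ y) (T := Tc (SS r) M) Tc_pos (by
      intro q hq
      have h := log_PB hq
      have h2 := cls_sum hc.C0 hc.up (T := Tc (SS r) M) Tc_pos (q := q)
      have hq0 : (0:ℝ) < q := by linarith [h.2.2.2.1]
      have h3 : (q:ℝ) ^ (-(7/10):ℝ) ≤ y0 ^ (-(7/10):ℝ) :=
        Real.rpow_le_rpow_of_nonpos (by linarith) (by linarith [h.2.2.2.1]) (by norm_num)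
      have h4 : y0 ^ (-(7/10):ℝ) = (Z * |t|)⁻¹ := by rw [Real.rpow_neg (by linarith), hy0κ]
      rw [h4] at h3
      calc |t| * ∑ m ∈ (Tc (SS r) M).filter (fun m => qq m = q), ‖c m‖ ≤ |t| * (Z * (q:ℝ) ^ (-(7/10):ℝ)) := by
            rw [hZ]
            gcongr
        _ ≤ |t| * (Z * (Z * |t|)⁻¹) := by gcongr
        _ = 1 := by field_simp)
    refine h1.trans ?_
    have h5 := T_lower hQ c
    have h6 := PB_sum hc hcard (y := y) (by linarith) (by linarith)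
    have h7 : y ^ (-(27/50):ℝ) ≥ (16 * y0) ^ (-(27/50):ℝ) :=
      Real.rpow_le_rpow_of_nonpos hyp hj3 (by norm_num)
    have h8 : (16 * y0) ^ (-(27/50):ℝ) = (16:ℝ) ^ (-(27/50):ℝ) * (Z ^ (-(27/35):ℝ) * |t| ^ (-(27/35):ℝ)) := by
      rw [Real.mul_rpow (by norm_num) (by linarith), hy0, ← Real.rpow_mul (by positivity), ← Real.mul_rpow hZ0.le (abs_nonneg _)]
      norm_num
    have h9 : t^2 * |t| ^ (-(27/35):ℝ) = |t| ^ (43/35:ℝ) := by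
      rw [← sq_abs, ← Real.rpow_natCast, ← Real.rpow_add ht1]
      congr 1
      norm_num
    have h10 : c0 * |t| ^ (43/35:ℝ) ≤ (5/36) * (t^2 * ∑ m ∈ (Tc (SS r) M).filter (fun m => qq m ∈ PB ∅ y), ‖c m‖^2) := by
      calc c0 * |t| ^ (43/35:ℝ) = (5/36) * (t^2 * (D * ((16:ℝ) ^ (-(27/50):ℝ) * (Z ^ (-(27/35):ℝ) * |t| ^ (-(27/35):ℝ))))) := by
            rw [hc0, ← h9]; ring
        _ = (5/36) * (t^2 * (D * (16 * y0) ^ (-(27/50):ℝ))) := by rw [h8]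
        _ ≤ (5/36) * (t^2 * (D * y ^ (-(27/50):ℝ))) := by gcongr
        _ ≤ (5/36) * (t^2 * ∑ m ∈ (Tc (SS r) M).filter (fun m => qq m ∈ PB ∅ y), ‖c m‖^2) := by
            have : D * y ^ (-(27/50):ℝ) ≤ ∑ m ∈ (Tc (SS r) M).filter (fun m => qq m ∈ PB ∅ y), ‖c m‖^2 := by
              rw [hD]; exact h6.trans h5
            gcongr
    calc Real.exp (-((5/36) * (t^2 * ∑ m ∈ (Tc (SS r) M).filter (fun m => qq m ∈ PB ∅ y), ‖c m‖^2)))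
        ≤ Real.exp (-(c0 * |t| ^ (43/35:ℝ))) := Real.exp_le_exp.mpr (neg_le_neg h10)
      _ = 1 * Real.exp (-(c0 * |t| ^ (43/35:ℝ))) := (one_mul _).symm
      _ ≤ _ := by
        gcongr
        exact Real.one_le_exp (by positivity)

/-- the limit variable of a sparse family and its density -/
theorem limit_density (hc : CB c C c1) {r : ℕ} (hr : r < 4) : ∃ g : Om → ℝ, Measurable g ∧ MemLp g 2 PP ∧
    Tendsto (fun M => ∫ ω, (Y (Tc (SS r) M) c ω - g ω)^2 ∂PP) atTop (𝓝 0) ∧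
    ∃ G : ℂ → ℂ, Differentiable ℂ G ∧ (∀ x : ℝ, 0 ≤ (G x).re ∧ (G x).im = 0) ∧
      PP.map g = volume.withDensity (fun x : ℝ => ENNReal.ofReal (G x).re) ∧
      ∀ u v : ℝ, u < v → 0 < (PP.map g) (Set.Ioo u v) := by
  obtain ⟨g, hg, hg2, hlim⟩ := l2lim (sq_summable hc) (SS r)
  obtain ⟨A, c0, hA, hc0, hdec⟩ := decay hc hr
  haveI : IsProbabilityMeasure (PP.map g) := Measure.isProbabilityMeasure_map hg.aemeasurable
  have h : ∀ t : ℝ, ‖charFun (PP.map g) t‖ ≤ A * Real.exp (-(c0 * |t| ^ (43/35:ℝ))) := by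
    intro t
    rw [charFun_map hg]
    exact cf_limit_le hg hg2 hlim (hdec t)
  obtain ⟨G, h1, h2, h3, h4⟩ := Pool.Agent.H383.ED.entire_density (PP.map g) hc0 (by norm_num : (1:ℝ) < 43/35) hA.le h
  exact ⟨g, hg, hg2, hlim, G, h1, h2, h3, h4⟩

end Pool.Agent.NH96.SG
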