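import Mathlib
import Pool.Agent.NH96.SG.Dec

/-! Lower bounds for small intervals, at finite level. -/

open MeasureTheory ProbabilityTheory Filter Topology

namespace Pool.Agent.NH96.SG

variable {c : ℕ → ℂ} {C c1 : ℝ}

/-- Chebyshev -/
lemma cheb {f : Om → ℝ} (hf : MemLp f 2 PP) {ε : ℝ} (hε : 0 < ε) :
    PP.real {ω | ε ≤ |f ω|} ≤ (∫ ω, (f ω)^2 ∂PP) / ε^2 := by
  have h1 := mul_meas_ge_le_integral_of_nonneg (μ := PP) (f := fun ω => (f ω)^2)
    (Eventually.of_forall (fun ω => sq_nonneg _)) hf.integrable_sq (ε^2)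
  have e : {ω | ε ≤ |f ω|} = {ω | ε^2 ≤ (f ω)^2} := by
    ext ω
    simp only [Set.mem_ofPred_eq]
    rw [← sq_abs (f ω)]
    constructor
    · intro h; exact pow_le_pow_left₀ hε.le h 2
    · intro h; exact le_of_sq_le_sq h (abs_nonneg _)
  rw [e, le_div_iff₀ (by positivity), mul_comm]
  exact h1

/-- comparison of an interval event with the limit variable -/
lemma near_lb {X g : Om → ℝ} (hX : Measurable X) (hg : Measurable g) (h : MemLp (fun ω => X ω - g ω) 2 PP)
    {s t ε : ℝ} (hε : 0 < ε) :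
    PP.real {ω | s + ε < g ω ∧ g ω < t - ε} - (∫ ω, (X ω - g ω)^2 ∂PP) / ε^2 ≤ PP.real {ω | s < X ω ∧ X ω < t} := by
  have h1 := cheb h hε
  have h2 : {ω | s + ε < g ω ∧ g ω < t - ε} ⊆ {ω | s < X ω ∧ X ω < t} ∪ {ω | ε ≤ |X ω - g ω|} := by
    intro ω hω
    simp only [Set.mem_ofPred_eq, Set.mem_union] at hω ⊢
    by_cases h3 : ε ≤ |X ω - g ω|
    · exact Or.inr h3
    · push Not at h3
      rw [abs_lt] at h3
      exact Or.inl ⟨by linarith, by linarith⟩
  have h4 := measureReal_mono (μ := PP) h2 (by finiteness)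
  have h5 := measureReal_union_le (μ := PP) {ω | s < X ω ∧ X ω < t} {ω | ε ≤ |X ω - g ω|}
  linarith

/-- first lower bound: an interval where the law has a positive density -/
theorem ls1 (hc : CB c C c1) : ∃ x0 r1 p1 : ℝ, 0 < r1 ∧ 0 < p1 ∧ ∀ δ : ℝ, 0 < δ → ∃ M0 : ℕ, ∀ M : ℕ, M0 ≤ M →
    ∀ s t : ℝ, x0 - r1 ≤ s → t ≤ x0 + r1 → p1 * (t - s - δ) ≤ PP.real {ω | s < Y (Tc (SS 1) M) c ω ∧ Y (Tc (SS 1) M) c ω < t} := by
  obtain ⟨g, hg, hg2, hlim, G, hG, hG0, hGμ, hpos⟩ := limit_density hc (r := 1) (by norm_num)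
  have hGc : Continuous (fun x : ℝ => (G x).re) :=
    Complex.continuous_re.comp (hG.continuous.comp Complex.continuous_ofReal)
  -- a point of positive density
  obtain ⟨x0, hx0⟩ : ∃ x0 : ℝ, 0 < (G x0).re := by
    by_contra hcon
    push Not at hcon
    have h1 := hpos 0 1 one_pos
    rw [hGμ, withDensity_apply _ measurableSet_Ioo] at h1
    have h2 : ∀ x : ℝ, ENNReal.ofReal (G x).re = 0 := fun x => ENNReal.ofReal_eq_zero.mpr (hcon x)
    simp only [h2, lintegral_zero, lt_irrefl] at h1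
  obtain ⟨r, hr, hball⟩ : ∃ r : ℝ, 0 < r ∧ ∀ x : ℝ, |x - x0| < r → (G x0).re / 2 < (G x).re := by
    have h1 := hGc.continuousAt.eventually (lt_mem_nhds (show (G x0).re / 2 < (G x0).re by linarith))
    rw [Metric.eventually_nhds_iff] at h1
    obtain ⟨r, hr, h2⟩ := h1
    exact ⟨r, hr, fun x hx => h2 (by rw [Real.dist_eq]; exact hx)⟩
  refine ⟨x0, r/2, (G x0).re / 2, by positivity, by positivity, fun δ hδ => ?_⟩
  set p1 := (G x0).re / 2 with hp1
  have hp1pos : 0 < p1 := by positivity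
  have h3 := hlim.eventually (gt_mem_nhds (show (0:ℝ) < p1 * (δ/2) * (δ/4)^2 by positivity))
  rw [eventually_atTop] at h3
  obtain ⟨M0, hM0⟩ := h3
  refine ⟨M0, fun M hM s t hs ht => ?_⟩
  by_cases hst : t - s ≤ δ
  · refine le_trans ?_ measureReal_nonneg
    nlinarith
  push Not at hst
  have h4 := near_lb (Y_cont (Tc (SS 1) M) c).measurable hg ((memLp_cont (Y_cont _ _)).sub hg2) (s := s) (t := t)
    (ε := δ/4) (by positivity)
  have h5 : (∫ ω, (Y (Tc (SS 1) M) c ω - g ω)^2 ∂PP) / (δ/4)^2 ≤ p1 * (δ/2) := by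
    rw [div_le_iff₀ (by positivity)]
    exact (hM0 M hM).le
  -- the measure of the smaller interval
  have h6 : p1 * (t - s - δ/2) ≤ PP.real {ω | s + δ/4 < g ω ∧ g ω < t - δ/4} := by
    have e1 : {ω | s + δ/4 < g ω ∧ g ω < t - δ/4} = g ⁻¹' (Set.Ioo (s + δ/4) (t - δ/4)) := rfl
    have e2 : PP (g ⁻¹' (Set.Ioo (s + δ/4) (t - δ/4))) = (PP.map g) (Set.Ioo (s + δ/4) (t - δ/4)) :=
      (Measure.map_apply hg measurableSet_Ioo).symm
    rw [e1, measureReal_def, e2, hGμ, withDensity_apply _ measurableSet_Ioo]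
    have h7 : ENNReal.ofReal (p1 * (t - s - δ/2)) ≤ ∫⁻ x in Set.Ioo (s + δ/4) (t - δ/4), ENNReal.ofReal (G x).re := by
      calc ENNReal.ofReal (p1 * (t - s - δ/2)) = ∫⁻ x in Set.Ioo (s + δ/4) (t - δ/4), ENNReal.ofReal p1 := by
            rw [lintegral_const, Measure.restrict_apply MeasurableSet.univ, Set.univ_inter, Real.volume_Ioo,
              ← ENNReal.ofReal_mul hp1pos.le]
            congr 1; ring
        _ ≤ _ := by
            apply setLIntegral_mono' measurableSet_Ioo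
            intro x hx
            apply ENNReal.ofReal_le_ofReal
            apply (hball x _).le
            rw [abs_lt]
            constructor
            · linarith [hx.1]
            · linarith [hx.2]
    have h8 : ∫⁻ x in Set.Ioo (s + δ/4) (t - δ/4), ENNReal.ofReal (G x).re ≠ ⊤ := by
      rw [← withDensity_apply _ measurableSet_Ioo, ← hGμ, ← e2]
      exact measure_ne_top _ _
    have h9 := ENNReal.toReal_mono h8 h7
    rwa [ENNReal.toReal_ofReal (by nlinarith)] at h9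
  linarith

/-- second lower bound: full support on compacts -/
theorem ls2 (hc : CB c C c1) {W r : ℝ} (hW : 0 < W) (hr : 0 < r) : ∃ p2 : ℝ, 0 < p2 ∧ ∃ M0 : ℕ, ∀ M : ℕ, M0 ≤ M →
    ∀ x : ℝ, |x| ≤ W → p2 ≤ PP.real {ω | x - r < Y (Tc (SS 3) M) c ω ∧ Y (Tc (SS 3) M) c ω < x + r} := by
  obtain ⟨g, hg, hg2, hlim, G, hG, hG0, hGμ, hpos⟩ := limit_density hc (r := 3) (by norm_num)
  obtain ⟨K, hK⟩ := exists_nat_ge (4 * W / r)
  set xk : ℕ → ℝ := fun k => -W + k * (r/2) with hxk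
  set pk : ℕ → ℝ := fun k => PP.real {ω | xk k - r/4 < g ω ∧ g ω < xk k + r/4} with hpk
  have hpk0 : ∀ k, 0 < pk k := by
    intro k
    have h1 := hpos (xk k - r/4) (xk k + r/4) (by linarith)
    rw [Measure.map_apply hg measurableSet_Ioo] at h1
    have h2 : PP.real (g ⁻¹' (Set.Ioo (xk k - r/4) (xk k + r/4))) ≠ 0 := by
      rw [measureReal_def, Ne, ENNReal.toReal_eq_zero_iff, not_or]
      exact ⟨h1.ne', measure_ne_top _ _⟩
    exact lt_of_le_of_ne measureReal_nonneg h2.symm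
  obtain ⟨k0, -, hk0⟩ := Finset.exists_min_image (Finset.range (K+1)) pk ⟨0, by simp⟩
  refine ⟨pk k0 / 2, by have := hpk0 k0; positivity, ?_⟩
  have h3 := hlim.eventually (gt_mem_nhds (show (0:ℝ) < pk k0 / 2 * (r/4)^2 by have := hpk0 k0; positivity))
  rw [eventually_atTop] at h3
  obtain ⟨M0, hM0⟩ := h3
  refine ⟨M0, fun M hM x hx => ?_⟩
  have h5 : (∫ ω, (Y (Tc (SS 3) M) c ω - g ω)^2 ∂PP) / (r/4)^2 ≤ pk k0 / 2 := by
    rw [div_le_iff₀ (by positivity)]
    exact (hM0 M hM).le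
  -- grid point
  obtain ⟨k, hk, hk2⟩ : ∃ k ∈ Finset.range (K+1), |x - xk k| ≤ r/2 := by
    rw [abs_le] at hx
    have h1 : 0 ≤ (x + W) / (r/2) := div_nonneg (by linarith) (by positivity)
    refine ⟨⌊(x + W) / (r/2)⌋₊, ?_, ?_⟩
    · rw [Finset.mem_range, Nat.lt_succ_iff]
      have h2 : (x + W) / (r/2) ≤ K := by
        refine le_trans ?_ hK
        rw [div_le_div_iff₀ (by positivity) hr]
        nlinarith
      exact Nat.floor_le_of_le h2
    · have h2 := Nat.floor_le h1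
      have h3 := Nat.lt_floor_add_one ((x + W) / (r/2))
      rw [le_div_iff₀ (by positivity)] at h2
      rw [div_lt_iff₀ (by positivity)] at h3
      simp only [hxk]
      rw [abs_le]
      constructor <;> nlinarith
  have h6 := near_lb (Y_cont (Tc (SS 3) M) c).measurable hg ((memLp_cont (Y_cont _ _)).sub hg2)
    (s := xk k - r/2) (t := xk k + r/2) (ε := r/4) (by positivity)
  have e1 : {ω | xk k - r/2 + r/4 < g ω ∧ g ω < xk k + r/2 - r/4} = {ω | xk k - r/4 < g ω ∧ g ω < xk k + r/4} := by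
    ext ω
    simp only [Set.mem_ofPred_eq]
    constructor <;> rintro ⟨h1, h2⟩ <;> exact ⟨by linarith, by linarith⟩
  rw [e1] at h6
  have h7 := hk0 k hk
  have h8 : {ω | xk k - r/2 < Y (Tc (SS 3) M) c ω ∧ Y (Tc (SS 3) M) c ω < xk k + r/2} ⊆
      {ω | x - r < Y (Tc (SS 3) M) c ω ∧ Y (Tc (SS 3) M) c ω < x + r} := by
    intro ω hω
    rw [abs_le] at hk2
    exact ⟨by linarith [hω.1], by linarith [hω.2]⟩
  have h9 := measureReal_mono (μ := PP) h8 (by finiteness)
  simp only [hpk] at h7 h5 ⊢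
  linarith

/-- convolution lower bound -/
lemma conv_lb {X Z : Om → ℝ} (hX : Measurable X) (hZ : Measurable Z) (hi : IndepFun X Z PP) {E F : Set ℝ}
    (hE : MeasurableSet E) (hF : MeasurableSet F) {p : ℝ} (hp : 0 ≤ p)
    (h : ∀ z ∈ F, p ≤ PP.real {ω | X ω + z ∈ E}) :
    p * PP.real {ω | Z ω ∈ F} ≤ PP.real {ω | X ω + Z ω ∈ E} := by
  have h1 := (indepFun_iff_map_prod_eq_prod_map_map hX.aemeasurable hZ.aemeasurable).mp hi
  set B : Set (ℝ × ℝ) := {x | x.1 + x.2 ∈ E} with hB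
  have hBm : MeasurableSet B := (measurable_fst.add measurable_snd) hE
  have e1 : PP {ω | X ω + Z ω ∈ E} = ((PP.map X).prod (PP.map Z)) B := by
    rw [← h1, Measure.map_apply (hX.prodMk hZ) hBm]
    rfl
  haveI : IsProbabilityMeasure (PP.map X) := Measure.isProbabilityMeasure_map hX.aemeasurable
  haveI : IsProbabilityMeasure (PP.map Z) := Measure.isProbabilityMeasure_map hZ.aemeasurable
  have e2 : ENNReal.ofReal (p * PP.real {ω | Z ω ∈ F}) ≤ PP {ω | X ω + Z ω ∈ E} := by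
    rw [e1, Measure.prod_apply_symm hBm]
    calc ENNReal.ofReal (p * PP.real {ω | Z ω ∈ F}) = ∫⁻ z in F, ENNReal.ofReal p ∂(PP.map Z) := by
          rw [lintegral_const, Measure.restrict_apply MeasurableSet.univ, Set.univ_inter, Measure.map_apply hZ hF,
            ENNReal.ofReal_mul hp, measureReal_def, ENNReal.ofReal_toReal (measure_ne_top _ _)]
          rfl
      _ ≤ ∫⁻ z in F, (PP.map X) ((fun x => (x, z)) ⁻¹' B) ∂(PP.map Z) := by
          apply setLIntegral_mono' hF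
          intro z hz
          have h2 := h z hz
          have h3 : (PP.map X) ((fun x => (x, z)) ⁻¹' B) = PP {ω | X ω + z ∈ E} := by
            rw [Measure.map_apply hX (measurable_prodMk_right hBm)]
            rfl
          rw [h3]
          rw [measureReal_def] at h2
          exact ENNReal.ofReal_le_of_le_toReal h2
      _ ≤ ∫⁻ z, (PP.map X) ((fun x => (x, z)) ⁻¹' B) ∂(PP.map Z) := setLIntegral_le_lintegral _ _
  have h4 := ENNReal.toReal_mono (measure_ne_top _ _) e2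
  rwa [ENNReal.toReal_ofReal (by positivity)] at h4

end Pool.Agent.NH96.SG
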