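import Mathlib
import Pool.Agent.NH96.SG.Low

/-! Lower bound for the law of the sum over all classes outside a block. -/

open MeasureTheory ProbabilityTheory Filter Topology

namespace Pool.Agent.NH96.SG

variable {c : ℕ → ℂ} {C c1 : ℝ}

/-- the block of classes -/
def BB (i : ℕ) : Set ℕ := {q | q.Prime ∧ q % 4 = 1 ∧ Nat.log 2 q = 2 * i}

/-- the remaining classes -/
def RR (i : ℕ) : Set ℕ := ((BB i)ᶜ \ SS 1) \ SS 3

lemma Y_union {S S' : Set ℕ} (hd : Disjoint S S') (M : ℕ) (c : ℕ → ℂ) (ω : Om) :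
    Y (Tc (S ∪ S') M) c ω = Y (Tc S M) c ω + Y (Tc S' M) c ω := by
  classical
  unfold Y
  rw [← Finset.sum_union]
  · apply Finset.sum_congr _ (fun _ _ => rfl)
    ext m
    rw [Finset.mem_union, Tc_mem, Tc_mem, Tc_mem, Set.mem_union]
    tauto
  · rw [Finset.disjoint_left]
    intro m hm hm'
    rw [Tc_mem] at hm hm'
    exact Set.disjoint_left.mp hd hm.2 hm'.2

lemma SS_sub (i : ℕ) : SS 1 ⊆ (BB i)ᶜ ∧ SS 3 ⊆ (BB i)ᶜ \ SS 1 := by
  refine ⟨fun q hq hB => ?_, fun q hq => ⟨fun hB => ?_, fun h1 => ?_⟩⟩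
  · have h1 := hq.2.2; have h2 := hB.2.2; rw [h2] at h1; omega
  · have h1 := hq.2.2; have h2 := hB.2.2; rw [h2] at h1; omega
  · have h2 := hq.2.2; have h3 := h1.2.2; omega

lemma Y_decomp (i M : ℕ) (c : ℕ → ℂ) (ω : Om) :
    Y (Tc (BB i)ᶜ M) c ω = Y (Tc (SS 1) M) c ω + (Y (Tc (SS 3) M) c ω + Y (Tc (RR i) M) c ω) := by
  have h1 := (SS_sub i).1
  have h2 := (SS_sub i).2
  have e1 : (BB i)ᶜ = SS 1 ∪ (SS 3 ∪ RR i) := by
    have e2 : SS 3 ∪ RR i = (BB i)ᶜ \ SS 1 := Set.union_sdiff_cancel h2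
    rw [e2, Set.union_sdiff_cancel h1]
  rw [e1, Y_union, Y_union]
  · rw [Set.disjoint_left]; intro q hq hq'; exact hq'.2 hq
  · rw [Set.disjoint_left]
    intro q hq hq'
    rcases hq' with h | h
    · exact (h2 h).2 hq
    · exact h.1.2 hq

lemma cls_disj {S S' : Set ℕ} (hd : Disjoint S S') {M M' : ℕ} : ∀ m ∈ Tc S M, ∀ m' ∈ Tc S' M', qq m ≠ qq m' := by
  intro m hm m' hm' h
  rw [Tc_mem] at hm hm'
  rw [h] at hm
  exact Set.disjoint_left.mp hd hm.2 hm'.2

lemma var_le (hc : CB c C c1) {S : Set ℕ} {M : ℕ} : ∫ ω, (Y (Tc S M) c ω)^2 ∂PP ≤ (∑' m, ‖c m‖^2) / 2 := by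
  rw [int_Y_sq Tc_pos]
  have := (sq_summable hc).sum_le_tsum (Tc S M) (fun _ _ => sq_nonneg _)
  linarith

/-- lower bound for the law of the sum over the classes outside a block, uniform in the block -/
theorem lsA (hc : CB c C c1) {V : ℝ} (hV : 0 < V) : ∃ p : ℝ, 0 < p ∧ ∀ i : ℕ, ∀ δ : ℝ, 0 < δ → ∃ M0 : ℕ, ∀ M : ℕ, M0 ≤ M →
    ∀ s t : ℝ, -V ≤ s → t ≤ V →
      p * (t - s - δ) ≤ PP.real {ω | s < Y (Tc (BB i)ᶜ M) c ω ∧ Y (Tc (BB i)ᶜ M) c ω < t} := by
  obtain ⟨x0, r1, p1, hr1, hp1, hls1⟩ := ls1 hc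
  obtain ⟨V0, hV0⟩ : ∃ V0, V0 = (∑' m, ‖c m‖^2) := ⟨_, rfl⟩
  have hV00 : 0 ≤ V0 := by rw [hV0]; exact tsum_nonneg (fun _ => sq_nonneg _)
  obtain ⟨V1, hV1⟩ : ∃ V1, V1 = √V0 + 1 := ⟨_, rfl⟩
  have hV1pos : 0 < V1 := by rw [hV1]; positivity
  have hV1sq : V0 ≤ V1^2 := by
    rw [hV1]
    have := Real.sq_sqrt hV00
    nlinarith [Real.sqrt_nonneg V0]
  obtain ⟨W, hW⟩ : ∃ W, W = V + |x0| + V1 := ⟨_, rfl⟩
  have hW0 : 0 < W := by rw [hW]; positivity
  obtain ⟨p2, hp2, M2, hls2⟩ := ls2 hc hW0 (show 0 < r1/2 by positivity)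
  obtain ⟨κ, hκ⟩ : ∃ κ, κ = r1 / (2 * (V + r1)) := ⟨_, rfl⟩
  have hκ0 : 0 < κ := by rw [hκ]; positivity
  have hκ1 : κ ≤ 1 := by
    rw [hκ, div_le_one (by positivity)]; linarith
  refine ⟨p1 * (p2 / 2) * κ, by positivity, fun i δ hδ => ?_⟩
  obtain ⟨M1, hM1⟩ := hls1 (κ * δ) (by positivity)
  refine ⟨max M1 M2, fun M hM s t hs ht => ?_⟩
  set S1 := Y (Tc (SS 1) M) c with hS1
  set S3 := Y (Tc (SS 3) M) c with hS3
  set R := Y (Tc (RR i) M) c with hR
  have hdec : ∀ ω, Y (Tc (BB i)ᶜ M) c ω = S1 ω + (S3 ω + R ω) := fun ω => Y_decomp i M c ω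
  simp only [hdec]
  have mS1 : Measurable S1 := (Y_cont _ _).measurable
  have mS3 : Measurable S3 := (Y_cont _ _).measurable
  have mR : Measurable R := (Y_cont _ _).measurable
  -- independence
  have i3R : IndepFun S3 R PP := by
    apply Y_indep
    apply cls_disj
    rw [Set.disjoint_left]; intro q hq hq'; exact hq'.2 hq
  have hsum3R : (fun ω => S3 ω + R ω) = Y (Tc (SS 3 ∪ RR i) M) c := by
    funext ω
    rw [Y_union]
    rw [Set.disjoint_left]; intro q hq hq'; exact hq'.2 hq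
  have i1 : IndepFun S1 (fun ω => S3 ω + R ω) PP := by
    rw [hsum3R]
    apply Y_indep
    apply cls_disj
    rw [Set.disjoint_left]
    intro q hq hq'
    rcases hq' with h | h
    · exact ((SS_sub i).2 h).2 hq
    · exact h.1.2 hq
  -- the law of the rest is tight
  have hR2 : 1/2 ≤ PP.real {ω | R ω ∈ Set.Icc (-V1) V1} := by
    have h1 := cheb (f := R) (memLp_cont (Y_cont _ _)) hV1pos
    have h2 : ∫ ω, (R ω)^2 ∂PP ≤ V0 / 2 := by rw [hV0]; exact var_le hc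
    have h3 : (∫ ω, (R ω)^2 ∂PP) / V1^2 ≤ 1/2 := by
      rw [div_le_iff₀ (by positivity)]
      linarith
    have h4 : {ω | V1 ≤ |R ω|}ᶜ ⊆ {ω | R ω ∈ Set.Icc (-V1) V1} := by
      intro ω hω
      simp only [Set.mem_compl_iff, Set.mem_ofPred_eq, not_le] at hω
      rw [abs_lt] at hω
      exact ⟨hω.1.le, hω.2.le⟩
    have h5 := measureReal_mono (μ := PP) h4 (by finiteness)
    have h6 : PP.real {ω | V1 ≤ |R ω|}ᶜ = 1 - PP.real {ω | V1 ≤ |R ω|} := by
      rw [probReal_compl_eq_one_sub (measurableSet_le measurable_const mR.abs)]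
    linarith
  -- law of S3 + R
  have h3R : ∀ x : ℝ, |x| ≤ V + |x0| → p2 / 2 ≤ PP.real {ω | S3 ω + R ω ∈ Set.Ioo (x - r1/2) (x + r1/2)} := by
    intro x hx
    have h1 := conv_lb mS3 mR i3R (E := Set.Ioo (x - r1/2) (x + r1/2)) (F := Set.Icc (-V1) V1) measurableSet_Ioo
      measurableSet_Icc hp2.le (by
        intro z hz
        have h2 := hls2 M ((le_max_right _ _).trans hM) (x - z) (by
          rw [hW, abs_le]
          rw [abs_le] at hx
          constructor <;> linarith [hz.1, hz.2, hx.1, hx.2])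
        refine h2.trans (le_of_eq ?_)
        congr 1
        ext ω
        simp only [Set.mem_ofPred_eq, Set.mem_Ioo]
        constructor <;> rintro ⟨a, b⟩ <;> exact ⟨by linarith, by linarith⟩)
    calc p2 / 2 = p2 * (1/2) := by ring
      _ ≤ p2 * PP.real {ω | R ω ∈ Set.Icc (-V1) V1} := by gcongr
      _ ≤ _ := h1
  -- short intervals
  have hshort : ∀ s t : ℝ, -V ≤ s → t ≤ V → 0 ≤ t - s - κ * δ → t - s ≤ r1 →
      p1 * (p2/2) * (t - s - κ * δ) ≤ PP.real {ω | s < S1 ω + (S3 ω + R ω) ∧ S1 ω + (S3 ω + R ω) < t} := by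
    intro s t hs ht h0 h1
    have hmid : |(s+t)/2 - x0| ≤ V + |x0| := by
      have hst : s ≤ t := by nlinarith
      have h2 : |(s+t)/2| ≤ V := by
        rw [abs_le]; constructor <;> linarith
      exact (abs_sub _ _).trans (by linarith)
    have h2 := h3R _ hmid
    have h3 := conv_lb mS1 (mS3.add mR) i1 (E := Set.Ioo s t)
      (F := Set.Ioo ((s+t)/2 - x0 - r1/2) ((s+t)/2 - x0 + r1/2)) measurableSet_Ioo measurableSet_Ioo
      (p := p1 * (t - s - κ * δ)) (by positivity) (by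
        intro z hz
        have h4 := hM1 M ((le_max_left _ _).trans hM) (s - z) (t - z) (by linarith [hz.2]) (by linarith [hz.1])
        have e : t - z - (s - z) - κ * δ = t - s - κ * δ := by ring
        rw [e] at h4
        refine h4.trans (le_of_eq ?_)
        congr 1
        ext ω
        simp only [Set.mem_ofPred_eq, Set.mem_Ioo, hS1]
        constructor <;> rintro ⟨a, b⟩ <;> exact ⟨by linarith, by linarith⟩)
    calc p1 * (p2/2) * (t - s - κ * δ) = p1 * (t - s - κ * δ) * (p2/2) := by ring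
      _ ≤ p1 * (t - s - κ * δ) * PP.real {ω | S3 ω + R ω ∈ Set.Ioo ((s+t)/2 - x0 - r1/2) ((s+t)/2 - x0 + r1/2)} := by
          have : 0 ≤ p1 * (t - s - κ * δ) := by positivity
          gcongr
      _ ≤ _ := h3
  by_cases hts : t - s - δ ≤ 0
  · refine le_trans ?_ measureReal_nonneg
    have : 0 < p1 * (p2 / 2) * κ := by positivity
    nlinarith
  push Not at hts
  have hκδ : κ * δ ≤ δ := by nlinarith
  by_cases hcase : t - s ≤ r1
  · refine le_trans ?_ (hshort s t hs ht (by linarith) hcase)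
    have h1 : 0 < p1 * (p2/2) := by positivity
    have h2 : κ * (t - s - δ) ≤ t - s - κ * δ := by nlinarith
    calc p1 * (p2 / 2) * κ * (t - s - δ) = p1 * (p2/2) * (κ * (t - s - δ)) := by ring
      _ ≤ p1 * (p2/2) * (t - s - κ * δ) := by gcongr
  · push Not at hcase
    have h2V : t - s ≤ 2 * V := by linarith
    have hκV : κ * (2 * V) ≤ r1 := by
      rw [hκ, div_mul_eq_mul_div, div_le_iff₀ (by positivity)]
      nlinarith
    have h5 : κ * (t - s - δ) ≤ r1 - κ * δ := by nlinarith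
    have h0 : 0 ≤ κ * (t - s - δ) := by positivity
    have h6 := hshort s (s + r1) hs (by linarith) (by linarith) (by linarith)
    have h7 : {ω | s < S1 ω + (S3 ω + R ω) ∧ S1 ω + (S3 ω + R ω) < s + r1} ⊆
        {ω | s < S1 ω + (S3 ω + R ω) ∧ S1 ω + (S3 ω + R ω) < t} := by
      intro ω hω
      exact ⟨hω.1, by linarith [hω.2]⟩
    have h8 := measureReal_mono (μ := PP) h7 (by finiteness)
    have e : s + r1 - s - κ * δ = r1 - κ * δ := by ring
    rw [e] at h6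
    calc p1 * (p2 / 2) * κ * (t - s - δ) = p1 * (p2/2) * (κ * (t - s - δ)) := by ring
      _ ≤ p1 * (p2/2) * (r1 - κ * δ) := by gcongr
      _ ≤ _ := h6.trans h8

end Pool.Agent.NH96.SG
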