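import Mathlib
import Pool.Agent.NH96.SG.LowA

/-! The crossing inequality. -/

open MeasureTheory ProbabilityTheory Filter Topology

namespace Pool.Agent.NH96.SG

/-- conditioning on an independent variable -/
lemma real_indep {α β : Type*} [MeasurableSpace α] [MeasurableSpace β] {X : Om → α} {Z : Om → β}
    (hX : Measurable X) (hZ : Measurable Z) (hi : IndepFun X Z PP) {B : Set (α × β)} (hB : MeasurableSet B) :
    Measurable (fun ω => PP.real {ω' | (X ω, Z ω') ∈ B}) ∧
    PP.real {ω | (X ω, Z ω) ∈ B} = ∫ ω, PP.real {ω' | (X ω, Z ω') ∈ B} ∂PP := by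
  have : IsProbabilityMeasure (PP.map X) := Measure.isProbabilityMeasure_map hX.aemeasurable
  have : IsProbabilityMeasure (PP.map Z) := Measure.isProbabilityMeasure_map hZ.aemeasurable
  have h1 := (indepFun_iff_map_prod_eq_prod_map_map hX.aemeasurable hZ.aemeasurable).mp hi
  have e1 : PP {ω | (X ω, Z ω) ∈ B} = ((PP.map X).prod (PP.map Z)) B := by
    rw [← h1, Measure.map_apply (hX.prodMk hZ) hB]
    rfl
  have e2 : ∀ x : α, (PP.map Z) (Prod.mk x ⁻¹' B) = PP {ω' | (x, Z ω') ∈ B} := by
    intro x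
    rw [Measure.map_apply hZ (measurable_prodMk_left hB)]
    rfl
  have hmeas : Measurable (fun x : α => PP {ω' | (x, Z ω') ∈ B}) := by
    have := measurable_measure_prodMk_left (ν := PP.map Z) hB
    simp only [e2] at this
    exact this
  have e3 : PP {ω | (X ω, Z ω) ∈ B} = ∫⁻ ω, PP {ω' | (X ω, Z ω') ∈ B} ∂PP := by
    rw [e1, Measure.prod_apply hB]
    simp only [e2]
    rw [lintegral_map hmeas hX]
  refine ⟨(hmeas.comp hX).ennreal_toReal, ?_⟩
  rw [measureReal_def, e3]
  exact (integral_toReal (μ := PP) (f := fun ω => PP {ω' | (X ω, Z ω') ∈ B}) (hmeas.comp hX).aemeasurable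
    (Eventually.of_forall (fun ω => measure_lt_top _ _))).symm

/-- the crossing inequality -/
theorem crossing {A0 A1 b0 b1 : Om → ℝ} (mA0 : Measurable A0) (mA1 : Measurable A1) (mb0 : Measurable b0) (mb1 : Measurable b1)
    (lb0 : MemLp b0 2 PP) (lb1 : MemLp b1 2 PP)
    (hi : IndepFun (fun ω => (b0 ω, b1 ω)) (fun ω => (A0 ω, A1 ω)) PP) (hid : PP.map A0 = PP.map A1)
    {p V δ η v l : ℝ} (hp : 0 < p) (hl : 0 < l) (hη : 0 ≤ η)
    (hlb : ∀ s t : ℝ, -V ≤ s → t ≤ V → p * (t - s - δ) ≤ PP.real {ω | s < A0 ω ∧ A0 ω < t})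
    (hv : |v| + η ≤ V/2) :
    p * (∫ ω, |b1 ω - b0 ω| ∂PP - 2 * η - δ - (l * ∫ ω, (b1 ω - b0 ω)^2 ∂PP + PP.real {ω | V/2 < |b0 ω| ∨ V/2 < |b1 ω|} / l))
      ≤ PP.real {ω | b0 ω + A0 ω < v - η ∧ v + η < b1 ω + A1 ω} +
        PP.real {ω | v + η < b0 ω + A0 ω ∧ b1 ω + A1 ω < v - η} := by
  set Bu : Set ((ℝ × ℝ) × (ℝ × ℝ)) := {x | x.1.1 + x.2.1 < v - η ∧ v + η < x.1.2 + x.2.2} with hBu
  set Bd : Set ((ℝ × ℝ) × (ℝ × ℝ)) := {x | v + η < x.1.1 + x.2.1 ∧ x.1.2 + x.2.2 < v - η} with hBd
  have f1 : Measurable (fun x : (ℝ × ℝ) × (ℝ × ℝ) => x.1.1 + x.2.1) := by fun_prop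
  have f2 : Measurable (fun x : (ℝ × ℝ) × (ℝ × ℝ) => x.1.2 + x.2.2) := by fun_prop
  have mBu : MeasurableSet Bu :=
    (measurableSet_lt f1 measurable_const).inter (measurableSet_lt measurable_const f2)
  have mBd : MeasurableSet Bd :=
    (measurableSet_lt measurable_const f1).inter (measurableSet_lt f2 measurable_const)
  obtain ⟨mu, hu⟩ := real_indep (mb0.prodMk mb1) (mA0.prodMk mA1) hi mBu
  obtain ⟨md, hd⟩ := real_indep (mb0.prodMk mb1) (mA0.prodMk mA1) hi mBd
  have eu : {ω | b0 ω + A0 ω < v - η ∧ v + η < b1 ω + A1 ω} = {ω | ((b0 ω, b1 ω), (A0 ω, A1 ω)) ∈ Bu} := rfl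
  have ed : {ω | v + η < b0 ω + A0 ω ∧ b1 ω + A1 ω < v - η} = {ω | ((b0 ω, b1 ω), (A0 ω, A1 ω)) ∈ Bd} := rfl
  rw [eu, ed, hu, hd]
  set bad : Set Om := {ω | V/2 < |b0 ω| ∨ V/2 < |b1 ω|} with hbad
  have mbad : MeasurableSet bad :=
    (measurableSet_lt measurable_const mb0.abs).union (measurableSet_lt measurable_const mb1.abs)
  -- the same law
  have hle : ∀ w : ℝ, PP.real {ω | A1 ω ≤ w} = PP.real {ω | A0 ω ≤ w} := by
    intro w
    have h1 : PP {ω | A1 ω ≤ w} = (PP.map A1) (Set.Iic w) := (Measure.map_apply mA1 measurableSet_Iic).symm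
    have h2 : PP {ω | A0 ω ≤ w} = (PP.map A0) (Set.Iic w) := (Measure.map_apply mA0 measurableSet_Iic).symm
    rw [measureReal_def, measureReal_def, h1, h2, hid]
  have hlt : ∀ w : ℝ, PP.real {ω | A1 ω < w} = PP.real {ω | A0 ω < w} := by
    intro w
    have h1 : PP {ω | A1 ω < w} = (PP.map A1) (Set.Iio w) := (Measure.map_apply mA1 measurableSet_Iio).symm
    have h2 : PP {ω | A0 ω < w} = (PP.map A0) (Set.Iio w) := (Measure.map_apply mA0 measurableSet_Iio).symm
    rw [measureReal_def, measureReal_def, h1, h2, hid]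
  -- pointwise bound
  have hpt : ∀ ω, p * (|b1 ω - b0 ω| - 2 * η - δ - (l * (b1 ω - b0 ω)^2 + bad.indicator (fun _ => 1/l) ω)) ≤
      PP.real {ω' | ((b0 ω, b1 ω), (A0 ω', A1 ω')) ∈ Bu} + PP.real {ω' | ((b0 ω, b1 ω), (A0 ω', A1 ω')) ∈ Bd} := by
    intro ω
    by_cases hω : ω ∈ bad
    · have h0 : |b1 ω - b0 ω| - (l * (b1 ω - b0 ω)^2 + 1/l) ≤ 0 := by
        have h1 : 0 ≤ l * (|b1 ω - b0 ω| - 1/(2*l))^2 := by positivity
        have h2 : l * (|b1 ω - b0 ω| - 1/(2*l))^2 = l * (b1 ω - b0 ω)^2 - |b1 ω - b0 ω| + 1/(4*l) := by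
          rw [sub_sq, sq_abs]; field_simp; ring
        have h3 : 1/(4*l) ≤ 1/l := by
          apply one_div_le_one_div_of_le hl; linarith
        linarith
      have h4 : 0 ≤ PP.real {ω' | ((b0 ω, b1 ω), (A0 ω', A1 ω')) ∈ Bu} + PP.real {ω' | ((b0 ω, b1 ω), (A0 ω', A1 ω')) ∈ Bd} :=
        add_nonneg measureReal_nonneg measureReal_nonneg
      refine le_trans ?_ h4
      rw [Set.indicator_of_mem hω]
      have hδ : 0 ≤ δ ∨ δ < 0 := le_or_gt 0 δ
      have hδ0 : 0 ≤ δ := by
        -- from the lower bound with a degenerate interval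
        have h5 := hlb (-V) (-V) le_rfl (by
          have := abs_nonneg v
          linarith)
        have h6 : {ω | -V < A0 ω ∧ A0 ω < -V} = ∅ := by
          ext ω; simp only [Set.mem_ofPred_eq, Set.mem_empty_iff_false, iff_false]
          rintro ⟨a, b⟩; linarith
        rw [h6, measureReal_empty] at h5
        by_contra hcon
        push Not at hcon
        nlinarith
      have : |b1 ω - b0 ω| - 2 * η - δ - (l * (b1 ω - b0 ω)^2 + 1/l) ≤ 0 := by linarith
      nlinarith
    · rw [Set.indicator_of_notMem hω, add_zero]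
      have hl2 : 0 ≤ l * (b1 ω - b0 ω)^2 := by positivity
      simp only [hbad, Set.mem_ofPred_eq, not_or, not_lt] at hω
      have hx0 := abs_le.mp hω.1
      have hx1 := abs_le.mp hω.2
      have hvv := abs_le.mp (le_refl |v|)
      rcases le_total (b0 ω) (b1 ω) with hcmp | hcmp
      · -- up
        have h1 : p * ((v - η - b0 ω) - (v + η - b1 ω) - δ) ≤ PP.real {ω' | ((b0 ω, b1 ω), (A0 ω', A1 ω')) ∈ Bu} := by
          have h2 := hlb (v + η - b1 ω) (v - η - b0 ω) (by linarith) (by linarith)
          refine h2.trans ?_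
          -- P(w < A0 < u) ≤ P(A0 < u) - P(A0 ≤ w) = P(A0<u) - P(A1 ≤ w) ≤ P(A0 < u, A1 > w)
          by_cases hwu : v + η - b1 ω < v - η - b0 ω
          · have h3 : PP.real {ω' | A0 ω' < v - η - b0 ω} = PP.real {ω' | v + η - b1 ω < A0 ω' ∧ A0 ω' < v - η - b0 ω} +
                PP.real {ω' | A0 ω' ≤ v + η - b1 ω} := by
              rw [← measureReal_union]
              · congr 1
                ext ω'
                simp only [Set.mem_ofPred_eq, Set.mem_union]
                constructor
                · intro h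
                  rcases lt_or_ge (v + η - b1 ω) (A0 ω') with h' | h'
                  · exact Or.inl ⟨h', h⟩
                  · exact Or.inr h'
                · rintro (h | h)
                  · exact h.2
                  · exact lt_of_le_of_lt h hwu
              · rw [Set.disjoint_left]
                rintro ω' ⟨a, _⟩ b
                simp only [Set.mem_ofPred_eq] at b
                linarith
              · exact measurableSet_le mA0 measurable_const
            have h4 : {ω' | A0 ω' < v - η - b0 ω} ⊆ {ω' | ((b0 ω, b1 ω), (A0 ω', A1 ω')) ∈ Bu} ∪ {ω' | A1 ω' ≤ v + η - b1 ω} := by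
              intro ω' h
              simp only [Set.mem_ofPred_eq] at h
              simp only [hBu, Set.mem_union, Set.mem_ofPred_eq]
              rcases lt_or_ge (v + η - b1 ω) (A1 ω') with h' | h'
              · exact Or.inl ⟨by linarith, by linarith⟩
              · exact Or.inr h'
            have h5 := measureReal_mono (μ := PP) h4 (by finiteness)
            have h6 := measureReal_union_le (μ := PP) {ω' | ((b0 ω, b1 ω), (A0 ω', A1 ω')) ∈ Bu} {ω' | A1 ω' ≤ v + η - b1 ω}
            rw [hle] at h6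
            linarith
          · have h3 : {ω' | v + η - b1 ω < A0 ω' ∧ A0 ω' < v - η - b0 ω} = ∅ := by
              ext ω'
              simp only [Set.mem_ofPred_eq, Set.mem_empty_iff_false, iff_false]
              rintro ⟨a, b⟩; linarith
            rw [h3, measureReal_empty]
            exact measureReal_nonneg
        have h7 : |b1 ω - b0 ω| = b1 ω - b0 ω := abs_of_nonneg (by linarith)
        rw [h7]
        have h8 : 0 ≤ PP.real {ω' | ((b0 ω, b1 ω), (A0 ω', A1 ω')) ∈ Bd} := measureReal_nonneg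
        have h9 : p * (b1 ω - b0 ω - 2 * η - δ - l * (b1 ω - b0 ω)^2) ≤ p * ((v - η - b0 ω) - (v + η - b1 ω) - δ) := by
          apply mul_le_mul_of_nonneg_left _ hp.le
          linarith
        linarith
      · -- down
        have h1 : p * ((v - η - b1 ω) - (v + η - b0 ω) - δ) ≤ PP.real {ω' | ((b0 ω, b1 ω), (A0 ω', A1 ω')) ∈ Bd} := by
          have h2 := hlb (v + η - b0 ω) (v - η - b1 ω) (by linarith) (by linarith)
          refine h2.trans ?_
          by_cases hwu : v + η - b0 ω < v - η - b1 ω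
          · have h3 : PP.real {ω' | A0 ω' < v - η - b1 ω} = PP.real {ω' | v + η - b0 ω < A0 ω' ∧ A0 ω' < v - η - b1 ω} +
                PP.real {ω' | A0 ω' ≤ v + η - b0 ω} := by
              rw [← measureReal_union]
              · congr 1
                ext ω'
                simp only [Set.mem_ofPred_eq, Set.mem_union]
                constructor
                · intro h
                  rcases lt_or_ge (v + η - b0 ω) (A0 ω') with h' | h'
                  · exact Or.inl ⟨h', h⟩
                  · exact Or.inr h'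
                · rintro (h | h)
                  · exact h.2
                  · exact lt_of_le_of_lt h hwu
              · rw [Set.disjoint_left]
                rintro ω' ⟨a, _⟩ b
                simp only [Set.mem_ofPred_eq] at b
                linarith
              · exact measurableSet_le mA0 measurable_const
            have h4 : {ω' | A1 ω' < v - η - b1 ω} ⊆ {ω' | ((b0 ω, b1 ω), (A0 ω', A1 ω')) ∈ Bd} ∪ {ω' | A0 ω' ≤ v + η - b0 ω} := by
              intro ω' h
              simp only [Set.mem_ofPred_eq] at h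
              simp only [hBd, Set.mem_union, Set.mem_ofPred_eq]
              rcases lt_or_ge (v + η - b0 ω) (A0 ω') with h' | h'
              · exact Or.inl ⟨by linarith, by linarith⟩
              · exact Or.inr h'
            have h5 := measureReal_mono (μ := PP) h4 (by finiteness)
            have h6 := measureReal_union_le (μ := PP) {ω' | ((b0 ω, b1 ω), (A0 ω', A1 ω')) ∈ Bd} {ω' | A0 ω' ≤ v + η - b0 ω}
            rw [hlt] at h5
            linarith
          · have h3 : {ω' | v + η - b0 ω < A0 ω' ∧ A0 ω' < v - η - b1 ω} = ∅ := by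
              ext ω'
              simp only [Set.mem_ofPred_eq, Set.mem_empty_iff_false, iff_false]
              rintro ⟨a, b⟩; linarith
            rw [h3, measureReal_empty]
            exact measureReal_nonneg
        have h7 : |b1 ω - b0 ω| = b0 ω - b1 ω := by rw [abs_sub_comm]; exact abs_of_nonneg (by linarith)
        rw [h7]
        have h8 : 0 ≤ PP.real {ω' | ((b0 ω, b1 ω), (A0 ω', A1 ω')) ∈ Bu} := measureReal_nonneg
        have h9 : p * (b0 ω - b1 ω - 2 * η - δ - l * (b1 ω - b0 ω)^2) ≤ p * ((v - η - b1 ω) - (v + η - b0 ω) - δ) := by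
          apply mul_le_mul_of_nonneg_left _ hp.le
          linarith
        linarith
  -- integrate
  have hD : MemLp (fun ω => b1 ω - b0 ω) 2 PP := lb1.sub lb0
  have iD : Integrable (fun ω => |b1 ω - b0 ω|) PP := (hD.integrable one_le_two).abs
  have iD2 : Integrable (fun ω => (b1 ω - b0 ω)^2) PP := hD.integrable_sq
  have iI : Integrable (bad.indicator (fun _ => 1/l)) PP := (integrable_const (1/l)).indicator mbad
  have ibd : ∀ (B : Set ((ℝ × ℝ) × (ℝ × ℝ))), Measurable (fun ω => PP.real {ω' | ((b0 ω, b1 ω), (A0 ω', A1 ω')) ∈ B}) →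
      Integrable (fun ω => PP.real {ω' | ((b0 ω, b1 ω), (A0 ω', A1 ω')) ∈ B}) PP := by
    intro B hB
    apply Integrable.of_bound hB.aestronglyMeasurable 1
    refine Eventually.of_forall (fun ω => ?_)
    rw [Real.norm_eq_abs, abs_of_nonneg measureReal_nonneg]
    exact measureReal_le_one
  rw [← integral_add (ibd Bu mu) (ibd Bd md)]
  have e1 : ∫ ω, p * (|b1 ω - b0 ω| - 2 * η - δ - (l * (b1 ω - b0 ω)^2 + bad.indicator (fun _ => 1/l) ω)) ∂PP =
      p * (∫ ω, |b1 ω - b0 ω| ∂PP - 2 * η - δ - (l * ∫ ω, (b1 ω - b0 ω)^2 ∂PP + PP.real bad / l)) := by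
    have i1 : Integrable (fun ω => |b1 ω - b0 ω| - 2 * η) PP := iD.sub (integrable_const _)
    have i2 : Integrable (fun ω => |b1 ω - b0 ω| - 2 * η - δ) PP := i1.sub (integrable_const _)
    have i3 : Integrable (fun ω => l * (b1 ω - b0 ω)^2) PP := iD2.const_mul l
    have i4 : Integrable (fun ω => l * (b1 ω - b0 ω)^2 + bad.indicator (fun _ => 1/l) ω) PP := i3.add iI
    rw [integral_const_mul, integral_sub i2 i4, integral_sub i1 (integrable_const _), integral_sub iD (integrable_const _),
      integral_add i3 iI, integral_const_mul l, integral_indicator_const _ mbad, integral_const, integral_const]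
    simp only [probReal_univ, one_smul, smul_eq_mul]
    ring
  rw [← e1]
  apply integral_mono _ ((ibd Bu mu).add (ibd Bd md)) hpt
  have i1 : Integrable (fun ω => |b1 ω - b0 ω| - 2 * η) PP := iD.sub (integrable_const _)
  have i2 : Integrable (fun ω => |b1 ω - b0 ω| - 2 * η - δ) PP := i1.sub (integrable_const _)
  have i3 : Integrable (fun ω => l * (b1 ω - b0 ω)^2) PP := iD2.const_mul l
  have i4 : Integrable (fun ω => l * (b1 ω - b0 ω)^2 + bad.indicator (fun _ => 1/l) ω) PP := i3.add iI
  exact (i2.sub i4).const_mul p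

end Pool.Agent.NH96.SG
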