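import Mathlib
import Pool.Agent.NH96.SG.Cross

/-! The model theorem: level crossings at small scale. -/

open MeasureTheory ProbabilityTheory Filter Topology
open Pool.Agent.H383.Rich

namespace Pool.Agent.NH96.SG

variable {c : ℕ → ℂ} {C c1 : ℝ}

/-- the coefficients at time `X` -/
noncomputable def cX (c : ℕ → ℂ) (X : ℝ) (m : ℕ) : ℂ := c m * Complex.exp (((2 * Real.pi * (X * √(m:ℝ)) : ℝ) : ℂ) * Complex.I)

/-- the translation by time `X` -/
noncomputable def sh (X : ℝ) : Om := fun q => ((X * √(q:ℝ) : ℝ) : UnitAddCircle)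

lemma norm_cX (c : ℕ → ℂ) (X : ℝ) (m : ℕ) : ‖cX c X m‖ = ‖c m‖ := by
  unfold cX
  rw [norm_mul, Complex.norm_exp_ofReal_mul_I, mul_one]

lemma ch_sh (m : ℕ) (X : ℝ) : ch m (sh X) = Complex.exp (((2 * Real.pi * (X * √(m:ℝ)) : ℝ) : ℂ) * Complex.I) := by
  unfold ch sh
  rw [fourier_coe_apply, sqrt_eq m]
  congr 1
  push_cast
  ring

lemma Y_shift (T : Finset ℕ) (c : ℕ → ℂ) (X : ℝ) (ω : Om) : Y T (cX c X) ω = Y T c (ω + sh X) := by
  unfold Y
  apply Finset.sum_congr rfl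
  intro m _
  rw [ch_add, ch_sh]
  unfold cX
  congr 1
  ring

lemma law_shift (T : Finset ℕ) (c : ℕ → ℂ) (X : ℝ) : PP.map (Y T c) = PP.map (Y T (cX c X)) := by
  have e : Y T (cX c X) = (Y T c) ∘ (fun ω => ω + sh X) := by
    funext ω; exact Y_shift T c X ω
  rw [e, ← Measure.map_map (Y_cont T c).measurable (measurable_add_const _), PP_map_add]

lemma Y_sub (T : Finset ℕ) (c c' : ℕ → ℂ) (ω : Om) : Y T c ω - Y T c' ω = Y T (fun m => c m - c' m) ω := by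
  unfold Y
  rw [← Finset.sum_sub_distrib]
  apply Finset.sum_congr rfl
  intro m _
  rw [sub_mul, Complex.sub_re]

/-- lower bound for the first absolute moment -/
lemma absD {T : Finset ℕ} (hT : ∀ m ∈ T, 1 ≤ m) {c : ℕ → ℂ} {σ : ℝ} (hσ : 0 < σ) (hσ2 : ∫ ω, (Y T c ω)^2 ∂PP = σ^2)
    (hcond : ∀ q : ℕ, (8/(5*σ)) * ∑ m ∈ T.filter (fun m => qq m = q), ‖c m‖ ≤ 1) : σ/4 ≤ ∫ ω, |Y T c ω| ∂PP := by
  classical
  set t : ℝ := 8/(5*σ) with ht
  have ht0 : 0 < t := by positivity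
  have h1 := cf_Y (t := t) (c := c) (T.image qq) hT (fun q _ => by rw [abs_of_pos ht0]; exact hcond q)
  have h2 : T.filter (fun m => qq m ∈ T.image qq) = T := by
    rw [Finset.filter_true_of_mem]
    intro m hm; exact Finset.mem_image_of_mem _ hm
  have h3 : ∑ m ∈ T, ‖c m‖^2 = 2 * σ^2 := by
    rw [int_Y_sq hT] at hσ2; linarith
  have h1' : ‖cf (Y T c) t‖ ≤ Real.exp (-((5/36) * (t^2 * (2 * σ^2)))) := by
    have e : ∑ m ∈ T.filter (fun m => qq m ∈ T.image qq), ‖c m‖^2 = 2 * σ^2 := by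
      rw [h2, h3]
    refine h1.trans (le_of_eq ?_)
    congr 4
  have h4 : (5/36) * (t^2 * (2 * σ^2)) = 32/45 := by
    rw [ht]; field_simp; ring
  rw [h4] at h1'
  have h5 : Real.exp (-(32/45)) ≤ 1/2 := by
    have h6 : Real.exp (-(32/45)) ≤ Real.exp (-Real.log 2) := by
      apply Real.exp_le_exp.mpr
      have := Real.log_two_lt_d9
      linarith
    rw [Real.exp_neg (Real.log 2), Real.exp_log (by norm_num)] at h6
    linarith
  have h7 : ‖cf (Y T c) t - 1‖ ≤ t * ∫ ω, |Y T c ω| ∂PP := by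
    have hY := (Y_cont T c).measurable
    have h8 : cf (Y T c) t - 1 = ∫ ω, (Complex.exp (((t * Y T c ω : ℝ) : ℂ) * Complex.I) - 1) ∂PP := by
      rw [integral_sub (exp_int hY t) (integrable_const _)]
      simp [cf]
    rw [h8, ← integral_const_mul]
    refine (norm_integral_le_integral_norm _).trans ?_
    apply integral_mono_of_nonneg (Eventually.of_forall (fun ω => norm_nonneg _))
      ((integ_of_cont (Y_cont T c).abs).const_mul _)
    refine Eventually.of_forall (fun ω => ?_)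
    simp only
    have h9 := Real.norm_exp_I_mul_ofReal_sub_one_le (x := t * Y T c ω)
    rw [mul_comm Complex.I] at h9
    refine h9.trans (le_of_eq ?_)
    rw [Real.norm_eq_abs, abs_mul, abs_of_pos ht0]
  have h10 : (1:ℝ) ≤ ‖cf (Y T c) t‖ + ‖cf (Y T c) t - 1‖ := by
    have : ‖(1:ℂ)‖ ≤ ‖cf (Y T c) t‖ + ‖cf (Y T c) t - 1‖ := by
      calc ‖(1:ℂ)‖ = ‖cf (Y T c) t - (cf (Y T c) t - 1)‖ := by congr 1; ring
        _ ≤ _ := norm_sub_le _ _
    rwa [norm_one] at this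
  have h11 : 1/2 ≤ t * ∫ ω, |Y T c ω| ∂PP := by linarith
  have h12 : σ * (1/2) ≤ σ * (t * ∫ ω, |Y T c ω| ∂PP) := by gcongr
  have h13 : σ * (t * ∫ ω, |Y T c ω| ∂PP) = (8/5) * ∫ ω, |Y T c ω| ∂PP := by
    rw [ht]; field_simp
  rw [h13] at h12
  have h14 : 0 ≤ ∫ ω, |Y T c ω| ∂PP := integral_nonneg (fun _ => abs_nonneg _)
  linarith

lemma exp_sub_sq (θ : ℝ) : ‖Complex.exp ((θ : ℂ) * Complex.I) - 1‖^2 = 2 - 2 * Real.cos θ := by
  rw [← Complex.normSq_eq_norm_sq, Complex.normSq_apply]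
  simp only [Complex.sub_re, Complex.sub_im, Complex.one_re, Complex.one_im, Complex.exp_ofReal_mul_I_re,
    Complex.exp_ofReal_mul_I_im]
  have := Real.sin_sq_add_cos_sq θ
  nlinarith

lemma diff_lower {i q : ℕ} (h1 : (2:ℝ)^(2*i) < q) (h2 : (q:ℝ) ≤ 2 * 2^(2*i)) (c : ℕ → ℂ) :
    2 * ‖c q‖^2 ≤ ‖cX c (1/(4 * 2^i)) q - c q‖^2 := by
  have e : cX c (1/(4 * 2^i)) q - c q = c q * (Complex.exp (((2 * Real.pi * (1/(4 * 2^i) * √(q:ℝ)) : ℝ) : ℂ) * Complex.I) - 1) := by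
    unfold cX; ring
  rw [e, norm_mul, mul_pow, exp_sub_sq]
  have hcos : Real.cos (2 * Real.pi * (1/(4 * 2^i) * √(q:ℝ))) ≤ 0 := by
    have h2i : (0:ℝ) < 2^i := by positivity
    have hs1 : (2:ℝ)^i ≤ √(q:ℝ) := by
      apply Real.le_sqrt_of_sq_le
      rw [← pow_mul, mul_comm i 2]; exact h1.le
    have hs2 : √(q:ℝ) ≤ 3 * 2^i := by
      rw [Real.sqrt_le_left (by positivity)]
      have : (3 * (2:ℝ)^i)^2 = 9 * 2^(2*i) := by ring
      rw [this]
      have : (0:ℝ) < 2^(2*i) := by positivity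
      linarith
    have e2 : 2 * Real.pi * (1/(4 * 2^i) * √(q:ℝ)) = (Real.pi/2) * (√(q:ℝ) / 2^i) := by
      field_simp; ring
    have h3 : 1 ≤ √(q:ℝ) / 2^i := by rw [le_div_iff₀ h2i]; linarith
    have h4 : √(q:ℝ) / 2^i ≤ 3 := by rw [div_le_iff₀ h2i]; linarith
    have hpi := Real.pi_pos
    rw [e2]
    apply Real.cos_nonpos_of_pi_div_two_le_of_le
    · nlinarith
    · nlinarith
  nlinarith [sq_nonneg ‖c q‖]

lemma mem_BB_ge {i M : ℕ} {m : ℕ} (hm : m ∈ Tc (BB i) M) : 4^i ≤ m := by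
  rw [Tc_mem] at hm
  have h1 : 2^(2*i) ≤ qq m := by
    rw [← hm.2.2.2]
    exact Nat.pow_log_le_self 2 (by have := qq_pos m; omega)
  have h2 := qq_le hm.1.1
  have h3 : 4^i = 2^(2*i) := by rw [pow_mul]; norm_num
  omega

/-- the model theorem -/
theorem model (hc : CB c C c1) (v K h0 : ℝ) (hh0 : 0 < h0) : ∃ h η θ : ℝ, 0 < h ∧ h ≤ h0 ∧ 0 < η ∧ 0 < θ ∧ K * h ≤ θ ∧
    ∃ M0 : ℕ, ∀ M : ℕ, M0 ≤ M →
      θ ≤ PP.real {ω | Y (Finset.Icc 1 M) c ω < v - η ∧ v + η < Y (Finset.Icc 1 M) (cX c h) ω} +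
        PP.real {ω | v + η < Y (Finset.Icc 1 M) c ω ∧ Y (Finset.Icc 1 M) (cX c h) ω < v - η} := by
  classical
  obtain ⟨V, hV⟩ : ∃ V, V = 2 * (|v| + 1) := ⟨_, rfl⟩
  have hV0 : 0 < V := by rw [hV]; positivity
  obtain ⟨p, hp, hlsA⟩ := lsA hc hV0
  obtain ⟨yP, hyP, hcard⟩ := PB_card ∅
  have hc1 := hc.c10
  obtain ⟨D0, hD0⟩ : ∃ D0, D0 = c1^2 * (2:ℝ) ^ (-(3/2):ℝ) * (1/500) := ⟨_, rfl⟩
  have hD00 : 0 < D0 := by rw [hD0]; positivity
  obtain ⟨s0, hs0⟩ : ∃ s0, s0 = √D0 := ⟨_, rfl⟩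
  have hs00 : 0 < s0 := by rw [hs0]; positivity
  obtain ⟨Z, hZ⟩ : ∃ Z, Z = ZZ C := ⟨_, rfl⟩
  have hZ0 : 0 < Z := by rw [hZ]; exact ZZ_pos hc.C0
  set tl : ℕ → ℝ := fun N => (∑' m, ‖c m‖^2) - ∑ m ∈ Finset.range (N+1), ‖c m‖^2 with htl
  have hty : Tendsto (fun i : ℕ => (2:ℝ)^(2*i)) atTop atTop := by
    have : (fun i : ℕ => (2:ℝ)^(2*i)) = fun i : ℕ => (4:ℝ)^i := by funext i; rw [pow_mul]; norm_num
    rw [this]
    exact tendsto_pow_atTop_atTop_of_one_lt (by norm_num)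
  have ev1 := hty.eventually_ge_atTop (max yP 2)
  have ev2 : ∀ᶠ i : ℕ in atTop, (16/5) * Z / s0 ≤ ((2:ℝ)^(2*i)) ^ (43/100:ℝ) :=
    ((tendsto_rpow_atTop (by norm_num : (0:ℝ) < 43/100)).comp hty).eventually_ge_atTop _
  have ev3 : ∀ᶠ i : ℕ in atTop, tl (4^i - 1) < V^2 / 4096 := by
    have h1 : Tendsto (fun i : ℕ => 4^i - 1) atTop atTop := by
      apply tendsto_atTop_mono (f := fun i : ℕ => i) _ tendsto_id
      intro i
      have : i < 4^i := Nat.lt_pow_self (by norm_num)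
      show i ≤ 4^i - 1
      omega
    have h2 := (tail_tendsto (sq_summable hc)).comp h1
    exact h2.eventually (gt_mem_nhds (by positivity))
  have ev4 : ∀ᶠ i : ℕ in atTop, 2 * K / (p * s0) ≤ ((2:ℝ)^(2*i)) ^ (23/100:ℝ) :=
    ((tendsto_rpow_atTop (by norm_num : (0:ℝ) < 23/100)).comp hty).eventually_ge_atTop _
  have ev5 : ∀ᶠ i : ℕ in atTop, 1 / (4 * h0) ≤ (2:ℝ)^i :=
    (tendsto_pow_atTop_atTop_of_one_lt (by norm_num : (1:ℝ) < 2)).eventually_ge_atTop _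
  obtain ⟨i, hi1, hi2, hi3, hi4, hi5⟩ := (ev1.and (ev2.and (ev3.and (ev4.and ev5)))).exists
  obtain ⟨y, hy⟩ : ∃ y : ℝ, y = (2:ℝ)^(2*i) := ⟨_, rfl⟩
  rw [← hy] at hi1 hi2 hi4
  have hy0 : 0 < y := by rw [hy]; positivity
  have hyyP : yP ≤ y := (le_max_left _ _).trans hi1
  have hy2 : 2 ≤ y := (le_max_right _ _).trans hi1
  obtain ⟨h, hh⟩ : ∃ h : ℝ, h = 1 / (4 * 2^i) := ⟨_, rfl⟩
  have hhpos : 0 < h := by rw [hh]; positivity
  obtain ⟨sl, hsl⟩ : ∃ sl, sl = s0 * y ^ (-(27/100):ℝ) := ⟨_, rfl⟩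
  have hsl0 : 0 < sl := by rw [hsl]; positivity
  obtain ⟨η, hη⟩ : ∃ η, η = min 1 (sl/192) := ⟨_, rfl⟩
  have hη0 : 0 < η := by rw [hη]; exact lt_min one_pos (by positivity)
  have hη1 : η ≤ 1 := by rw [hη]; exact min_le_left _ _
  have hη2 : η ≤ sl/192 := by rw [hη]; exact min_le_right _ _
  obtain ⟨M1, hM1⟩ := hlsA i (sl/192) (by positivity)
  refine ⟨h, η, p * sl / 8, hhpos, ?_, hη0, by positivity, ?_, max M1 (2^(2*i+1)), fun M hM => ?_⟩
  · rw [hh, div_le_iff₀ (by positivity)]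
    rw [div_le_iff₀ (by positivity)] at hi5
    linarith
  · -- K h ≤ p sl / 8
    have e1 : h = y ^ (-(1/2):ℝ) / 4 := by
      rw [hh, hy, pow_mul, ← Real.rpow_natCast, ← Real.rpow_natCast, ← Real.rpow_natCast, ← Real.rpow_mul (by norm_num)]
      rw [← Real.rpow_mul (by norm_num)]
      have : ((2:ℕ):ℝ) * ((i:ℝ) * -(1/2)) = -(i:ℝ) := by push_cast; ring
      rw [this, Real.rpow_neg (by norm_num)]
      field_simp
    have e2 : y ^ (23/100:ℝ) * y ^ (-(1/2):ℝ) = y ^ (-(27/100):ℝ) := by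
      rw [← Real.rpow_add hy0]; norm_num
    have h3 : 2 * K ≤ p * s0 * y ^ (23/100:ℝ) := by
      rw [div_le_iff₀ (by positivity)] at hi4
      linarith
    have h4 : 0 < y ^ (-(1/2):ℝ) := by positivity
    rw [e1, hsl, ← e2]
    have h5 : 2 * K * y ^ (-(1/2):ℝ) ≤ p * s0 * y ^ (23/100:ℝ) * y ^ (-(1/2):ℝ) := by gcongr
    nlinarith
  -- main part
  set TB := Tc (BB i) M with hTB
  set TA := Tc (BB i)ᶜ M with hTA
  set b0 := Y TB c with hb0
  set b1 := Y TB (cX c h) with hb1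
  set A0 := Y TA c with hA0
  set A1 := Y TA (cX c h) with hA1
  have hTBpos : ∀ m ∈ TB, 1 ≤ m := Tc_pos
  have hsplit : ∀ (c' : ℕ → ℂ) (ω : Om), Y (Finset.Icc 1 M) c' ω = Y TB c' ω + Y TA c' ω := by
    intro c' ω
    have e1 : Tc (BB i ∪ (BB i)ᶜ) M = Finset.Icc 1 M := by
      ext m
      rw [Tc_mem, Finset.mem_Icc, Set.union_compl_self]
      simp
    rw [← e1, Y_union (disjoint_compl_right)]
  have hind : IndepFun (fun ω => (b0 ω, b1 ω)) (fun ω => (A0 ω, A1 ω)) PP := by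
    apply indep_of_dep (A := TB.image qq) (B := TA.image qq)
    · rw [Finset.disjoint_left]
      intro q hq hq'
      rw [Finset.mem_image] at hq hq'
      obtain ⟨m, hm, rfl⟩ := hq
      obtain ⟨m', hm', h2⟩ := hq'
      exact cls_disj disjoint_compl_right m hm m' hm' h2.symm
    · exact (Y_cont _ _).measurable.prodMk (Y_cont _ _).measurable
    · exact (Y_cont _ _).measurable.prodMk (Y_cont _ _).measurable
    · intro x x' hx
      have e1 := Y_dep (A := TB.image qq) (T := TB) (fun m hm => Finset.mem_image_of_mem _ hm) c x x' hx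
      have e2 := Y_dep (A := TB.image qq) (T := TB) (fun m hm => Finset.mem_image_of_mem _ hm) (cX c h) x x' hx
      simp only [hb0, hb1, e1, e2]
    · intro x x' hx
      have e1 := Y_dep (A := TA.image qq) (T := TA) (fun m hm => Finset.mem_image_of_mem _ hm) c x x' hx
      have e2 := Y_dep (A := TA.image qq) (T := TA) (fun m hm => Finset.mem_image_of_mem _ hm) (cX c h) x x' hx
      simp only [hA0, hA1, e1, e2]
  -- the size of the increment
  set d : ℕ → ℂ := fun m => cX c h m - c m with hd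
  have hD : ∀ ω, b1 ω - b0 ω = Y TB d ω := fun ω => Y_sub TB (cX c h) c ω
  set σ : ℝ := √(∫ ω, (Y TB d ω)^2 ∂PP) with hσ
  have hσ2 : ∫ ω, (Y TB d ω)^2 ∂PP = σ^2 := by
    rw [hσ, Real.sq_sqrt (integral_nonneg (fun _ => sq_nonneg _))]
  have hslσ : sl ≤ σ := by
    rw [hσ]
    apply Real.le_sqrt_of_sq_le
    rw [int_Y_sq hTBpos]
    have hQ : ∀ q ∈ PB ∅ y, q.Prime ∧ q ∈ BB i ∧ q ≤ M := by
      intro q hq
      rw [hy] at hq
      have h1 := log_PB hq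
      refine ⟨h1.1, ⟨h1.1, h1.2.1, h1.2.2.1⟩, ?_⟩
      have h2 : (q:ℝ) ≤ M := by
        have h3 : ((2^(2*i+1) : ℕ) : ℝ) ≤ M := by exact_mod_cast (le_max_right _ _).trans hM
        push_cast at h3
        rw [pow_succ] at h3
        linarith [h1.2.2.2.2]
      exact_mod_cast h2
    have h2 := T_lower hQ d
    have h3 : ∑ m ∈ (Tc (BB i) M).filter (fun m => qq m ∈ PB ∅ y), ‖d m‖^2 ≤ ∑ m ∈ TB, ‖d m‖^2 :=
      Finset.sum_le_sum_of_subset_of_nonneg (Finset.filter_subset _ _) (fun _ _ _ => sq_nonneg _)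
    have h4 : 2 * ∑ q ∈ PB ∅ y, ‖c q‖^2 ≤ ∑ q ∈ PB ∅ y, ‖d q‖^2 := by
      rw [Finset.mul_sum]
      apply Finset.sum_le_sum
      intro q hq
      rw [hy] at hq
      have h5 := log_PB hq
      simp only [hd, hh]
      exact diff_lower h5.2.2.2.1 h5.2.2.2.2 c
    have h6 := PB_sum hc hcard (y := y) (by linarith) hyyP
    have h7 : sl^2 = D0 * y ^ (-(27/50):ℝ) := by
      rw [hsl, mul_pow, hs0, Real.sq_sqrt hD00.le, ← Real.rpow_natCast (y ^ (-(27/100):ℝ)), ← Real.rpow_mul hy0.le]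
      norm_num
    rw [h7, hD0]
    linarith
  have hσ0 : 0 < σ := by linarith
  have habs : σ/4 ≤ ∫ ω, |b1 ω - b0 ω| ∂PP := by
    simp only [hD]
    apply absD hTBpos hσ0 hσ2
    intro q
    by_cases hne : (TB.filter (fun m => qq m = q)).Nonempty
    · obtain ⟨m0, hm0⟩ := hne
      rw [Finset.mem_filter] at hm0
      have hqy : y ≤ q := by
        have h1 := (Tc_mem.mp hm0.1).2.2.2
        rw [hm0.2] at h1
        have h2 : 2^(2*i) ≤ q := by
          rw [← h1]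
          exact Nat.pow_log_le_self 2 (by have := qq_pos m0; omega)
        rw [hy]; exact_mod_cast h2
      have h3 : ∑ m ∈ TB.filter (fun m => qq m = q), ‖d m‖ ≤ 2 * ∑ m ∈ TB.filter (fun m => qq m = q), ‖c m‖ := by
        rw [Finset.mul_sum]
        apply Finset.sum_le_sum
        intro m _
        simp only [hd]
        refine (norm_sub_le _ _).trans ?_
        rw [norm_cX]; linarith
      have h4 := cls_sum hc.C0 hc.up hTBpos (q := q)
      rw [← hZ] at h4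
      have h5 : (q:ℝ) ^ (-(7/10):ℝ) ≤ y ^ (-(7/10):ℝ) := Real.rpow_le_rpow_of_nonpos hy0 hqy (by norm_num)
      have h6 : (16/5) * Z * y ^ (-(7/10):ℝ) ≤ sl := by
        rw [div_le_iff₀ hs00] at hi2
        have e3 : y ^ (43/100:ℝ) * y ^ (-(7/10):ℝ) = y ^ (-(27/100):ℝ) := by
          rw [← Real.rpow_add hy0]; norm_num
        rw [hsl, ← e3]
        have : 0 < y ^ (-(7/10):ℝ) := by positivity
        nlinarith
      have h7 : ∑ m ∈ TB.filter (fun m => qq m = q), ‖d m‖ ≤ (5/8) * σ := by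
        have : Z * (q:ℝ) ^ (-(7/10):ℝ) ≤ Z * y ^ (-(7/10):ℝ) := by gcongr
        linarith
      calc 8/(5*σ) * ∑ m ∈ TB.filter (fun m => qq m = q), ‖d m‖ ≤ 8/(5*σ) * ((5/8) * σ) := by gcongr
        _ = 1 := by field_simp
    · rw [Finset.not_nonempty_iff_eq_empty] at hne
      rw [hne]; simp
  -- the bad event
  have hbad : PP.real {ω | V/2 < |b0 ω| ∨ V/2 < |b1 ω|} ≤ 1/1024 := by
    have hsum : ∀ c' : ℕ → ℂ, (∀ m, ‖c' m‖ = ‖c m‖) → ∫ ω, (Y TB c' ω)^2 ∂PP ≤ V^2 / 8192 := by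
      intro c' hc'
      rw [int_Y_sq hTBpos]
      simp only [hc']
      have h1 : ∑ m ∈ TB, ‖c m‖^2 ≤ tl (4^i - 1) := by
        simp only [htl]
        rw [le_sub_iff_add_le]
        have hd : Disjoint TB (Finset.range (4^i - 1 + 1)) := by
          rw [Finset.disjoint_left]
          intro m hm hm'
          have h2 := mem_BB_ge hm
          rw [Finset.mem_range] at hm'
          have : 1 ≤ 4^i := Nat.one_le_pow _ _ (by norm_num)
          omega
        rw [← Finset.sum_union hd]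
        exact (sq_summable hc).sum_le_tsum _ (fun _ _ => sq_nonneg _)
      linarith
    have hch : ∀ c' : ℕ → ℂ, (∀ m, ‖c' m‖ = ‖c m‖) → PP.real {ω | V/2 < |Y TB c' ω|} ≤ 1/2048 := by
      intro c' hc'
      have h1 := cheb (f := Y TB c') (memLp_cont (Y_cont _ _)) (ε := V/2) (by positivity)
      have h2 : {ω | V/2 < |Y TB c' ω|} ⊆ {ω | V/2 ≤ |Y TB c' ω|} := by
        intro ω hω
        simp only [Set.mem_ofPred_eq] at hω ⊢
        exact hω.le
      have h3 := measureReal_mono (μ := PP) h2 (by finiteness)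
      refine (h3.trans h1).trans ?_
      rw [div_le_iff₀ (by positivity)]
      have := hsum c' hc'
      linarith
    have h1 := hch c (fun _ => rfl)
    have h2 := hch (cX c h) (norm_cX c h)
    have h3 : {ω | V/2 < |b0 ω| ∨ V/2 < |b1 ω|} = {ω | V/2 < |b0 ω|} ∪ {ω | V/2 < |b1 ω|} := rfl
    rw [h3]
    refine (measureReal_union_le _ _).trans ?_
    linarith
  have hcr := crossing (A0 := A0) (A1 := A1) (b0 := b0) (b1 := b1) (Y_cont _ _).measurable (Y_cont _ _).measurable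
    (Y_cont _ _).measurable (Y_cont _ _).measurable (memLp_cont (Y_cont _ _)) (memLp_cont (Y_cont _ _)) hind
    (law_shift TA c h) (p := p) (V := V) (δ := sl/192) (η := η) (v := v) (l := 1/(32*σ)) hp (by positivity) hη0.le
    (fun s t hs ht => hM1 M ((le_max_left _ _).trans hM) s t hs ht) (by rw [hV]; linarith)
  simp only [hsplit]
  refine le_trans ?_ hcr
  have e5 : 1/(32*σ) * ∫ ω, (b1 ω - b0 ω)^2 ∂PP = σ/32 := by
    simp only [hD]
    rw [hσ2]; field_simp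
  rw [e5]
  have e6 : PP.real {ω | V/2 < |b0 ω| ∨ V/2 < |b1 ω|} / (1/(32*σ)) ≤ σ/32 := by
    rw [div_le_iff₀ (by positivity)]
    calc _ ≤ (1:ℝ)/1024 := hbad
      _ = σ/32 * (1/(32*σ)) := by field_simp; norm_num
  have h9 : sl/8 ≤ ∫ ω, |b1 ω - b0 ω| ∂PP - 2 * η - sl/192 - (σ/32 + PP.real {ω | V/2 < |b0 ω| ∨ V/2 < |b1 ω|} / (1/(32*σ))) := by
    linarith
  calc p * sl / 8 = p * (sl/8) := by ring
    _ ≤ _ := by gcongr

end Pool.Agent.NH96.SG
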