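import Mathlib
import Pool.Agent.H383.LinIndep
import Pool.Agent.NH96.SG.Mod

/-! Equidistribution. -/

open MeasureTheory ProbabilityTheory Filter Topology Finset

namespace Pool.Agent.NH96.SG

instance instProbTorus {ι : Type*} [Fintype ι] : IsProbabilityMeasure (volume : Measure (ι → UnitAddCircle)) := by
  rw [volume_pi]; infer_instance

section torus

variable {ι : Type*} [Fintype ι]

lemma mF_add (k : ι → ℤ) (x y : ι → UnitAddCircle) :
    UnitAddTorus.mFourier k (x + y) = UnitAddTorus.mFourier k x * UnitAddTorus.mFourier k y := by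
  simp only [UnitAddTorus.mFourier, ContinuousMap.coe_mk, Pi.add_apply, ← Finset.prod_mul_distrib]
  exact Finset.prod_congr rfl fun i _ => fourier_add_apply _ _ _

lemma mF_norm (k : ι → ℤ) (x : ι → UnitAddCircle) : ‖UnitAddTorus.mFourier k x‖ = 1 := by
  simp only [UnitAddTorus.mFourier, fourier_apply, ContinuousMap.coe_mk, norm_prod,
    Circle.norm_coe, Finset.prod_const_one]

lemma mF_zero (k : ι → ℤ) : UnitAddTorus.mFourier k (0 : ι → UnitAddCircle) = 1 := by
  have h := mF_add k 0 0
  rw [add_zero] at h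
  have h0 : UnitAddTorus.mFourier k (0 : ι → UnitAddCircle) ≠ 0 := by
    intro h; have := mF_norm k (0 : ι → UnitAddCircle); rw [h] at this; simp at this
  exact (mul_left_cancel₀ h0 (by rw [mul_one]; exact h)).symm

lemma mF_nsmul (k : ι → ℤ) (γ : ι → UnitAddCircle) (n : ℕ) :
    UnitAddTorus.mFourier k (n • γ) = (UnitAddTorus.mFourier k γ) ^ n := by
  induction n with
  | zero => rw [zero_smul, mF_zero, pow_zero]
  | succ n ih => rw [succ_nsmul, mF_add, ih, pow_succ]

lemma int_contC {f : (ι → UnitAddCircle) → ℂ} (hf : Continuous f) : Integrable f :=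
  hf.integrable_of_hasCompactSupport (HasCompactSupport.of_compactSpace _)

/-- Weyl equidistribution on a finite torus -/
theorem weylJ {γ : ι → UnitAddCircle} (hγ : ∀ k : ι → ℤ, k ≠ 0 → UnitAddTorus.mFourier k γ ≠ 1)
    (f : C(ι → UnitAddCircle, ℂ)) :
    Tendsto (fun N : ℕ => (∑ n ∈ range N, f (n • γ)) / N) atTop (𝓝 (∫ z, f z)) := by
  set P : C(ι → UnitAddCircle, ℂ) → Prop := fun f =>
    Tendsto (fun N : ℕ => (∑ n ∈ range N, f (n • γ)) / N) atTop (𝓝 (∫ z, f z)) with hP
  have h0 : P 0 := by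
    simp only [hP, ContinuousMap.zero_apply, Finset.sum_const_zero, zero_div, integral_zero]
    exact tendsto_const_nhds
  have ha : ∀ f g, P f → P g → P (f + g) := by
    intro f g hf hg
    simp only [hP] at hf hg ⊢
    have h5 : ∫ z, (f + g) z = (∫ z, f z) + ∫ z, g z := by
      simp only [ContinuousMap.add_apply]
      exact integral_add (int_contC f.continuous) (int_contC g.continuous)
    rw [h5]
    refine (hf.add hg).congr (fun N => ?_)
    simp only [ContinuousMap.add_apply, sum_add_distrib, add_div]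
  have hs : ∀ (c : ℂ) f, P f → P (c • f) := by
    intro c f hf
    simp only [hP] at hf ⊢
    have h5 : ∫ z, (c • f) z = c * ∫ z, f z := by
      simp only [ContinuousMap.smul_apply, smul_eq_mul]
      exact integral_const_mul _ _
    rw [h5]
    refine (hf.const_mul c).congr (fun N => ?_)
    simp only [ContinuousMap.smul_apply, smul_eq_mul, ← mul_sum, mul_div_assoc]
  have hm : ∀ k, P (UnitAddTorus.mFourier k) := by
    intro k
    simp only [hP]
    by_cases hk : k = 0
    · subst hk
      have h1 : ∀ z, UnitAddTorus.mFourier (0 : ι → ℤ) z = 1 := fun z => by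
        simp [UnitAddTorus.mFourier_zero]
      simp only [h1]
      rw [integral_const]
      simp only [probReal_univ, one_smul]
      apply tendsto_const_nhds.congr'
      filter_upwards [eventually_ge_atTop 1] with N hN
      rw [sum_const, card_range, nsmul_eq_mul, mul_one, div_self]
      exact_mod_cast (by omega : N ≠ 0)
    · have hne := hγ k hk
      have hint : ∫ z, UnitAddTorus.mFourier k z = 0 := by
        have h1 : ∫ z, UnitAddTorus.mFourier k z = ∫ z, UnitAddTorus.mFourier k (z + γ) :=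
          (integral_add_right_eq_self (fun z => UnitAddTorus.mFourier k z) γ).symm
        simp only [mF_add] at h1
        rw [integral_mul_const] at h1
        have h2 : (∫ z, UnitAddTorus.mFourier k z) * (1 - UnitAddTorus.mFourier k γ) = 0 := by linear_combination h1
        rcases mul_eq_zero.1 h2 with h3 | h3
        · exact h3
        · exact absurd (sub_eq_zero.1 h3).symm hne
      rw [hint, tendsto_zero_iff_norm_tendsto_zero]
      have hpos : 0 < ‖UnitAddTorus.mFourier k γ - 1‖ := norm_pos_iff.2 (sub_ne_zero.2 hne)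
      have h4 : Tendsto (fun N : ℕ => (2 / ‖UnitAddTorus.mFourier k γ - 1‖) / (N:ℝ)) atTop (𝓝 0) :=
        tendsto_const_div_atTop_nhds_zero_nat _
      refine squeeze_zero (fun N => norm_nonneg _) (fun N => ?_) h4
      have h2 : ∑ n ∈ range N, UnitAddTorus.mFourier k (n • γ) =
          (UnitAddTorus.mFourier k γ ^ N - 1) / (UnitAddTorus.mFourier k γ - 1) := by
        rw [← geom_sum_eq hne]
        exact sum_congr rfl fun n _ => mF_nsmul _ _ _
      rw [h2, norm_div, norm_div, Complex.norm_natCast]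
      have h3 : ‖UnitAddTorus.mFourier k γ ^ N - 1‖ ≤ 2 := by
        refine (norm_sub_le _ _).trans ?_
        rw [norm_pow, mF_norm, one_pow, norm_one]; norm_num
      gcongr
  have hc : ∀ f, (∀ ε : ℝ, 0 < ε → ∃ g, P g ∧ ‖f - g‖ < ε) → P f := by
    intro f hf
    simp only [hP]
    rw [Metric.tendsto_atTop]
    intro ε hε
    obtain ⟨g, hg, hfg⟩ := hf (ε/3) (by positivity)
    simp only [hP] at hg
    rw [Metric.tendsto_atTop] at hg
    obtain ⟨N0, hN0⟩ := hg (ε/3) (by positivity)
    refine ⟨N0, fun N hN => ?_⟩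
    have h1 := hN0 N hN
    rw [dist_eq_norm] at h1 ⊢
    have h4 : ∀ z, ‖f z - g z‖ ≤ ε / 3 := fun z => ((f - g).norm_coe_le_norm z).trans hfg.le
    have h5 : ‖(∑ n ∈ range N, f (n • γ)) / N - (∑ n ∈ range N, g (n • γ)) / N‖ ≤ ε / 3 := by
      rw [← sub_div, ← sum_sub_distrib, norm_div, Complex.norm_natCast]
      rcases Nat.eq_zero_or_pos N with h | h
      · rw [h]; simp; positivity
      · rw [div_le_iff₀ (by exact_mod_cast h)]
        refine (norm_sum_le _ _).trans ((sum_le_sum fun n _ => h4 _).trans ?_)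
        rw [sum_const, card_range, nsmul_eq_mul]; linarith
    have h6 : ‖(∫ z, g z) - ∫ z, f z‖ ≤ ε / 3 := by
      rw [← integral_sub (int_contC g.continuous) (int_contC f.continuous)]
      refine (norm_integral_le_of_norm_le_const (C := ε / 3) (ae_of_all _ fun z => ?_)).trans ?_
      · rw [norm_sub_rev]; exact h4 z
      · simp
    calc _ = ‖((∑ n ∈ range N, f (n • γ)) / N - (∑ n ∈ range N, g (n • γ)) / N) +
        ((∑ n ∈ range N, g (n • γ)) / N - ∫ z, g z) + ((∫ z, g z) - ∫ z, f z)‖ := by congr 1; ring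
      _ ≤ _ := norm_add₃_le
      _ < ε := by linarith
  refine hc f fun ε hε => ?_
  have h1 : f ∈ (Submodule.span ℂ (Set.range (UnitAddTorus.mFourier (d := ι)))).topologicalClosure := by
    rw [UnitAddTorus.span_mFourier_closure_eq_top]; trivial
  obtain ⟨g, hg, hfg⟩ := Metric.mem_closure_iff.1 h1 ε hε
  refine ⟨g, ?_, by rwa [← dist_eq_norm]⟩
  refine Submodule.span_induction (p := fun g _ => P g) ?_ h0 (fun x y _ _ hx hy => ha x y hx hy)
    (fun c x _ hx => hs c x hx) hg
  rintro _ ⟨k, rfl⟩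
  exact hm k

end torus

/-- the multiples of `α` are independent of the square roots -/
def Good (α : ℝ) : Prop := 0 < α ∧ ∀ (J : Finset ℕ) (k : ℕ → ℤ), (∀ q ∈ J, Squarefree q) →
  (∃ l : ℤ, ∑ q ∈ J, (k q : ℝ) * (α * √(q:ℝ)) = l) → ∀ q ∈ J, k q = 0

lemma sf_zero {J : Finset ℕ} {k : ℕ → ℤ} (hJ : ∀ q ∈ J, Squarefree q) (h : ∑ q ∈ J, (k q : ℝ) * √(q:ℝ) = 0) :
    ∀ q ∈ J, k q = 0 := by
  classical
  have h1 := linearIndependent_iff'.mp Pool.Agent.H383.Gauss.sf_indep (J.subtype Squarefree)
    (fun s => ((k (s:ℕ) : ℤ) : ℚ)) (by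
      rw [← h, ← Finset.sum_subtype_of_mem (fun q : ℕ => (k q : ℝ) * √(q:ℝ)) hJ]
      apply Finset.sum_congr rfl
      intro s _
      rw [Rat.smul_def]
      push_cast
      rfl)
  intro q hq
  have h2 := h1 ⟨q, hJ q hq⟩ (by rw [Finset.mem_subtype]; exact hq)
  simp only at h2
  exact_mod_cast h2

lemma exists_good : ∃ α : ℝ, Good α := by
  -- a positive transcendental number
  obtain ⟨x, hx0, hx⟩ : ∃ x : ℝ, 0 < x ∧ ¬ IsAlgebraic ℚ x := by
    by_contra hcon
    push Not at hcon
    have h1 : Set.Ioi (0:ℝ) ⊆ {x : ℝ | IsAlgebraic ℚ x} := fun x hx => hcon x hx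
    have h2 := (Algebraic.countable ℚ ℝ).mono h1
    have h3 := h2.measure_zero volume
    rw [Real.volume_Ioi] at h3
    exact ENNReal.top_ne_zero h3
  refine ⟨1/x, by positivity, ?_⟩
  intro J k hJ hl
  obtain ⟨l, hl⟩ := hl
  have h1 : ∑ q ∈ J, (k q : ℝ) * √(q:ℝ) = l * x := by
    have h2 : ∑ q ∈ J, (k q : ℝ) * √(q:ℝ) = x * ∑ q ∈ J, (k q : ℝ) * (1/x * √(q:ℝ)) := by
      rw [Finset.mul_sum]
      apply Finset.sum_congr rfl
      intro q _
      field_simp
    rw [h2, hl]; ring
  by_cases hl0 : l = 0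
  · apply sf_zero hJ
    rw [h1, hl0]; simp
  · exfalso
    apply hx
    have hsq : ∀ q : ℕ, IsAlgebraic ℚ (√(q:ℝ)) := by
      intro q
      apply IsAlgebraic.of_pow (n := 2) (by norm_num)
      rw [Real.sq_sqrt (Nat.cast_nonneg q)]
      exact isAlgebraic_natCast q
    have h3 : IsAlgebraic ℚ ((l:ℝ) * x) := by
      rw [← h1]
      apply Finset.sum_induction _ (IsAlgebraic ℚ) (fun a b ha hb => ha.add hb) isAlgebraic_zero
      intro q _
      exact (isAlgebraic_intCast _).mul (hsq q)
    have h4 : x = ((l:ℝ))⁻¹ * ((l:ℝ) * x) := by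
      have : (l:ℝ) ≠ 0 := by exact_mod_cast hl0
      field_simp
    rw [h4]
    exact (isAlgebraic_intCast (R := ℚ) (A := ℝ) l).inv.mul h3

lemma ext0_cont (A : Finset ℕ) : Continuous (ext0 A) := by
  apply continuous_pi
  intro i
  by_cases h : i ∈ A
  · simp only [ext0, dif_pos h]; exact continuous_apply _
  · simp only [ext0, dif_neg h]; exact continuous_const

/-- equidistribution of the pairs -/
theorem weylPP {α : ℝ} (hα : Good α) (T : Finset ℕ) (c c' : ℕ → ℂ) {f : ℝ × ℝ → ℝ} (hf : Continuous f) :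
    Tendsto (fun N : ℕ => (∑ n ∈ range N, f (Y T c (sh (n * α)), Y T c' (sh (n * α)))) / N) atTop
      (𝓝 (∫ ω, f (Y T c ω, Y T c' ω) ∂PP)) := by
  classical
  set J : Finset ℕ := T.image qq with hJ
  have hJsf : ∀ q ∈ J, Squarefree q := by
    intro q hq
    rw [hJ, Finset.mem_image] at hq
    obtain ⟨m, _, rfl⟩ := hq
    exact qq_sf m
  set γ : J → UnitAddCircle := fun q => sh α q with hγ
  have hcont : Continuous (fun x : J → UnitAddCircle => ((f (Y T c (ext0 J x), Y T c' (ext0 J x)) : ℝ) : ℂ)) := by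
    apply Complex.continuous_ofReal.comp
    apply hf.comp
    exact ((Y_cont T c).comp (ext0_cont J)).prodMk ((Y_cont T c').comp (ext0_cont J))
  have hgen : ∀ k : J → ℤ, k ≠ 0 → UnitAddTorus.mFourier k γ ≠ 1 := by
    intro k hk h1
    apply hk
    -- extend k
    set k' : ℕ → ℤ := fun q => if h : q ∈ J then k ⟨q, h⟩ else 0 with hk'
    have h2 : ∃ l : ℤ, ∑ q ∈ J, (k' q : ℝ) * (α * √(q:ℝ)) = l := by
      have h3 : UnitAddTorus.mFourier k γ = Complex.exp (((2 * Real.pi * ∑ q ∈ J, (k' q : ℝ) * (α * √(q:ℝ)) : ℝ) : ℂ) * Complex.I) := by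
        simp only [UnitAddTorus.mFourier, ContinuousMap.coe_mk, hγ, sh]
        have h4 : ∀ q : J, fourier (k q) ((α * √((q:ℕ):ℝ) : ℝ) : UnitAddCircle) =
            Complex.exp (((2 * Real.pi * ((k' q : ℝ) * (α * √((q:ℕ):ℝ))) : ℝ) : ℂ) * Complex.I) := by
          intro q
          rw [fourier_coe_apply]
          have h5 : k' q = k q := by simp [hk']
          rw [h5]
          congr 1
          push_cast; ring
        simp only [h4]
        rw [← Complex.exp_sum]
        congr 1
        rw [Finset.univ_eq_attach, Finset.sum_attach J (fun q => (((2 * Real.pi * ((k' q : ℝ) * (α * √((q:ℕ):ℝ))) : ℝ) : ℂ) * Complex.I)),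
          ← Finset.sum_mul]
        congr 1
        rw [← Complex.ofReal_sum, ← Finset.mul_sum]
      rw [h3, Complex.exp_eq_one_iff] at h1
      obtain ⟨l, hl⟩ := h1
      refine ⟨l, ?_⟩
      have h6 : ((2 * Real.pi * ∑ q ∈ J, (k' q : ℝ) * (α * √(q:ℝ)) : ℝ) : ℂ) = ((l * (2 * Real.pi) : ℝ) : ℂ) := by
        have := mul_right_cancel₀ Complex.I_ne_zero (by rw [hl]; ring : ((2 * Real.pi * ∑ q ∈ J, (k' q : ℝ) * (α * √(q:ℝ)) : ℝ) : ℂ) * Complex.I =
          ((l : ℂ) * (2 * Real.pi)) * Complex.I)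
        rw [this]; push_cast; ring
      have h7 : 2 * Real.pi * ∑ q ∈ J, (k' q : ℝ) * (α * √(q:ℝ)) = l * (2 * Real.pi) := by exact_mod_cast h6
      have hpi := Real.pi_pos
      have : (2 * Real.pi) * (∑ q ∈ J, (k' q : ℝ) * (α * √(q:ℝ)) - l) = 0 := by rw [mul_sub, h7]; ring
      rcases mul_eq_zero.mp this with h | h
      · linarith
      · linarith
    have h8 := hα.2 J k' hJsf h2
    funext q
    have h9 := h8 q q.2
    simp only [hk', q.2, dite_true] at h9
    exact h9
  have key := weylJ hgen ⟨_, hcont⟩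
  simp only [ContinuousMap.coe_mk] at key
  -- the integral
  have e1 : ∫ z : J → UnitAddCircle, ((f (Y T c (ext0 J z), Y T c' (ext0 J z)) : ℝ) : ℂ) =
      ((∫ ω, f (Y T c ω, Y T c' ω) ∂PP : ℝ) : ℂ) := by
    rw [integral_complex_ofReal]
    congr 1
    have h1 := integral_restrict_infinitePi (fun _ : ℕ => (volume : Measure UnitAddCircle)) (s := J)
      (f := fun z : J → UnitAddCircle => f (Y T c (ext0 J z), Y T c' (ext0 J z)))
      (by
        apply Continuous.aestronglyMeasurable
        exact hf.comp (((Y_cont T c).comp (ext0_cont J)).prodMk ((Y_cont T c').comp (ext0_cont J))))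
    rw [volume_pi]
    rw [← h1]
    unfold PP
    apply integral_congr_ae
    refine Eventually.of_forall (fun ω => ?_)
    have hdep : ∀ c'' : ℕ → ℂ, Y T c'' (ext0 J (J.restrict ω)) = Y T c'' ω := by
      intro c''
      apply Y_dep (A := J) (T := T) (fun m hm => Finset.mem_image_of_mem _ hm) c''
      intro i hi
      simp [ext0, hi]
    simp only [hdep]
  rw [e1] at key
  -- the averages
  have e2 : ∀ n : ℕ, ∀ c'' : ℕ → ℂ, Y T c'' (ext0 J (n • γ)) = Y T c'' (sh (n * α)) := by
    intro n c''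
    apply Y_dep (A := J) (T := T) (fun m hm => Finset.mem_image_of_mem _ hm) c''
    intro i hi
    simp only [ext0, hi, dite_true, Pi.smul_apply, hγ, sh]
    rw [mul_assoc, ← nsmul_eq_mul]
    rfl
  simp only [e2] at key
  have h3 := (Complex.continuous_re.tendsto _).comp key
  rw [Complex.ofReal_re] at h3
  refine h3.congr (fun N => ?_)
  simp only [Function.comp_apply]
  rw [← Complex.ofReal_sum, ← Complex.ofReal_natCast, ← Complex.ofReal_div, Complex.ofReal_re]

end Pool.Agent.NH96.SG
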