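import Mathlib
import Pool.Agent.NH96.SG.Weyl

/-! Equidistribution in continuous time, uniform in the starting point. -/

open MeasureTheory ProbabilityTheory Filter Topology Finset

namespace Pool.Agent.NH96.SG

/-- the flow on a finite torus -/
noncomputable def shJ (J : Finset ℕ) (R : ℝ) : J → UnitAddCircle := fun q => ((R * √((q:ℕ):ℝ) : ℝ) : UnitAddCircle)

lemma shJ_cont (J : Finset ℕ) : Continuous (shJ J) := by
  apply continuous_pi
  intro q
  unfold shJ
  exact (AddCircle.continuous_mk' 1).comp (by fun_prop)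

/-- averages over windows -/
def WP (J : Finset ℕ) (f : C(J → UnitAddCircle, ℂ)) : Prop := ∀ ε : ℝ, 0 < ε → ∃ H0 : ℝ, 0 < H0 ∧ ∀ H : ℝ, H0 ≤ H → ∀ X : ℝ,
  ‖(∫ R in X..(X+H), f (shJ J R)) - H * ∫ z, f z‖ ≤ ε * H

lemma ii {J : Finset ℕ} (f : C(J → UnitAddCircle, ℂ)) (a b : ℝ) : IntervalIntegrable (fun R => f (shJ J R)) volume a b :=
  (f.continuous.comp (shJ_cont J)).intervalIntegrable _ _

lemma int_exp_le {ω : ℝ} (hω : ω ≠ 0) (a b : ℝ) :
    ‖∫ R in a..b, Complex.exp (((2 * Real.pi * (R * ω) : ℝ) : ℂ) * Complex.I)‖ ≤ 2 / (2 * Real.pi * |ω|) := by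
  have hpi := Real.pi_pos
  have hc : (((2 * Real.pi * ω : ℝ) : ℂ) * Complex.I) ≠ 0 := by
    apply mul_ne_zero _ Complex.I_ne_zero
    rw [Complex.ofReal_ne_zero]
    positivity
  have e : (fun R : ℝ => Complex.exp (((2 * Real.pi * (R * ω) : ℝ) : ℂ) * Complex.I)) =
      fun R : ℝ => Complex.exp ((((2 * Real.pi * ω : ℝ) : ℂ) * Complex.I) * (R:ℂ)) := by
    funext R; congr 1; push_cast; ring
  rw [e, integral_exp_mul_complex hc, norm_div]
  have h1 : ‖(((2 * Real.pi * ω : ℝ) : ℂ) * Complex.I)‖ = 2 * Real.pi * |ω| := by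
    rw [norm_mul, Complex.norm_I, mul_one, Complex.norm_real, Real.norm_eq_abs, abs_mul, abs_of_pos (by positivity : 0 < 2 * Real.pi)]
  rw [h1]
  have h0 : 0 < 2 * Real.pi * |ω| := by positivity
  apply div_le_div_of_nonneg_right _ h0.le
  refine (norm_sub_le _ _).trans ?_
  have h2 : ∀ x : ℝ, ‖Complex.exp ((((2 * Real.pi * ω : ℝ) : ℂ) * Complex.I) * (x:ℂ))‖ = 1 := by
    intro x
    have : (((2 * Real.pi * ω : ℝ) : ℂ) * Complex.I) * (x:ℂ) = ((2 * Real.pi * ω * x : ℝ) : ℂ) * Complex.I := by push_cast; ring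
    rw [this, Complex.norm_exp_ofReal_mul_I]
  rw [h2, h2]; norm_num

theorem weylC {J : Finset ℕ} (hJ : ∀ q ∈ J, Squarefree q) (f : C(J → UnitAddCircle, ℂ)) : WP J f := by
  classical
  have h0 : WP J 0 := by
    intro ε hε
    refine ⟨1, one_pos, fun H hH X => ?_⟩
    simp only [ContinuousMap.zero_apply, intervalIntegral.integral_zero, integral_zero, mul_zero, sub_zero, norm_zero]
    have : 0 ≤ H := by linarith
    positivity
  have ha : ∀ f g, WP J f → WP J g → WP J (f + g) := by
    intro f g hf hg ε hε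
    obtain ⟨H1, h10, h1⟩ := hf (ε/2) (by positivity)
    obtain ⟨H2, h20, h2⟩ := hg (ε/2) (by positivity)
    refine ⟨max H1 H2, lt_max_of_lt_left h10, fun H hH X => ?_⟩
    have a1 := h1 H ((le_max_left _ _).trans hH) X
    have a2 := h2 H ((le_max_right _ _).trans hH) X
    have e1 : ∫ z, (f + g) z = (∫ z, f z) + ∫ z, g z := by
      simp only [ContinuousMap.add_apply]
      exact integral_add (int_contC f.continuous) (int_contC g.continuous)
    have e2 : ∫ R in X..(X+H), (f + g) (shJ J R) = (∫ R in X..(X+H), f (shJ J R)) + ∫ R in X..(X+H), g (shJ J R) := by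
      simp only [ContinuousMap.add_apply]
      exact intervalIntegral.integral_add (ii f _ _) (ii g _ _)
    rw [e1, e2]
    calc _ = ‖((∫ R in X..(X+H), f (shJ J R)) - H * ∫ z, f z) + ((∫ R in X..(X+H), g (shJ J R)) - H * ∫ z, g z)‖ := by
          congr 1; ring
      _ ≤ _ := norm_add_le _ _
      _ ≤ _ := by linarith
  have hs : ∀ (c : ℂ) f, WP J f → WP J (c • f) := by
    intro c f hf ε hε
    obtain ⟨H1, h10, h1⟩ := hf (ε / (‖c‖ + 1)) (by positivity)
    refine ⟨H1, h10, fun H hH X => ?_⟩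
    have a1 := h1 H hH X
    have hH0 : 0 < H := by linarith
    have e1 : ∫ z, (c • f) z = c * ∫ z, f z := by
      simp only [ContinuousMap.smul_apply, smul_eq_mul]
      exact integral_const_mul _ _
    have e2 : ∫ R in X..(X+H), (c • f) (shJ J R) = c * ∫ R in X..(X+H), f (shJ J R) := by
      simp only [ContinuousMap.smul_apply, smul_eq_mul]
      exact intervalIntegral.integral_const_mul _ _
    rw [e1, e2]
    calc _ = ‖c * ((∫ R in X..(X+H), f (shJ J R)) - H * ∫ z, f z)‖ := by congr 1; ring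
      _ = ‖c‖ * ‖_‖ := norm_mul _ _
      _ ≤ (‖c‖ + 1) * (ε / (‖c‖ + 1) * H) := by gcongr; linarith
      _ = ε * H := by field_simp
  have hm : ∀ k : J → ℤ, WP J (UnitAddTorus.mFourier k) := by
    intro k ε hε
    by_cases hk : k = 0
    · subst hk
      refine ⟨1, one_pos, fun H hH X => ?_⟩
      have hH0 : 0 < H := by linarith
      have h1 : ∀ z, UnitAddTorus.mFourier (0 : J → ℤ) z = 1 := fun z => by
        simp [UnitAddTorus.mFourier_zero]
      simp only [h1]
      rw [integral_const, intervalIntegral.integral_const]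
      simp only [probReal_univ, one_smul, mul_one]
      have : ((X + H - X : ℝ) • (1:ℂ)) - (H:ℂ) = 0 := by
        rw [add_sub_cancel_left]; simp
      rw [this, norm_zero]; positivity
    · -- the frequency
      set k' : ℕ → ℤ := fun q => if h : q ∈ J then k ⟨q, h⟩ else 0 with hk'
      set ω : ℝ := ∑ q ∈ J, (k' q : ℝ) * √(q:ℝ) with hω
      have hω0 : ω ≠ 0 := by
        intro h1
        apply hk
        have h2 := sf_zero hJ (k := k') h1
        funext q
        have h9 := h2 q q.2
        simp only [hk', q.2, dite_true] at h9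
        exact h9
      have h3 : ∀ R : ℝ, UnitAddTorus.mFourier k (shJ J R) = Complex.exp (((2 * Real.pi * (R * ω) : ℝ) : ℂ) * Complex.I) := by
        intro R
        simp only [UnitAddTorus.mFourier, ContinuousMap.coe_mk, shJ]
        have h4 : ∀ q : J, fourier (k q) ((R * √((q:ℕ):ℝ) : ℝ) : UnitAddCircle) =
            Complex.exp (((2 * Real.pi * R * ((k' q : ℝ) * √((q:ℕ):ℝ)) : ℝ) : ℂ) * Complex.I) := by
          intro q
          rw [fourier_coe_apply]
          have h5 : k' q = k q := by simp [hk']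
          rw [h5]
          congr 1
          push_cast; ring
        simp only [h4]
        rw [← Complex.exp_sum]
        congr 1
        rw [Finset.univ_eq_attach, Finset.sum_attach J (fun q => (((2 * Real.pi * R * ((k' q : ℝ) * √((q:ℕ):ℝ)) : ℝ) : ℂ) * Complex.I)),
          ← Finset.sum_mul]
        congr 1
        rw [← Complex.ofReal_sum, ← Finset.mul_sum, hω]
        congr 1; ring
      have hint : ∫ z, UnitAddTorus.mFourier k z = 0 := by
        -- translation by half a period in one coordinate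
        obtain ⟨q0, hq0⟩ : ∃ q0, k q0 ≠ 0 := by
          by_contra hcon
          push Not at hcon
          exact hk (funext hcon)
        set γ : J → UnitAddCircle := Pi.single q0 (((1 / (2 * (k q0 : ℝ)) : ℝ)) : UnitAddCircle) with hγ
        have hne : UnitAddTorus.mFourier k γ = -1 := by
          simp only [UnitAddTorus.mFourier, ContinuousMap.coe_mk]
          rw [Finset.prod_eq_single q0]
          · rw [hγ, Pi.single_eq_same]; exact fourier_half hq0
          · intro j _ hj
            rw [hγ, Pi.single_eq_of_ne hj]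
            exact fourier_eval_zero _
          · intro h; exact absurd (Finset.mem_univ q0) h
        have h1 : ∫ z, UnitAddTorus.mFourier k z = ∫ z, UnitAddTorus.mFourier k (z + γ) :=
          (integral_add_right_eq_self (fun z => UnitAddTorus.mFourier k z) γ).symm
        simp only [mF_add, hne] at h1
        rw [integral_mul_const] at h1
        have h2 : 2 * (∫ z, UnitAddTorus.mFourier k z) = 0 := by linear_combination h1
        rcases mul_eq_zero.1 h2 with h3 | h3
        · norm_num at h3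
        · exact h3
      have hpi := Real.pi_pos
      have hA : 0 < 2 / (2 * Real.pi * |ω|) := by positivity
      refine ⟨2 / (2 * Real.pi * |ω|) / ε, by positivity, fun H hH X => ?_⟩
      rw [hint, mul_zero, sub_zero]
      simp only [h3]
      refine (int_exp_le hω0 _ _).trans ?_
      rw [div_le_iff₀ hε] at hH
      linarith
  have hc : ∀ f, (∀ ε : ℝ, 0 < ε → ∃ g, WP J g ∧ ‖f - g‖ < ε) → WP J f := by
    intro f hf ε hε
    obtain ⟨g, hg, hfg⟩ := hf (ε/3) (by positivity)
    obtain ⟨H0, h00, h1⟩ := hg (ε/3) (by positivity)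
    refine ⟨H0, h00, fun H hH X => ?_⟩
    have hH0 : 0 < H := by linarith
    have a1 := h1 H hH X
    have h4 : ∀ z, ‖f z - g z‖ ≤ ε / 3 := fun z => ((f - g).norm_coe_le_norm z).trans hfg.le
    have h5 : ‖(∫ R in X..(X+H), f (shJ J R)) - ∫ R in X..(X+H), g (shJ J R)‖ ≤ ε / 3 * H := by
      rw [← intervalIntegral.integral_sub (ii f _ _) (ii g _ _)]
      refine (intervalIntegral.norm_integral_le_of_norm_le_const (C := ε/3) (fun R _ => h4 _)).trans ?_
      rw [add_sub_cancel_left, abs_of_pos hH0]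
    have h6 : ‖(∫ z, g z) - ∫ z, f z‖ ≤ ε / 3 := by
      rw [← integral_sub (int_contC g.continuous) (int_contC f.continuous)]
      refine (norm_integral_le_of_norm_le_const (C := ε / 3) (ae_of_all _ fun z => ?_)).trans ?_
      · rw [norm_sub_rev]; exact h4 z
      · simp
    calc _ = ‖((∫ R in X..(X+H), f (shJ J R)) - ∫ R in X..(X+H), g (shJ J R)) +
        ((∫ R in X..(X+H), g (shJ J R)) - H * ∫ z, g z) + (H:ℂ) * ((∫ z, g z) - ∫ z, f z)‖ := by congr 1; ring
      _ ≤ ‖(∫ R in X..(X+H), f (shJ J R)) - ∫ R in X..(X+H), g (shJ J R)‖ +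
        ‖(∫ R in X..(X+H), g (shJ J R)) - H * ∫ z, g z‖ + ‖(H:ℂ) * ((∫ z, g z) - ∫ z, f z)‖ := norm_add₃_le
      _ ≤ ε / 3 * H + ε / 3 * H + H * (ε/3) := by
          rw [norm_mul, Complex.norm_real, Real.norm_eq_abs, abs_of_pos hH0]
          gcongr
      _ = ε * H := by ring
  refine hc f fun ε hε => ?_
  have h1 : f ∈ (Submodule.span ℂ (Set.range (UnitAddTorus.mFourier (d := J)))).topologicalClosure := by
    rw [UnitAddTorus.span_mFourier_closure_eq_top]; trivial
  obtain ⟨g, hg, hfg⟩ := Metric.mem_closure_iff.1 h1 ε hε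
  refine ⟨g, ?_, by rwa [← dist_eq_norm]⟩
  refine Submodule.span_induction (p := fun g _ => WP J g) ?_ h0 (fun x y _ _ hx hy => ha x y hx hy)
    (fun c x _ hx => hs c x hx) hg
  rintro _ ⟨k, rfl⟩
  exact hm k

lemma sh_cont : Continuous sh := by
  apply continuous_pi
  intro q
  unfold sh
  exact (AddCircle.continuous_mk' 1).comp (by fun_prop)

/-- equidistribution of pairs along windows -/
theorem weylW (T : Finset ℕ) (c c' : ℕ → ℂ) {f : ℝ × ℝ → ℝ} (hf : Continuous f) {ε : ℝ} (hε : 0 < ε) :
    ∃ H0 : ℝ, 0 < H0 ∧ ∀ H : ℝ, H0 ≤ H → ∀ X : ℝ,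
      |(∫ R in X..(X+H), f (Y T c (sh R), Y T c' (sh R))) - H * ∫ ω, f (Y T c ω, Y T c' ω) ∂PP| ≤ ε * H := by
  classical
  set J : Finset ℕ := T.image qq with hJ
  have hJsf : ∀ q ∈ J, Squarefree q := by
    intro q hq
    rw [hJ, Finset.mem_image] at hq
    obtain ⟨m, _, rfl⟩ := hq
    exact qq_sf m
  have hcont : Continuous (fun x : J → UnitAddCircle => ((f (Y T c (ext0 J x), Y T c' (ext0 J x)) : ℝ) : ℂ)) := by
    apply Complex.continuous_ofReal.comp
    apply hf.comp
    exact ((Y_cont T c).comp (ext0_cont J)).prodMk ((Y_cont T c').comp (ext0_cont J))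
  obtain ⟨H0, hH0, h⟩ := weylC hJsf ⟨_, hcont⟩ ε hε
  refine ⟨H0, hH0, fun H hH X => ?_⟩
  have key := h H hH X
  simp only [ContinuousMap.coe_mk] at key
  have e1 : ∫ z : J → UnitAddCircle, ((f (Y T c (ext0 J z), Y T c' (ext0 J z)) : ℝ) : ℂ) =
      ((∫ ω, f (Y T c ω, Y T c' ω) ∂PP : ℝ) : ℂ) := by
    rw [integral_complex_ofReal]
    congr 1
    have h1 := integral_restrict_infinitePi (fun _ : ℕ => (volume : Measure UnitAddCircle)) (s := J)
      (f := fun z : J → UnitAddCircle => f (Y T c (ext0 J z), Y T c' (ext0 J z)))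
      (by
        apply Continuous.aestronglyMeasurable
        exact hf.comp (((Y_cont T c).comp (ext0_cont J)).prodMk ((Y_cont T c').comp (ext0_cont J))))
    rw [volume_pi]
    rw [← h1]
    unfold PP
    apply integral_congr_ae
    refine Eventually.of_forall (fun ω => ?_)
    have hdep : ∀ c'' : ℕ → ℂ, Y T c'' (ext0 J (J.restrict ω)) = Y T c'' ω := by
      intro c''
      apply Y_dep (A := J) (T := T) (fun m hm => Finset.mem_image_of_mem _ hm) c''
      intro i hi
      simp [ext0, hi]
    simp only [hdep]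
  have e2 : ∀ R : ℝ, ∀ c'' : ℕ → ℂ, Y T c'' (ext0 J (shJ J R)) = Y T c'' (sh R) := by
    intro R c''
    apply Y_dep (A := J) (T := T) (fun m hm => Finset.mem_image_of_mem _ hm) c''
    intro i hi
    simp only [ext0, hi, dite_true, shJ, sh]
  simp only [e2, e1] at key
  rw [intervalIntegral.integral_ofReal, ← Complex.ofReal_mul, ← Complex.ofReal_sub, Complex.norm_real, Real.norm_eq_abs] at key
  exact key

end Pool.Agent.NH96.SG
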