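import Mathlib
import Pool.Agent.H383.LS

/-! A large sieve inequality in continuous time for the frequencies `√m`. -/

open MeasureTheory Filter Topology Finset
open Pool.Agent.H383.Gauss

namespace Pool.Agent.NH96.SG

/-- the exponential sum -/
noncomputable def ES (s : Finset ℕ) (b : ℕ → ℂ) (R : ℝ) : ℂ :=
  ∑ m ∈ s, b m * Complex.exp (((2 * Real.pi * (R * √(m:ℝ)) : ℝ) : ℂ) * Complex.I)

lemma ES_cont (s : Finset ℕ) (b : ℕ → ℂ) : Continuous (ES s b) := by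
  unfold ES
  exact continuous_finsetSum _ (fun m _ => by fun_prop)

lemma count_near {s : Finset ℕ} {H : ℝ} (hH : 1 ≤ H) (m : ℕ) [DecidablePred (fun m' : ℕ => |√(m:ℝ) - √(m':ℝ)| ≤ 1/(2*H))] :
    ((s.filter (fun m' : ℕ => |√(m:ℝ) - √(m':ℝ)| ≤ 1/(2*H))).card : ℝ) ≤ 2 + 2 * √(m:ℝ) / H := by
  have hH0 : 0 < H := by linarith
  set L : ℝ := √(m:ℝ) / H + 1/4 with hL
  have hL0 : 0 ≤ L := by positivity
  have hsub : s.filter (fun m' : ℕ => |√(m:ℝ) - √(m':ℝ)| ≤ 1/(2*H)) ⊆ Finset.Icc (m - ⌊L⌋₊) (m + ⌊L⌋₊) := by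
    intro m' hm'
    rw [Finset.mem_filter] at hm'
    have h1 := hm'.2
    have hs1 := Real.sqrt_nonneg (m:ℝ)
    have hs2 := Real.sqrt_nonneg (m':ℝ)
    have e1 := Real.sq_sqrt (Nat.cast_nonneg (α := ℝ) m)
    have e2 := Real.sq_sqrt (Nat.cast_nonneg (α := ℝ) m')
    have h2 : √(m':ℝ) ≤ √(m:ℝ) + 1/(2*H) := by
      rw [abs_le] at h1; linarith [h1.1]
    have h3 : |(m:ℝ) - m'| ≤ L := by
      have e3 : (m:ℝ) - m' = (√(m:ℝ) - √(m':ℝ)) * (√(m:ℝ) + √(m':ℝ)) := by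
        nlinarith
      rw [e3, abs_mul, abs_of_nonneg (by positivity : 0 ≤ √(m:ℝ) + √(m':ℝ))]
      have h4 : √(m:ℝ) + √(m':ℝ) ≤ 2 * √(m:ℝ) + 1/(2*H) := by linarith
      have h5 : 1/(2*H) ≤ 1/2 := by
        apply one_div_le_one_div_of_le (by norm_num); linarith
      calc |√(m:ℝ) - √(m':ℝ)| * (√(m:ℝ) + √(m':ℝ)) ≤ (1/(2*H)) * (2 * √(m:ℝ) + 1/(2*H)) := by gcongr
        _ = √(m:ℝ)/H + (1/(2*H)) * (1/(2*H)) := by field_simp
        _ ≤ √(m:ℝ)/H + (1/2) * (1/2) := by gcongr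
        _ = L := by rw [hL]; norm_num
    rw [Finset.mem_Icc]
    rw [abs_le] at h3
    rcases le_total m m' with h | h
    · refine ⟨by omega, ?_⟩
      have h6 : ((m' - m : ℕ) : ℝ) ≤ L := by
        rw [Nat.cast_sub h]; linarith [h3.1]
      have h7 : m' - m ≤ ⌊L⌋₊ := Nat.le_floor h6
      omega
    · refine ⟨?_, by omega⟩
      have h6 : ((m - m' : ℕ) : ℝ) ≤ L := by
        rw [Nat.cast_sub h]; linarith [h3.2]
      have h7 : m - m' ≤ ⌊L⌋₊ := Nat.le_floor h6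
      omega
  have hc := Finset.card_le_card hsub
  have hc2 : (Finset.Icc (m - ⌊L⌋₊) (m + ⌊L⌋₊)).card ≤ 2 * ⌊L⌋₊ + 1 := by
    rw [Nat.card_Icc]; omega
  have h8 : ((s.filter (fun m' : ℕ => |√(m:ℝ) - √(m':ℝ)| ≤ 1/(2*H))).card : ℝ) ≤ 2 * (⌊L⌋₊ : ℝ) + 1 := by
    exact_mod_cast hc.trans hc2
  have h9 := Nat.floor_le hL0
  have e : 2 * √(m:ℝ) / H = 2 * (√(m:ℝ) / H) := by ring
  rw [e]
  rw [hL] at h9
  linarith

/-- the large sieve in continuous time -/
theorem lsc {s : Finset ℕ} (b : ℕ → ℂ) {H : ℝ} (hH : 1 ≤ H) (X : ℝ) :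
    ∫ R in X..(X+H), ‖ES s b R‖^2 ≤ 32 * ∑ m ∈ s, ‖b m‖^2 * (H + √(m:ℝ)) := by
  classical
  have hH0 : 0 < H := by linarith
  obtain ⟨Y, hY⟩ : ∃ Y : ℝ, Y = √((s.sup id : ℕ) : ℝ) + 1 := ⟨_, rfl⟩
  have hY1 : 1 ≤ Y := by rw [hY]; have := Real.sqrt_nonneg ((s.sup id : ℕ) : ℝ); linarith
  have hYs : ∀ m ∈ s, √(m:ℝ) ≤ Y := by
    intro m hm
    have h1 : m ≤ s.sup id := Finset.le_sup (f := id) hm
    have h2 : √(m:ℝ) ≤ √((s.sup id : ℕ) : ℝ) := Real.sqrt_le_sqrt (by exact_mod_cast h1)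
    rw [hY]; linarith
  obtain ⟨α, hα⟩ : ∃ α : ℝ, α = 1/(4*Y) := ⟨_, rfl⟩
  have hα0 : 0 < α := by rw [hα]; positivity
  have hα1 : α ≤ 1 := by
    rw [hα, div_le_one (by positivity)]; linarith
  obtain ⟨N, hN⟩ : ∃ N : ℕ, N = ⌈H/α⌉₊ := ⟨_, rfl⟩
  have hN1 : 1 ≤ N := by
    rw [hN, Nat.one_le_iff_ne_zero, Nat.ne_zero_iff_zero_lt, Nat.ceil_pos]; positivity
  have hN1' : (1:ℝ) ≤ N := by exact_mod_cast hN1
  have hNα : H ≤ N * α := by
    have h1 := Nat.le_ceil (H/α)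
    rw [← hN, div_le_iff₀ hα0] at h1
    exact h1
  have hNα2 : N * α ≤ 2 * H := by
    have h1 := Nat.ceil_lt_add_one (a := H/α) (by positivity)
    rw [← hN] at h1
    have h2 : N * α ≤ (H/α + 1) * α := by gcongr
    have h3 : (H/α + 1) * α = H + α := by field_simp
    linarith
  set F : ℝ → ℝ := fun R => ‖ES s b R‖^2 with hF
  have hFc : Continuous F := ((ES_cont s b).norm).pow 2
  have hF0 : ∀ R, 0 ≤ F R := fun R => sq_nonneg _
  -- enlarge the window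
  have h1 : ∫ R in X..(X+H), F R ≤ ∫ R in X..(X + N * α), F R := by
    apply intervalIntegral.integral_mono_interval le_rfl (by linarith) (by linarith)
      (Eventually.of_forall hF0) (hFc.intervalIntegrable _ _)
  -- split
  have h2 : ∫ R in X..(X + N * α), F R = ∑ n ∈ range N, ∫ β in (0:ℝ)..α, F (X + n * α + β) := by
    have h3 := intervalIntegral.sum_integral_adjacent_intervals (a := fun n : ℕ => X + n * α) (n := N) (f := F) (μ := volume)
      (fun k _ => hFc.intervalIntegrable _ _)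
    simp only [Nat.cast_zero, zero_mul, add_zero] at h3
    rw [← h3]
    apply Finset.sum_congr rfl
    intro n _
    rw [intervalIntegral.integral_comp_add_left (fun x => F x)]
    congr 1
    · ring
    · push_cast; ring
  have h3 : ∑ n ∈ range N, ∫ β in (0:ℝ)..α, F (X + n * α + β) = ∫ β in (0:ℝ)..α, ∑ n ∈ range N, F (X + n * α + β) := by
    rw [intervalIntegral.integral_finsetSum]
    intro n _
    exact (hFc.comp (by fun_prop)).intervalIntegrable _ _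
  set D : ℝ := ∑ m ∈ s, ‖b m‖^2 * (2 + 2 * √(m:ℝ) / H) with hD
  have hnear : ∀ m ∈ s, ∀ m' ∈ s, near N (α * √(m:ℝ) - α * √(m':ℝ)) ≤ if |√(m:ℝ) - √(m':ℝ)| ≤ 1/(2*H) then 1 else 0 := by
    intro m hm m' hm'
    by_cases h : |√(m:ℝ) - √(m':ℝ)| ≤ 1/(2*H)
    · rw [if_pos h]; unfold near; split_ifs <;> norm_num
    · rw [if_neg h]
      unfold near
      rw [if_neg]
      rintro ⟨k, hk⟩
      apply h
      have a1 : α * √(m:ℝ) ≤ 1/4 := by
        calc α * √(m:ℝ) ≤ α * Y := by gcongr; exact hYs m hm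
          _ = 1/4 := by rw [hα]; field_simp
      have a2 : α * √(m':ℝ) ≤ 1/4 := by
        calc α * √(m':ℝ) ≤ α * Y := by gcongr; exact hYs m' hm'
          _ = 1/4 := by rw [hα]; field_simp
      have a3 : 0 ≤ α * √(m:ℝ) := by positivity
      have a4 : 0 ≤ α * √(m':ℝ) := by positivity
      have a5 : 1/(2*(N:ℝ)) ≤ 1/2 := by
        apply one_div_le_one_div_of_le (by norm_num); linarith
      have hk0 : k = 0 := by
        rw [abs_le] at hk
        have b1 : (k:ℝ) < 1 := by linarith [hk.1]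
        have b2 : (-1:ℝ) < k := by linarith [hk.2]
        have b3 : k < 1 := by exact_mod_cast b1
        have b4 : -1 < k := by exact_mod_cast b2
        omega
      rw [hk0, Int.cast_zero, sub_zero, ← mul_sub, abs_mul, abs_of_pos hα0] at hk
      have a6 : α * |√(m:ℝ) - √(m':ℝ)| * (2 * N) ≤ 1 := by
        rw [le_div_iff₀ (by positivity)] at hk; exact hk
      rw [le_div_iff₀ (by positivity)]
      have a7 := abs_nonneg (√(m:ℝ) - √(m':ℝ))
      calc |√(m:ℝ) - √(m':ℝ)| * (2*H) ≤ |√(m:ℝ) - √(m':ℝ)| * (2*(N*α)) := by gcongr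
        _ = α * |√(m:ℝ) - √(m':ℝ)| * (2 * N) := by ring
        _ ≤ 1 := a6
  have hdouble : ∑ m ∈ s, ∑ m' ∈ s, ‖b m‖ * ‖b m'‖ * near N (α * √(m:ℝ) - α * √(m':ℝ)) ≤ D := by
    set I : ℕ → ℕ → ℝ := fun m m' => if |√(m:ℝ) - √(m':ℝ)| ≤ 1/(2*H) then 1 else 0 with hI
    have hI0 : ∀ m m', 0 ≤ I m m' := by intro m m'; simp only [hI]; split_ifs <;> norm_num
    have hIs : ∀ m m', I m m' = I m' m := by
      intro m m'; simp only [hI]; rw [abs_sub_comm]
    have hrow : ∀ m, ∑ m' ∈ s, I m m' ≤ 2 + 2 * √(m:ℝ) / H := by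
      intro m
      simp only [hI]
      rw [← Finset.sum_filter, Finset.sum_const, nsmul_eq_mul, mul_one]
      exact count_near hH m
    calc ∑ m ∈ s, ∑ m' ∈ s, ‖b m‖ * ‖b m'‖ * near N (α * √(m:ℝ) - α * √(m':ℝ))
        ≤ ∑ m ∈ s, ∑ m' ∈ s, ((‖b m‖^2 * I m m') / 2 + (‖b m'‖^2 * I m m') / 2) := by
          apply Finset.sum_le_sum; intro m hm
          apply Finset.sum_le_sum; intro m' hm'
          have c1 := hnear m hm m' hm'
          have c2 := hI0 m m'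
          have c3 : 0 ≤ ‖b m‖ * ‖b m'‖ := by positivity
          calc ‖b m‖ * ‖b m'‖ * near N (α * √(m:ℝ) - α * √(m':ℝ)) ≤ ‖b m‖ * ‖b m'‖ * I m m' := by gcongr
            _ ≤ ((‖b m‖^2 + ‖b m'‖^2)/2) * I m m' := by
                gcongr
                nlinarith [sq_nonneg (‖b m‖ - ‖b m'‖)]
            _ = _ := by ring
      _ = ∑ m ∈ s, ‖b m‖^2 * ∑ m' ∈ s, I m m' := by
          have d1 : ∑ m ∈ s, ∑ m' ∈ s, ((‖b m‖^2 * I m m') / 2 + (‖b m'‖^2 * I m m') / 2) =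
              (∑ m ∈ s, ∑ m' ∈ s, (‖b m‖^2 * I m m')) / 2 + (∑ m ∈ s, ∑ m' ∈ s, (‖b m'‖^2 * I m m')) / 2 := by
            simp only [Finset.sum_add_distrib, Finset.sum_div]
          rw [d1]
          have d2 : ∑ m ∈ s, ∑ m' ∈ s, (‖b m'‖^2 * I m m') = ∑ m ∈ s, ∑ m' ∈ s, (‖b m‖^2 * I m m') := by
            rw [Finset.sum_comm]
            apply Finset.sum_congr rfl; intro m _
            apply Finset.sum_congr rfl; intro m' _
            rw [hIs]
          rw [d2]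
          have d3 : ∑ m ∈ s, ∑ m' ∈ s, (‖b m‖^2 * I m m') = ∑ m ∈ s, ‖b m‖^2 * ∑ m' ∈ s, I m m' := by
            apply Finset.sum_congr rfl; intro m _
            rw [Finset.mul_sum]
          rw [d3]; ring
      _ ≤ D := by
          rw [hD]
          apply Finset.sum_le_sum; intro m _
          gcongr
          exact hrow m
  have hpt : ∀ β : ℝ, ∑ n ∈ range N, F (X + n * α + β) ≤ 8 * N * D := by
    intro β
    have h4 := ls s (fun m => b m * Complex.exp (((2 * Real.pi * ((X + β) * √(m:ℝ)) : ℝ) : ℂ) * Complex.I)) (fun m => α * √(m:ℝ)) hN1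
    have h5 : ∀ n : ℕ, F (X + n * α + β) = ‖∑ m ∈ s, b m * Complex.exp (((2 * Real.pi * ((X + β) * √(m:ℝ)) : ℝ) : ℂ) * Complex.I) *
        Complex.exp (((2 * Real.pi * (n * (α * √(m:ℝ))) : ℝ) : ℂ) * Complex.I)‖^2 := by
      intro n
      simp only [hF]
      unfold ES
      congr 2
      apply Finset.sum_congr rfl
      intro m _
      rw [mul_assoc (b m), ← Complex.exp_add]
      congr 2
      push_cast; ring
    simp only [h5]
    have hnorm : ∀ m : ℕ, ‖b m * Complex.exp (((2 * Real.pi * ((X + β) * √(m:ℝ)) : ℝ) : ℂ) * Complex.I)‖ = ‖b m‖ := by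
      intro m; rw [norm_mul, Complex.norm_exp_ofReal_mul_I, mul_one]
    simp only [hnorm] at h4
    have h6 : ∑ n ∈ range N, ‖∑ m ∈ s, b m * Complex.exp (((2 * Real.pi * ((X + β) * √(m:ℝ)) : ℝ) : ℂ) * Complex.I) *
        Complex.exp (((2 * Real.pi * (n * (α * √(m:ℝ))) : ℝ) : ℂ) * Complex.I)‖^2 ≤
        ∑ n ∈ range (N+1), ‖∑ m ∈ s, b m * Complex.exp (((2 * Real.pi * ((X + β) * √(m:ℝ)) : ℝ) : ℂ) * Complex.I) *
        Complex.exp (((2 * Real.pi * (n * (α * √(m:ℝ))) : ℝ) : ℂ) * Complex.I)‖^2 := by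
      apply Finset.sum_le_sum_of_subset_of_nonneg (Finset.range_subset_range.mpr (Nat.le_succ N))
      intro n _ _; positivity
    refine (h6.trans h4).trans ?_
    gcongr
  have hD0 : 0 ≤ D := by rw [hD]; exact Finset.sum_nonneg (fun m _ => by positivity)
  have h4 : ∫ β in (0:ℝ)..α, ∑ n ∈ range N, F (X + n * α + β) ≤ α * (8 * N * D) := by
    have hc : Continuous (fun β => ∑ n ∈ range N, F (X + n * α + β)) :=
      continuous_finsetSum _ (fun n _ => hFc.comp (by fun_prop))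
    calc ∫ β in (0:ℝ)..α, ∑ n ∈ range N, F (X + n * α + β) ≤ ∫ _β in (0:ℝ)..α, 8 * N * D :=
          intervalIntegral.integral_mono_on hα0.le (hc.intervalIntegrable _ _) (continuous_const.intervalIntegrable _ _) (fun β _ => hpt β)
      _ = α * (8 * N * D) := by rw [intervalIntegral.integral_const, sub_zero, smul_eq_mul]
  calc ∫ R in X..(X+H), ‖ES s b R‖^2 ≤ α * (8 * N * D) := by
        rw [h2, h3] at h1; exact h1.trans h4
    _ = 8 * (N * α) * D := by ring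
    _ ≤ 8 * (2 * H) * D := by gcongr
    _ = 32 * ∑ m ∈ s, ‖b m‖^2 * (H + √(m:ℝ)) := by
        rw [hD, Finset.mul_sum, Finset.mul_sum]
        apply Finset.sum_congr rfl
        intro m _
        field_simp
        ring

end Pool.Agent.NH96.SG
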