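import Mathlib
import Pool.Agent.H383.GenW
import Pool.Agent.H383.Decay
import Pool.Agent.NH96.SG.LSc
import Pool.Agent.NH96.SG.CW

/-! Mean square approximation in short windows. -/

open MeasureTheory Filter Topology
open Pool.Agent.H383.AP Pool.Agent.H383.Gauss
open Pool.Agent.H383.Gen (Bd U LB)
open Pool.Agent.H383.GW (Wt wt WS WS_tail WS_low er Sand)

namespace Pool.Agent.NH96.SG

/-- the data -/
structure Dt (E : ℝ → ℝ) (a : ℕ → ℝ) (φ : ℝ) (w : ℝ → ℂ) (κ₁ κ₂ C0 : ℝ) (p : ℕ) : Prop where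
  bd : Bd a
  z : a 0 = 0
  wt : Wt w
  pos : 0 < C0
  sand : Sand E a φ w κ₁ κ₂ C0
  lb : LB a
  sq : ∃ B : ℝ, 0 < B ∧ ∀ N : ℕ, ∑ m ∈ Finset.Icc 1 N, (a m)^2 * √(m:ℝ) ≤ B * (1 + Real.log N)^p

/-- the coefficients -/
noncomputable def c0 (a : ℕ → ℝ) (φ : ℝ) (m : ℕ) : ℂ := (a m : ℂ) * Complex.exp (((-φ : ℝ) : ℂ) * Complex.I)

lemma norm_c0 (a : ℕ → ℝ) (φ : ℝ) (m : ℕ) : ‖c0 a φ m‖ = |a m| := by
  unfold c0
  rw [norm_mul, Complex.norm_exp_ofReal_mul_I, mul_one, Complex.norm_real, Real.norm_eq_abs]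

lemma U_eq_Y (a : ℕ → ℝ) (φ R : ℝ) (M : ℕ) : U a φ R M = Y (Finset.Icc 1 (M^2)) (c0 a φ) (sh R) := by
  unfold U Y
  apply Finset.sum_congr rfl
  intro m _
  rw [ch_sh]
  unfold c0
  rw [mul_assoc ((a m : ℝ) : ℂ), ← Complex.exp_add, Complex.re_ofReal_mul]
  congr 1
  have e : ((-φ : ℝ) : ℂ) * Complex.I + ((2 * Real.pi * (R * √(m:ℝ)) : ℝ) : ℂ) * Complex.I =
      ((2 * Real.pi * (R * √(m:ℝ)) - φ : ℝ) : ℂ) * Complex.I := by push_cast; ring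
  rw [e, Complex.exp_ofReal_mul_I_re]

variable {E : ℝ → ℝ} {a : ℕ → ℝ} {φ : ℝ} {w : ℝ → ℂ} {κ₁ κ₂ C0 : ℝ} {p : ℕ}

lemma Dt.cb (hD : Dt E a φ w κ₁ κ₂ C0 p) : ∃ C c1 : ℝ, CB (c0 a φ) C c1 := by
  obtain ⟨C, hC, h1⟩ := hD.bd
  obtain ⟨c1, hc1, h2⟩ := hD.lb
  refine ⟨C, c1, hC, hc1, ?_, ?_⟩
  · intro m hm
    rw [norm_c0]
    refine (h1 m hm).trans ?_
    have hm0 : (0:ℝ) < m := by exact_mod_cast hm
    have hm1 : (1:ℝ) ≤ m := by exact_mod_cast hm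
    have e : (√(m:ℝ)) ^ (-(37/25):ℝ) = (m:ℝ) ^ (-(37/50):ℝ) := by
      rw [Real.sqrt_eq_rpow, ← Real.rpow_mul hm0.le]; norm_num
    rw [e]
    have : (m:ℝ) ^ (-(37/50):ℝ) ≤ (m:ℝ) ^ (-(7/10):ℝ) := Real.rpow_le_rpow_of_exponent_le hm1 (by norm_num)
    gcongr
  · intro q hq h4
    rw [norm_c0]
    exact (h2 q hq h4).trans (le_abs_self _)

/-- the coefficients of the middle range -/
noncomputable def bm (a : ℕ → ℝ) (φ : ℝ) (w : ℝ → ℂ) (κ δ : ℝ) (m : ℕ) : ℂ :=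
  (a m : ℂ) * Complex.exp (((2 * Real.pi * (κ * δ * √(m:ℝ)) - φ : ℝ) : ℂ) * Complex.I) * w (√(m:ℝ) * δ)

lemma norm_bm (hw : Wt w) {κ δ : ℝ} (hδ : 0 < δ) {m : ℕ} (hm : 1 ≤ m) : ‖bm a φ w κ δ m‖ ≤ |a m| := by
  unfold bm
  rw [norm_mul, norm_mul, Complex.norm_exp_ofReal_mul_I, mul_one, Complex.norm_real, Real.norm_eq_abs]
  have hm0 : (0:ℝ) < m := by exact_mod_cast hm
  have h := hw.one (√(m:ℝ) * δ) (by positivity)
  calc |a m| * ‖w (√(m:ℝ) * δ)‖ ≤ |a m| * 1 := mul_le_mul_of_nonneg_left h (abs_nonneg _)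
    _ = |a m| := mul_one _

lemma mid_eq (κ δ R : ℝ) (s : Finset ℕ) : ∑ m ∈ s, wt a φ w (R + κ * δ) δ m = (ES s (bm a φ w κ δ) R).re := by
  unfold ES
  rw [Complex.re_sum]
  apply Finset.sum_congr rfl
  intro m _
  unfold wt bm
  have e : (a m : ℂ) * Complex.exp (((2 * Real.pi * (κ * δ * √(m:ℝ)) - φ : ℝ) : ℂ) * Complex.I) * w (√(m:ℝ) * δ) *
      Complex.exp (((2 * Real.pi * (R * √(m:ℝ)) : ℝ) : ℂ) * Complex.I) =
      (a m : ℂ) * (Complex.exp (((2 * Real.pi * ((R + κ * δ) * √(m:ℝ)) - φ : ℝ) : ℂ) * Complex.I) * w (√(m:ℝ) * δ)) := by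
    have e2 : Complex.exp (((2 * Real.pi * ((R + κ * δ) * √(m:ℝ)) - φ : ℝ) : ℂ) * Complex.I) =
        Complex.exp (((2 * Real.pi * (κ * δ * √(m:ℝ)) - φ : ℝ) : ℂ) * Complex.I) *
        Complex.exp (((2 * Real.pi * (R * √(m:ℝ)) : ℝ) : ℂ) * Complex.I) := by
      rw [← Complex.exp_add]; congr 1; push_cast; ring
    rw [e2]; ring
  rw [e, Complex.re_ofReal_mul]

/-- pointwise comparison of the smoothed sum with the model polynomial -/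
lemma ws_point (hD : Dt E a φ w κ₁ κ₂ C0 p) (κ : ℝ) (M : ℕ) : ∃ K : ℝ, 0 < K ∧ ∀ X R : ℝ, 1 ≤ X → (M:ℝ) ≤ X →
    |WS a φ w (R + κ * X ^ (-(13/25):ℝ)) (X ^ (-(13/25):ℝ)) - U a φ R M| ≤
      K * X ^ (-(1/100):ℝ) + ‖ES (Finset.Ioc (M^2) (⌈X⌉₊^2)) (bm a φ w κ (X ^ (-(13/25):ℝ))) R‖ := by
  obtain ⟨C', hC', htail⟩ := WS_tail (φ := φ) hD.bd hD.z hD.wt
  obtain ⟨K, hK, hlow⟩ := WS_low a φ hD.wt κ M
  refine ⟨K + C', by positivity, fun X R hX hMX => ?_⟩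
  have hX0 : 0 < X := by linarith
  set δ := X ^ (-(13/25):ℝ) with hδ
  have hδ0 : 0 < δ := by rw [hδ]; positivity
  set Yn := ⌈X⌉₊ with hYn
  have hY1 : 1 ≤ Yn := by rw [hYn, Nat.one_le_iff_ne_zero, Nat.ne_zero_iff_zero_lt, Nat.ceil_pos]; exact hX0
  have hXY : X ≤ Yn := Nat.le_ceil X
  have hMY : M ≤ Yn := by
    have : (M:ℝ) ≤ Yn := hMX.trans hXY
    exact_mod_cast this
  have h1 := htail δ hδ0 (R + κ * δ) Yn hY1
  have h2 := hlow R δ hδ0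
  have hsplit : ∑ m ∈ Finset.Icc 1 (Yn^2), wt a φ w (R + κ * δ) δ m =
      ∑ m ∈ Finset.Icc 1 (M^2), wt a φ w (R + κ * δ) δ m + ∑ m ∈ Finset.Ioc (M^2) (Yn^2), wt a φ w (R + κ * δ) δ m := by
    rw [← Finset.sum_union]
    · apply Finset.sum_congr _ (fun _ _ => rfl)
      ext m
      have := Nat.pow_le_pow_left hMY 2
      rw [Finset.mem_union, Finset.mem_Icc, Finset.mem_Icc, Finset.mem_Ioc]
      omega
    · rw [Finset.disjoint_left]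
      intro m hm hm'
      rw [Finset.mem_Icc] at hm
      rw [Finset.mem_Ioc] at hm'
      omega
  rw [hsplit, mid_eq κ δ R (Finset.Ioc (M^2) (Yn^2))] at h1
  have h3 := Complex.abs_re_le_norm (ES (Finset.Ioc (M^2) (Yn^2)) (bm a φ w κ δ) R)
  have h4 : δ ^ (-(3/2):ℝ) * (Yn:ℝ) ^ (-(24/25):ℝ) ≤ X ^ (-(1/100):ℝ) := by
    have a1 : δ ^ (-(3/2):ℝ) = X ^ (39/50:ℝ) := by
      rw [hδ, ← Real.rpow_mul hX0.le]; norm_num
    have a2 : (Yn:ℝ) ^ (-(24/25):ℝ) ≤ X ^ (-(24/25):ℝ) := Real.rpow_le_rpow_of_nonpos hX0 hXY (by norm_num)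
    calc δ ^ (-(3/2):ℝ) * (Yn:ℝ) ^ (-(24/25):ℝ) ≤ X ^ (39/50:ℝ) * X ^ (-(24/25):ℝ) := by rw [a1]; gcongr
      _ = X ^ (-(9/50):ℝ) := by rw [← Real.rpow_add hX0]; norm_num
      _ ≤ X ^ (-(1/100):ℝ) := Real.rpow_le_rpow_of_exponent_le hX (by norm_num)
  have h5 : δ ≤ X ^ (-(1/100):ℝ) := Real.rpow_le_rpow_of_exponent_le hX (by norm_num)
  have h6 : C' * δ ^ (-(3/2):ℝ) * (Yn:ℝ) ^ (-(24/25):ℝ) ≤ C' * X ^ (-(1/100):ℝ) := by
    rw [mul_assoc]; gcongr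
  have h7 : K * δ ≤ K * X ^ (-(1/100):ℝ) := by gcongr
  rw [abs_le] at h1 h2 h3 ⊢
  constructor
  · linarith [h1.1, h2.1, h3.1]
  · linarith [h1.2, h2.2, h3.2]

lemma er_le {X R : ℝ} (hX : 1 ≤ X) (h1 : X ≤ R) (h2 : R ≤ 2 * X) : er R (X ^ (-(13/25):ℝ)) ≤ 4 * X ^ (-(1/100):ℝ) := by
  have hX0 : 0 < X := by linarith
  have hR0 : 0 < R := by linarith
  unfold er
  have a1 : X ^ (-(13/25):ℝ) * R ^ (51/100:ℝ) ≤ 2 * X ^ (-(1/100):ℝ) := by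
    have b1 : R ^ (51/100:ℝ) ≤ (2 * X) ^ (51/100:ℝ) := Real.rpow_le_rpow hR0.le h2 (by norm_num)
    have b2 : (2 * X) ^ (51/100:ℝ) = (2:ℝ) ^ (51/100:ℝ) * X ^ (51/100:ℝ) := Real.mul_rpow (by norm_num) hX0.le
    have b3 : (2:ℝ) ^ (51/100:ℝ) ≤ 2 := by
      calc (2:ℝ) ^ (51/100:ℝ) ≤ (2:ℝ) ^ (1:ℝ) := Real.rpow_le_rpow_of_exponent_le (by norm_num) (by norm_num)
        _ = 2 := Real.rpow_one 2
    calc X ^ (-(13/25):ℝ) * R ^ (51/100:ℝ) ≤ X ^ (-(13/25):ℝ) * (2 * X ^ (51/100:ℝ)) := by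
          rw [b2] at b1
          have : (2:ℝ) ^ (51/100:ℝ) * X ^ (51/100:ℝ) ≤ 2 * X ^ (51/100:ℝ) := by gcongr
          have := b1.trans this
          gcongr
      _ = 2 * (X ^ (-(13/25):ℝ) * X ^ (51/100:ℝ)) := by ring
      _ = 2 * X ^ (-(1/100):ℝ) := by rw [← Real.rpow_add hX0]; norm_num
  have a2 : R ^ (-(12/25):ℝ) * (X ^ (-(13/25):ℝ)) ^ (-(13/25):ℝ) ≤ X ^ (-(1/100):ℝ) := by
    have b1 : R ^ (-(12/25):ℝ) ≤ X ^ (-(12/25):ℝ) := Real.rpow_le_rpow_of_nonpos hX0 h1 (by norm_num)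
    calc R ^ (-(12/25):ℝ) * (X ^ (-(13/25):ℝ)) ^ (-(13/25):ℝ) ≤ X ^ (-(12/25):ℝ) * (X ^ (-(13/25):ℝ)) ^ (-(13/25):ℝ) := by gcongr
      _ = X ^ (-(131/625):ℝ) := by rw [← Real.rpow_mul hX0.le, ← Real.rpow_add hX0]; norm_num
      _ ≤ _ := Real.rpow_le_rpow_of_exponent_le hX (by norm_num)
  have a3 : (X ^ (-(13/25):ℝ)) ^ (2/5:ℝ) ≤ X ^ (-(1/100):ℝ) := by
    rw [← Real.rpow_mul hX0.le]
    exact Real.rpow_le_rpow_of_exponent_le hX (by norm_num)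
  linarith

lemma mid_sum (hD : Dt E a φ w κ₁ κ₂ C0 p) : ∃ B : ℝ, 0 < B ∧ ∀ (M : ℕ) (X : ℝ), 3 ≤ X → ∀ κ δ : ℝ, 0 < δ → ∀ H : ℝ, 0 < H →
    ∑ m ∈ Finset.Ioc (M^2) (⌈X⌉₊^2), ‖bm a φ w κ δ m‖^2 * (H + √(m:ℝ)) ≤
      ((∑' m, ‖c0 a φ m‖^2) - ∑ m ∈ Finset.range (M^2+1), ‖c0 a φ m‖^2) * H + B * (Real.log X)^p := by
  obtain ⟨C, c1, hcb⟩ := hD.cb
  obtain ⟨Cd, hCd, hdv⟩ := hD.sq
  refine ⟨Cd * 7^p, by positivity, fun M X hX κ δ hδ H hH => ?_⟩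
  have hsum := sq_summable hcb
  have hX0 : 0 < X := by linarith
  have hlogX : 1 ≤ Real.log X := by
    rw [Real.le_log_iff_exp_le hX0]
    have := Real.exp_one_lt_d9
    linarith
  have h1 : ∀ m ∈ Finset.Ioc (M^2) (⌈X⌉₊^2), ‖bm a φ w κ δ m‖^2 * (H + √(m:ℝ)) ≤
      ‖c0 a φ m‖^2 * H + (a m)^2 * √(m:ℝ) := by
    intro m hm
    rw [Finset.mem_Ioc] at hm
    have hm1 : 1 ≤ m := by omega
    have hm0 : (0:ℝ) < m := by exact_mod_cast hm1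
    have b1 := norm_bm (a := a) (φ := φ) (κ := κ) hD.wt hδ hm1
    have b2 : ‖bm a φ w κ δ m‖^2 ≤ |a m|^2 := pow_le_pow_left₀ (norm_nonneg _) b1 2
    rw [norm_c0]
    have hs := Real.sqrt_nonneg (m:ℝ)
    calc ‖bm a φ w κ δ m‖^2 * (H + √(m:ℝ)) ≤ |a m|^2 * (H + √(m:ℝ)) := by gcongr
      _ = |a m|^2 * H + (a m)^2 * √(m:ℝ) := by rw [sq_abs]; ring
  refine (Finset.sum_le_sum h1).trans ?_
  rw [Finset.sum_add_distrib, ← Finset.sum_mul]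
  have h2 : ∑ m ∈ Finset.Ioc (M^2) (⌈X⌉₊^2), ‖c0 a φ m‖^2 ≤ (∑' m, ‖c0 a φ m‖^2) - ∑ m ∈ Finset.range (M^2+1), ‖c0 a φ m‖^2 := by
    rw [le_sub_iff_add_le]
    have hd : Disjoint (Finset.Ioc (M^2) (⌈X⌉₊^2)) (Finset.range (M^2+1)) := by
      rw [Finset.disjoint_left]
      intro m hm hm'
      rw [Finset.mem_Ioc] at hm
      rw [Finset.mem_range] at hm'
      omega
    rw [← Finset.sum_union hd]
    exact hsum.sum_le_tsum _ (fun _ _ => sq_nonneg _)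
  have h3 : ∑ m ∈ Finset.Ioc (M^2) (⌈X⌉₊^2), (a m)^2 * √(m:ℝ) ≤ Cd * (1 + Real.log ((⌈X⌉₊^2 : ℕ) : ℝ))^p := by
    refine le_trans ?_ (hdv _)
    apply Finset.sum_le_sum_of_subset_of_nonneg
    · intro m hm
      rw [Finset.mem_Ioc] at hm
      rw [Finset.mem_Icc]
      omega
    · intro m _ _; positivity
  have h4 : 1 + Real.log ((⌈X⌉₊^2 : ℕ) : ℝ) ≤ 7 * Real.log X := by
    have c1 : ((⌈X⌉₊ : ℕ) : ℝ) ≤ 2 * X := by
      have := Nat.ceil_lt_add_one hX0.le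
      linarith
    have c2 : (0:ℝ) < ((⌈X⌉₊ : ℕ) : ℝ) := by
      have := Nat.ceil_pos.mpr hX0
      exact_mod_cast this
    have c3 : Real.log ((⌈X⌉₊^2 : ℕ) : ℝ) = 2 * Real.log ((⌈X⌉₊ : ℕ) : ℝ) := by
      push_cast; rw [Real.log_pow]; norm_num
    have c4 : Real.log ((⌈X⌉₊ : ℕ) : ℝ) ≤ Real.log 2 + Real.log X := by
      rw [← Real.log_mul (by norm_num) hX0.ne']
      exact Real.log_le_log c2 c1
    have c5 : Real.log 2 ≤ 1 := by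
      have := Real.log_two_lt_d9; linarith
    rw [c3]
    linarith
  have h5 : 0 ≤ 1 + Real.log ((⌈X⌉₊^2 : ℕ) : ℝ) := by
    have := Real.log_natCast_nonneg (⌈X⌉₊^2)
    linarith
  have h6 : (1 + Real.log ((⌈X⌉₊^2 : ℕ) : ℝ))^p ≤ (7 * Real.log X)^p := pow_le_pow_left₀ h5 h4 p
  calc _ ≤ ((∑' m, ‖c0 a φ m‖^2) - ∑ m ∈ Finset.range (M^2+1), ‖c0 a φ m‖^2) * H + Cd * (7 * Real.log X)^p := by
        apply add_le_add
        · exact mul_le_mul_of_nonneg_right h2 hH.le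
        · exact h3.trans (mul_le_mul_of_nonneg_left h6 hCd.le)
    _ = _ := by rw [mul_pow]; ring

/-- mean square approximation in all windows longer than a power of the logarithm -/
theorem app (hD : Dt E a φ w κ₁ κ₂ C0 p) {η : ℝ} (hη : 0 < η) : ∃ K : ℝ, 0 < K ∧ ∃ M0 : ℕ, ∀ M : ℕ, M0 ≤ M → ∃ X0 : ℝ, 4 ≤ X0 ∧
    ∀ X : ℝ, X0 ≤ X → ∀ H : ℝ, K * (Real.log X)^p ≤ H → H ≤ X →
    ∃ G : ℝ → ℝ, Continuous G ∧ (∀ R, 0 ≤ G R) ∧ (∀ R, X ≤ R → R ≤ X + H → (E R - U a φ R M)^2 ≤ G R) ∧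
      ∫ R in X..(X+H), G R ≤ η * H := by
  obtain ⟨C, c1, hcb⟩ := hD.cb
  obtain ⟨B, hB, hmid⟩ := mid_sum hD
  obtain ⟨K, hK⟩ : ∃ K, K = 768 * B / η + 1 := ⟨_, rfl⟩
  have hK0 : 0 < K := by rw [hK]; positivity
  set tl : ℕ → ℝ := fun N => (∑' m, ‖c0 a φ m‖^2) - ∑ m ∈ Finset.range (N+1), ‖c0 a φ m‖^2 with htl
  have htl0 : Tendsto tl atTop (𝓝 0) := tail_tendsto (sq_summable hcb)
  obtain ⟨M0, hM0⟩ := eventually_atTop.mp (htl0.eventually (gt_mem_nhds (show (0:ℝ) < η/768 by positivity)))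
  refine ⟨K, hK0, M0, fun M hM => ?_⟩
  obtain ⟨K1, hK1, h1⟩ := ws_point hD κ₁ M
  obtain ⟨K2, hK2, h2⟩ := ws_point hD κ₂ M
  obtain ⟨K3, hK3⟩ : ∃ K3, K3 = K1 + K2 + 4 * C0 := ⟨_, rfl⟩
  have hC0 := hD.pos
  have hK30 : 0 < K3 := by rw [hK3]; positivity
  have ht : Tendsto (fun X : ℝ => 3 * (K3 * X ^ (-(1/100):ℝ))^2) atTop (𝓝 0) := by
    have a1 := (tendsto_rpow_neg_atTop (show (0:ℝ) < 1/100 by norm_num)).const_mul K3
    have a2 := (a1.pow 2).const_mul 3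
    simpa using a2
  obtain ⟨X1, hX1⟩ := eventually_atTop.mp (ht.eventually (gt_mem_nhds (show (0:ℝ) < η/2 by positivity)))
  refine ⟨max (max X1 4) M, by
    exact (le_max_right _ _).trans (le_max_left _ _), fun X hX H hH1 hH2 => ?_⟩
  have hXX1 : X1 ≤ X := (le_max_left _ _).trans ((le_max_left _ _).trans hX)
  have hX4 : 4 ≤ X := (le_max_right _ _).trans ((le_max_left _ _).trans hX)
  have hMX : (M:ℝ) ≤ X := (le_max_right _ _).trans hX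
  have hX0 : 0 < X := by linarith
  have hlogX : 1 ≤ Real.log X := by
    rw [Real.le_log_iff_exp_le hX0]
    have := Real.exp_one_lt_d9
    linarith
  have hlog4 : 1 ≤ (Real.log X)^p := one_le_pow₀ hlogX
  have hH1' : 1 ≤ H := by
    have : 1 ≤ K := by rw [hK]; have : 0 ≤ 768 * B / η := by positivity
                       linarith
    calc (1:ℝ) = 1 * 1 := by ring
      _ ≤ K * (Real.log X)^p := by gcongr
      _ ≤ H := hH1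
  have hH0 : 0 < H := by linarith
  set δ := X ^ (-(13/25):ℝ) with hδ
  have hδ0 : 0 < δ := by rw [hδ]; positivity
  have hδ12 : δ ≤ 1/2 := by
    rw [hδ]
    have b1 : X ^ (-(13/25):ℝ) ≤ 4 ^ (-(13/25):ℝ) := Real.rpow_le_rpow_of_nonpos (by norm_num) hX4 (by norm_num)
    have b2 : (4:ℝ) ^ (-(13/25):ℝ) ≤ 4 ^ (-(1/2):ℝ) := Real.rpow_le_rpow_of_exponent_le (by norm_num) (by norm_num)
    have b3 : (4:ℝ) ^ (-(1/2):ℝ) = 1/2 := by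
      rw [Real.rpow_neg (by norm_num), ← Real.sqrt_eq_rpow, show (4:ℝ) = 2^2 by norm_num, Real.sqrt_sq (by norm_num)]
      norm_num
    linarith
  set s := Finset.Ioc (M^2) (⌈X⌉₊^2) with hs
  set e1 := ES s (bm a φ w κ₁ δ) with he1
  set e2 := ES s (bm a φ w κ₂ δ) with he2
  have ce1 : Continuous e1 := ES_cont _ _
  have ce2 : Continuous e2 := ES_cont _ _
  refine ⟨fun R => 3 * (K3 * X ^ (-(1/100):ℝ))^2 + 3 * ‖e1 R‖^2 + 3 * ‖e2 R‖^2, by fun_prop, fun R => by positivity, ?_, ?_⟩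
  · intro R hR1 hR2
    have hR2' : R ≤ 2 * X := by linarith
    have c1 := h1 X R (by linarith) hMX
    have c2 := h2 X R (by linarith) hMX
    have c3 := er_le (X := X) (R := R) (by linarith) hR1 hR2'
    have c4 := hD.sand.up R R δ (by linarith) hδ0 hδ12 (by rw [sub_self, abs_zero]; exact hδ0.le)
    have c5 := hD.sand.lo R R δ (by linarith) hδ0 hδ12 (by rw [sub_self, abs_zero]; exact hδ0.le)
    rw [← hδ] at c1 c2 c3
    rw [abs_le] at c1 c2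
    have hXp : 0 ≤ X ^ (-(1/100):ℝ) := by positivity
    have c6 : C0 * er R δ ≤ 4 * C0 * X ^ (-(1/100):ℝ) := by
      calc C0 * er R δ ≤ C0 * (4 * X ^ (-(1/100):ℝ)) := by gcongr
        _ = _ := by ring
    have n1 := norm_nonneg (e1 R)
    have n2 := norm_nonneg (e2 R)
    have hK1p : 0 ≤ K1 * X ^ (-(1/100):ℝ) := by positivity
    have hK2p : 0 ≤ K2 * X ^ (-(1/100):ℝ) := by positivity
    have eK3 : K3 * X ^ (-(1/100):ℝ) = K1 * X ^ (-(1/100):ℝ) + K2 * X ^ (-(1/100):ℝ) + 4 * C0 * X ^ (-(1/100):ℝ) := by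
      rw [hK3]; ring
    have c7 : |E R - U a φ R M| ≤ K3 * X ^ (-(1/100):ℝ) + ‖e1 R‖ + ‖e2 R‖ := by
      rw [abs_le]
      constructor
      · linarith [c2.1]
      · linarith [c1.2]
    have c8 : (E R - U a φ R M)^2 ≤ (K3 * X ^ (-(1/100):ℝ) + ‖e1 R‖ + ‖e2 R‖)^2 := by
      rw [← sq_abs]; exact pow_le_pow_left₀ (abs_nonneg _) c7 2
    refine c8.trans ?_
    set u := K3 * X ^ (-(1/100):ℝ)
    nlinarith [sq_nonneg (u - ‖e1 R‖), sq_nonneg (u - ‖e2 R‖), sq_nonneg (‖e1 R‖ - ‖e2 R‖)]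
  · have i1 : IntervalIntegrable (fun R => ‖e1 R‖^2) volume X (X+H) := (ce1.norm.pow 2).intervalIntegrable _ _
    have i2 : IntervalIntegrable (fun R => ‖e2 R‖^2) volume X (X+H) := (ce2.norm.pow 2).intervalIntegrable _ _
    have i0 : IntervalIntegrable (fun _ : ℝ => 3 * (K3 * X ^ (-(1/100):ℝ))^2) volume X (X+H) := continuous_const.intervalIntegrable _ _
    have hint : ∫ R in X..(X+H), (3 * (K3 * X ^ (-(1/100):ℝ))^2 + 3 * ‖e1 R‖^2 + 3 * ‖e2 R‖^2) =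
        3 * (K3 * X ^ (-(1/100):ℝ))^2 * H + 3 * (∫ R in X..(X+H), ‖e1 R‖^2) + 3 * (∫ R in X..(X+H), ‖e2 R‖^2) := by
      have q1 : ∫ R in X..(X+H), 3 * ‖e1 R‖^2 = 3 * ∫ R in X..(X+H), ‖e1 R‖^2 := intervalIntegral.integral_const_mul _ _
      have q2 : ∫ R in X..(X+H), 3 * ‖e2 R‖^2 = 3 * ∫ R in X..(X+H), ‖e2 R‖^2 := intervalIntegral.integral_const_mul _ _
      rw [intervalIntegral.integral_add (i0.add (i1.const_mul 3)) (i2.const_mul 3), intervalIntegral.integral_add i0 (i1.const_mul 3),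
        q1, q2, intervalIntegral.integral_const]
      rw [add_sub_cancel_left, smul_eq_mul]; ring
    rw [hint]
    have d1 := lsc (s := s) (bm a φ w κ₁ δ) hH1' X
    have d2 := lsc (s := s) (bm a φ w κ₂ δ) hH1' X
    have d3 := hmid M X (by linarith) κ₁ δ hδ0 H hH0
    have d4 := hmid M X (by linarith) κ₂ δ hδ0 H hH0
    have d5 := hX1 X hXX1
    have d6 : tl (M^2) < η/768 := hM0 (M^2) (by nlinarith)
    have d7 : B * (Real.log X)^p ≤ η / 768 * H := by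
      have : 768 * B / η * (Real.log X)^p ≤ H := by
        refine le_trans ?_ hH1
        have : 768 * B / η ≤ K := by rw [hK]; linarith
        gcongr
      rw [div_mul_eq_mul_div, div_le_iff₀ hη] at this
      linarith
    have d8 : tl (M^2) * H ≤ η/768 * H := by gcongr
    have d9 : 3 * (K3 * X ^ (-(1/100):ℝ))^2 * H ≤ η/2 * H := by gcongr
    simp only [htl] at d8
    linarith

end Pool.Agent.NH96.SG
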