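import Mathlib

/-! From many disjoint crossing intervals to an alternating sequence. -/

open Filter Topology

namespace Pool.Agent.NH96.SG

lemma alt_aux {g : ℝ → ℝ} {u w : ℕ → ℝ} {Q : ℝ → Prop} (hord : ∀ k k' : ℕ, k < k' → w k < u k') (S : Finset ℕ) :
    S.Nonempty → (∀ k ∈ S, u k < w k ∧ g (u k) * g (w k) < 0 ∧ Q (u k) ∧ Q (w k)) →
    ∃ t : ℕ → ℝ, (∀ i, i < S.card → t i < t (i+1) ∧ g (t i) * g (t (i+1)) < 0) ∧
      (∀ i, i ≤ S.card → Q (t i)) ∧ (∃ k ∈ S, t S.card ≤ w k) := by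
  induction S using Finset.induction_on_max with
  | empty => intro h; exact absurd h Finset.not_nonempty_empty
  | insert a S hmax ih =>
    intro _ hS
    have haS : a ∉ S := fun h => lt_irrefl _ (hmax a h)
    have hcard : (insert a S).card = S.card + 1 := Finset.card_insert_of_notMem haS
    obtain ⟨ha1, ha2, ha3, ha4⟩ := hS a (Finset.mem_insert_self _ _)
    by_cases hne : S.Nonempty
    · obtain ⟨t, ht1, ht2, k, hk, ht3⟩ := ih hne (fun k hk => hS k (Finset.mem_insert_of_mem hk))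
      have hpos : 0 < S.card := Finset.card_pos.mpr hne
      have hgt : g (t S.card) ≠ 0 := by
        have h := (ht1 (S.card - 1) (by omega)).2
        have e : S.card - 1 + 1 = S.card := by omega
        rw [e] at h
        intro h0; rw [h0, mul_zero] at h; exact lt_irrefl _ h
      have hlt : t S.card < u a := lt_of_le_of_lt ht3 (hord k a (hmax k hk))
      obtain ⟨x, hx1, hx2, hx3, hx4⟩ : ∃ x : ℝ, u a ≤ x ∧ x ≤ w a ∧ g (t S.card) * g x < 0 ∧ Q x := by
        by_cases h : g (t S.card) * g (u a) < 0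
        · exact ⟨u a, le_rfl, ha1.le, h, ha3⟩
        · refine ⟨w a, ha1.le, le_rfl, ?_, ha4⟩
          push Not at h
          have hu : g (u a) ≠ 0 := by intro h0; rw [h0, zero_mul] at ha2; exact lt_irrefl _ ha2
          have h2 : 0 < g (t S.card) * g (u a) := lt_of_le_of_ne h (mul_ne_zero hgt hu).symm
          have h3 : (g (t S.card) * g (u a)) * (g (u a) * g (w a)) < 0 := mul_neg_of_pos_of_neg h2 ha2
          have h4 : (g (t S.card) * g (u a)) * (g (u a) * g (w a)) = (g (u a))^2 * (g (t S.card) * g (w a)) := by ring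
          rw [h4] at h3
          have h5 : 0 < (g (u a))^2 := by positivity
          by_contra hcon
          push Not at hcon
          nlinarith
      refine ⟨fun i => if i ≤ S.card then t i else x, ?_, ?_, a, Finset.mem_insert_self _ _, ?_⟩
      · intro i hi
        rw [hcard] at hi
        rcases Nat.lt_or_ge i S.card with h | h
        · have h1 : i ≤ S.card := h.le
          have h2 : i + 1 ≤ S.card := h
          simp only [h1, h2, if_true]
          exact ht1 i h
        · have h1 : i = S.card := by omega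
          subst h1
          have h2 : ¬ (S.card + 1 ≤ S.card) := by omega
          simp only [le_refl, if_true, h2, if_false]
          exact ⟨by linarith, hx3⟩
      · intro i hi
        rw [hcard] at hi
        by_cases h : i ≤ S.card
        · simp only [h, if_true]; exact ht2 i h
        · simp only [h, if_false]; exact hx4
      · rw [hcard]
        have h2 : ¬ (S.card + 1 ≤ S.card) := by omega
        simp only [h2, if_false]
        exact hx2
    · rw [Finset.not_nonempty_iff_eq_empty] at hne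
      subst hne
      refine ⟨fun i => if i = 0 then u a else w a, ?_, ?_, a, Finset.mem_insert_self _ _, ?_⟩
      · intro i hi
        have h1 : i = 0 := by simp at hi; exact hi
        subst h1
        simp only [if_true, zero_add, one_ne_zero, if_false]
        exact ⟨ha1, ha2⟩
      · intro i _
        by_cases h : i = 0
        · simp only [h, if_true]; exact ha3
        · simp only [h, if_false]; exact ha4
      · simp

/-- an alternating sequence from disjoint crossing intervals -/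
theorem alt {g : ℝ → ℝ} {u w : ℕ → ℝ} {Q : ℝ → Prop} (hord : ∀ k k' : ℕ, k < k' → w k < u k') {S : Finset ℕ}
    (hne : S.Nonempty) (hS : ∀ k ∈ S, u k < w k ∧ g (u k) * g (w k) < 0 ∧ Q (u k) ∧ Q (w k)) :
    ∃ t : Fin (S.card + 1) → ℝ, StrictMono t ∧ (∀ i, Q (t i)) ∧
      ∀ i : Fin S.card, g (t i.castSucc) * g (t i.succ) < 0 := by
  obtain ⟨t, ht1, ht2, -⟩ := alt_aux hord S hne hS
  refine ⟨fun i => t i, ?_, ?_, ?_⟩
  · rw [Fin.strictMono_iff_lt_succ]
    intro i
    exact (ht1 i i.2).1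
  · intro i
    exact ht2 i (by have := i.2; omega)
  · intro i
    exact (ht1 i i.2).2

/-- clamping -/
noncomputable def cl (y : ℝ) : ℝ := max 0 (min 1 y)

lemma cl_cont : Continuous cl := by unfold cl; fun_prop
lemma cl_nonneg (y : ℝ) : 0 ≤ cl y := le_max_left _ _
lemma cl_le (y : ℝ) : cl y ≤ 1 := max_le zero_le_one (min_le_left _ _)
lemma cl_zero {y : ℝ} (h : y ≤ 0) : cl y = 0 := by
  unfold cl; exact max_eq_left ((min_le_right _ _).trans h)
lemma cl_one {y : ℝ} (h : 1 ≤ y) : cl y = 1 := by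
  unfold cl; rw [min_eq_left h]; exact max_eq_right zero_le_one
lemma cl_lip (x y : ℝ) : |cl x - cl y| ≤ |x - y| := by
  unfold cl
  have h1 := abs_max_sub_max_le_abs (min 1 x) (min 1 y) 0
  have h2 := abs_min_sub_min_le_max 1 x 1 y
  rw [max_comm 0, max_comm 0]
  refine h1.trans (h2.trans ?_)
  simp

/-- the crossing function -/
noncomputable def ff (v η : ℝ) (x : ℝ × ℝ) : ℝ :=
  cl ((v - η - x.1)/η) * cl ((x.2 - (v + η))/η) + cl ((x.1 - (v + η))/η) * cl ((v - η - x.2)/η)

lemma ff_cont (v η : ℝ) : Continuous (ff v η) := by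
  unfold ff
  have := cl_cont
  fun_prop

lemma ff_nonneg (v η : ℝ) (x : ℝ × ℝ) : 0 ≤ ff v η x :=
  add_nonneg (mul_nonneg (cl_nonneg _) (cl_nonneg _)) (mul_nonneg (cl_nonneg _) (cl_nonneg _))

lemma ff_le {v η : ℝ} (hη : 0 < η) (x : ℝ × ℝ) : ff v η x ≤ 1 := by
  unfold ff
  rcases le_total x.1 v with h | h
  · rw [cl_zero (y := (x.1 - (v + η))/η) (div_nonpos_of_nonpos_of_nonneg (by linarith) hη.le), zero_mul, add_zero]
    exact mul_le_one₀ (cl_le _) (cl_nonneg _) (cl_le _)
  · rw [cl_zero (y := (v - η - x.1)/η) (div_nonpos_of_nonpos_of_nonneg (by linarith) hη.le), zero_mul, zero_add]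
    exact mul_le_one₀ (cl_le _) (cl_nonneg _) (cl_le _)

/-- positivity of the crossing function means a genuine crossing of the band around `v` -/
lemma ff_pos {v η : ℝ} (hη : 0 < η) {x : ℝ × ℝ} (h : 0 < ff v η x) :
    (x.1 - v) * (x.2 - v) < 0 ∧ η ≤ |x.1 - v| ∧ η ≤ |x.2 - v| := by
  have key : (x.1 < v - η ∧ v + η < x.2) ∨ (v + η < x.1 ∧ x.2 < v - η) := by
    by_contra hcon
    push Not at hcon
    obtain ⟨h1, h2⟩ := hcon
    have : ff v η x = 0 := by
      unfold ff
      have z1 : cl ((v - η - x.1)/η) * cl ((x.2 - (v + η))/η) = 0 := by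
        rcases lt_or_ge x.1 (v - η) with h3 | h3
        · rw [cl_zero (y := (x.2 - (v + η))/η) (div_nonpos_of_nonpos_of_nonneg (by linarith [h1 h3]) hη.le), mul_zero]
        · rw [cl_zero (y := (v - η - x.1)/η) (div_nonpos_of_nonpos_of_nonneg (by linarith) hη.le), zero_mul]
      have z2 : cl ((x.1 - (v + η))/η) * cl ((v - η - x.2)/η) = 0 := by
        rcases lt_or_ge (v + η) x.1 with h3 | h3
        · rw [cl_zero (y := (v - η - x.2)/η) (div_nonpos_of_nonpos_of_nonneg (by linarith [h2 h3]) hη.le), mul_zero]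
        · rw [cl_zero (y := (x.1 - (v + η))/η) (div_nonpos_of_nonpos_of_nonneg (by linarith) hη.le), zero_mul]
      rw [z1, z2, add_zero]
    linarith
  rcases key with ⟨h1, h2⟩ | ⟨h1, h2⟩
  · refine ⟨mul_neg_of_neg_of_pos (by linarith) (by linarith), ?_, ?_⟩
    · rw [abs_of_neg (by linarith)]; linarith
    · rw [abs_of_pos (by linarith)]; linarith
  · refine ⟨mul_neg_of_pos_of_neg (by linarith) (by linarith), ?_, ?_⟩
    · rw [abs_of_pos (by linarith)]; linarith
    · rw [abs_of_neg (by linarith)]; linarith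

lemma ff_up {v η : ℝ} (hη : 0 < η) {x : ℝ × ℝ} (h1 : x.1 < v - 2 * η) (h2 : v + 2 * η < x.2) : 1 ≤ ff v η x := by
  unfold ff
  rw [cl_one (y := (v - η - x.1)/η) (by rw [le_div_iff₀ hη]; linarith), cl_one (y := (x.2 - (v + η))/η) (by rw [le_div_iff₀ hη]; linarith)]
  have := mul_nonneg (cl_nonneg ((x.1 - (v + η))/η)) (cl_nonneg ((v - η - x.2)/η))
  linarith

lemma ff_down {v η : ℝ} (hη : 0 < η) {x : ℝ × ℝ} (h1 : v + 2 * η < x.1) (h2 : x.2 < v - 2 * η) : 1 ≤ ff v η x := by
  unfold ff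
  rw [cl_one (y := (x.1 - (v + η))/η) (by rw [le_div_iff₀ hη]; linarith), cl_one (y := (v - η - x.2)/η) (by rw [le_div_iff₀ hη]; linarith)]
  have := mul_nonneg (cl_nonneg ((v - η - x.1)/η)) (cl_nonneg ((x.2 - (v + η))/η))
  linarith

lemma prod_lip {a b c d : ℝ} (ha : 0 ≤ a) (ha1 : a ≤ 1) (hd : 0 ≤ d) (hd1 : d ≤ 1) :
    |a * b - c * d| ≤ |b - d| + |a - c| := by
  have e : a * b - c * d = a * (b - d) + (a - c) * d := by ring
  rw [e]
  refine (abs_add_le _ _).trans ?_
  rw [abs_mul, abs_mul, abs_of_nonneg ha, abs_of_nonneg hd]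
  have h1 := abs_nonneg (b - d)
  have h2 := abs_nonneg (a - c)
  nlinarith

lemma ff_lip {v η : ℝ} (hη : 0 < η) (x y : ℝ × ℝ) : |ff v η x - ff v η y| ≤ (2/η) * (|x.1 - y.1| + |x.2 - y.2|) := by
  have k : ∀ s t : ℝ, |cl (s/η) - cl (t/η)| ≤ |s - t| / η := by
    intro s t
    refine (cl_lip _ _).trans (le_of_eq ?_)
    rw [← sub_div, abs_div, abs_of_pos hη]
  unfold ff
  have h1 := prod_lip (a := cl ((v - η - x.1)/η)) (b := cl ((x.2 - (v + η))/η)) (c := cl ((v - η - y.1)/η)) (d := cl ((y.2 - (v + η))/η))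
    (cl_nonneg _) (cl_le _) (cl_nonneg _) (cl_le _)
  have h2 := prod_lip (a := cl ((x.1 - (v + η))/η)) (b := cl ((v - η - x.2)/η)) (c := cl ((y.1 - (v + η))/η)) (d := cl ((v - η - y.2)/η))
    (cl_nonneg _) (cl_le _) (cl_nonneg _) (cl_le _)
  have k1 := k (x.2 - (v + η)) (y.2 - (v + η))
  have k2 := k (v - η - x.1) (v - η - y.1)
  have k3 := k (v - η - x.2) (v - η - y.2)
  have k4 := k (x.1 - (v + η)) (y.1 - (v + η))
  have e1 : |x.2 - (v + η) - (y.2 - (v + η))| = |x.2 - y.2| := by congr 1; ring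
  have e2 : |v - η - x.1 - (v - η - y.1)| = |x.1 - y.1| := by rw [abs_sub_comm x.1]; congr 1; ring
  have e3 : |v - η - x.2 - (v - η - y.2)| = |x.2 - y.2| := by rw [abs_sub_comm x.2]; congr 1; ring
  have e4 : |x.1 - (v + η) - (y.1 - (v + η))| = |x.1 - y.1| := by congr 1; ring
  rw [e1] at k1; rw [e2] at k2; rw [e3] at k3; rw [e4] at k4
  have e5 : (2/η) * (|x.1 - y.1| + |x.2 - y.2|) = |x.2 - y.2|/η + |x.1 - y.1|/η + (|x.2 - y.2|/η + |x.1 - y.1|/η) := by
    field_simp; ring
  rw [e5]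
  have e6 : cl ((v - η - x.1)/η) * cl ((x.2 - (v + η))/η) + cl ((x.1 - (v + η))/η) * cl ((v - η - x.2)/η) -
      (cl ((v - η - y.1)/η) * cl ((y.2 - (v + η))/η) + cl ((y.1 - (v + η))/η) * cl ((v - η - y.2)/η)) =
      (cl ((v - η - x.1)/η) * cl ((x.2 - (v + η))/η) - cl ((v - η - y.1)/η) * cl ((y.2 - (v + η))/η)) +
      (cl ((x.1 - (v + η))/η) * cl ((v - η - x.2)/η) - cl ((y.1 - (v + η))/η) * cl ((v - η - y.2)/η)) := by ring
  rw [e6]
  refine (abs_add_le _ _).trans ?_
  linarith

end Pool.Agent.NH96.SG
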