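import Mathlib
import Pool.Agent.NH96.SG.App
import Pool.Agent.NH96.SG.Comb

/-! Assembly: infinitely dense sign changes in short windows. -/

open MeasureTheory ProbabilityTheory Filter Topology
open Pool.Agent.H383.Gen (U)

namespace Pool.Agent.NH96.SG

variable {E : ℝ → ℝ} {a : ℕ → ℝ} {φ : ℝ} {w : ℝ → ℂ} {κ₁ κ₂ C0 : ℝ} {p : ℕ}

lemma sh_add (x y : ℝ) : sh x + sh y = sh (x + y) := by
  funext q
  simp only [sh, Pi.add_apply]
  rw [← AddCircle.coe_add, ← add_mul]

/-- lower bound of the integral of the crossing function -/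
lemma int_ff {T : Finset ℕ} {c c' : ℕ → ℂ} {v η : ℝ} (hη : 0 < η) :
    PP.real {ω | Y T c ω < v - 2 * η ∧ v + 2 * η < Y T c' ω} + PP.real {ω | v + 2 * η < Y T c ω ∧ Y T c' ω < v - 2 * η} ≤
      ∫ ω, ff v η (Y T c ω, Y T c' ω) ∂PP := by
  set A : Set Om := {ω | Y T c ω < v - 2 * η ∧ v + 2 * η < Y T c' ω} with hA
  set B : Set Om := {ω | v + 2 * η < Y T c ω ∧ Y T c' ω < v - 2 * η} with hB
  have mA : MeasurableSet A := (measurableSet_lt (Y_cont _ _).measurable measurable_const).inter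
    (measurableSet_lt measurable_const (Y_cont _ _).measurable)
  have mB : MeasurableSet B := (measurableSet_lt measurable_const (Y_cont _ _).measurable).inter
    (measurableSet_lt (Y_cont _ _).measurable measurable_const)
  have hd : Disjoint A B := by
    rw [Set.disjoint_left]
    intro ω h1 h2
    simp only [hA, hB, Set.mem_ofPred_eq] at h1 h2
    linarith [h1.1, h2.1]
  rw [← measureReal_union hd mB, ← integral_indicator_one (mA.union mB)]
  have hc : Continuous (fun ω => ff v η (Y T c ω, Y T c' ω)) :=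
    (ff_cont v η).comp ((Y_cont T c).prodMk (Y_cont T c'))
  apply integral_mono ((integrable_const (1:ℝ)).indicator (mA.union mB)) (integ_of_cont hc)
  intro ω
  by_cases h : ω ∈ A ∪ B
  · rw [Set.indicator_of_mem h]
    rcases h with h | h
    · exact ff_up hη h.1 h.2
    · exact ff_down hη h.1 h.2
  · rw [Set.indicator_of_notMem h]
    exact ff_nonneg _ _ _

lemma abs_le_of_sq {x ζ g : ℝ} (hζ : 0 < ζ) (h : x^2 ≤ g) : |x| ≤ ζ + g / ζ := by
  have h1 : x^2 / ζ ≤ g / ζ := by gcongr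
  have h2 : |x| ≤ ζ + x^2 / ζ := by
    have h3 : |x| * ζ ≤ ζ^2 + x^2 := by
      rw [← sq_abs x]; nlinarith [sq_nonneg (|x| - ζ), abs_nonneg x]
    have h4 : ζ + x^2/ζ = (ζ^2 + x^2) / ζ := by field_simp
    rw [h4, le_div_iff₀ hζ]; exact h3
  linarith

/-- the base case: windows shorter than their starting point -/
theorem base (hD : Dt E a φ w κ₁ κ₂ C0 p) (v C : ℝ) : ∃ η K X0 : ℝ, 0 < η ∧ 0 < K ∧ 4 ≤ X0 ∧ ∀ X : ℝ, X0 ≤ X → ∀ H : ℝ, K * (Real.log X)^p ≤ H → H ≤ X →
    ∃ (n : ℕ) (t : Fin (n+1) → ℝ), C * H ≤ n ∧ StrictMono t ∧ (∀ i, t i ∈ Set.Icc X (X + H) ∧ η ≤ |E (t i) - v|) ∧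
      ∀ i : Fin n, (E (t i.castSucc) - v) * (E (t i.succ) - v) < 0 := by
  classical
  obtain ⟨Cc, c1, hcb⟩ := hD.cb
  obtain ⟨h, η₂, θ, hh, hh1, hη₂, hθ, hKθ, Mm, hMm⟩ := model hcb v (8 * (|C| + 1)) 1 one_pos
  obtain ⟨η, hηη⟩ : ∃ η, η = η₂ / 2 := ⟨_, rfl⟩
  have hη : 0 < η := by rw [hηη]; positivity
  have hηη' : η₂ = 2 * η := by rw [hηη]; ring
  rw [hηη'] at hMm
  obtain ⟨ζ, hζ⟩ : ∃ ζ, ζ = η * θ / 64 := ⟨_, rfl⟩
  have hζ0 : 0 < ζ := by rw [hζ]; positivity
  obtain ⟨η', hη'⟩ : ∃ η', η' = θ * η * ζ / 64 := ⟨_, rfl⟩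
  have hη'0 : 0 < η' := by rw [hη']; positivity
  obtain ⟨K, hK, Ma, happ⟩ := app hD hη'0
  obtain ⟨M, hM⟩ : ∃ M, M = max Ma Mm := ⟨_, rfl⟩
  have hMa : Ma ≤ M := by rw [hM]; exact le_max_left _ _
  have hMm' : Mm ≤ M^2 := by
    have : Mm ≤ M := by rw [hM]; exact le_max_right _ _
    nlinarith
  obtain ⟨X1, hX1, happ2⟩ := happ M hMa
  obtain ⟨H0, hH0, hweyl⟩ := weylW (Finset.Icc 1 (M^2)) (c0 a φ) (cX (c0 a φ) h) (ff_cont v η) (show 0 < θ/4 by positivity)
  have hmod := (hMm (M^2) hMm').trans (int_ff hη)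
  -- the model function along the flow
  have hflow : ∀ R : ℝ, (Y (Finset.Icc 1 (M^2)) (c0 a φ) (sh R), Y (Finset.Icc 1 (M^2)) (cX (c0 a φ) h) (sh R)) =
      (U a φ R M, U a φ (R + h) M) := by
    intro R
    rw [Y_shift, sh_add, U_eq_Y, U_eq_Y]
  simp only [hflow] at hweyl
  have hUc : Continuous (fun R : ℝ => U a φ R M) := by
    have : (fun R : ℝ => U a φ R M) = fun R => Y (Finset.Icc 1 (M^2)) (c0 a φ) (sh R) := by
      funext R; exact U_eq_Y a φ R M
    rw [this]
    exact (Y_cont _ _).comp sh_cont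
  refine ⟨η, K + H0 + 18, X1, hη, by positivity, hX1, fun X hX H hH1 hH2 => ?_⟩
  have hX4 : 4 ≤ X := hX1.trans hX
  have hX0 : 0 < X := by linarith
  have hlogX : 1 ≤ Real.log X := by
    rw [Real.le_log_iff_exp_le hX0]
    have := Real.exp_one_lt_d9
    linarith
  have hlog4 : 1 ≤ (Real.log X)^p := one_le_pow₀ hlogX
  have hlog0 : 0 ≤ (Real.log X)^p := by linarith
  have hHb : K * (Real.log X)^p ≤ H ∧ H0 + 18 ≤ H := by
    constructor
    · nlinarith
    · nlinarith
  have hHpos : 0 < H := by linarith [hHb.2]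
  obtain ⟨G, hGc, hG0, hGE, hGint⟩ := happ2 X hX H hHb.1 hH2
  obtain ⟨Nn, hNn⟩ : ∃ Nn, Nn = ⌊(H - h) / (2 * h)⌋₊ := ⟨_, rfl⟩
  have hHh : 0 ≤ (H - h) / (2 * h) := div_nonneg (by linarith [hHb.2]) (by positivity)
  have hNn1 : (Nn : ℝ) * (2 * h) ≤ H - h := by
    have h1 := Nat.floor_le hHh
    rw [← hNn, le_div_iff₀ (by positivity)] at h1
    exact h1
  have hNn2 : H - h < (Nn + 1 : ℝ) * (2 * h) := by
    have h1 := Nat.lt_floor_add_one ((H - h) / (2 * h))
    rw [← hNn, div_lt_iff₀ (by positivity)] at h1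
    exact h1
  obtain ⟨L, hL⟩ : ∃ L : ℝ, L = Nn * (2 * h) := ⟨_, rfl⟩
  have hL1 : L ≤ H - h := by rw [hL]; exact hNn1
  have hL2 : H - 3 * h ≤ L := by rw [hL]; linarith
  have hL0 : H0 ≤ L := by linarith [hHb.2]
  have hLpos : 0 < L := by linarith
  -- the lower function
  set Ψ : ℝ → ℝ := fun R => ff v η (U a φ R M, U a φ (R + h) M) - (2/η) * (2 * ζ + G R / ζ + G (R + h) / ζ) with hΨ
  have hΨc : Continuous Ψ := by
    have e1 := hUc
    have e2 : Continuous (fun R : ℝ => U a φ (R + h) M) := hUc.comp (by fun_prop)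
    have e3 : Continuous (fun R => ff v η (U a φ R M, U a φ (R + h) M)) := (ff_cont v η).comp (e1.prodMk e2)
    simp only [hΨ]
    fun_prop
  have hffΨ : ∀ R, X ≤ R → R + h ≤ X + H → Ψ R ≤ ff v η (E R, E (R + h)) := by
    intro R hR1 hR2
    have a1 := abs_le_of_sq hζ0 (hGE R hR1 (by linarith))
    have a2 := abs_le_of_sq hζ0 (hGE (R + h) (by linarith) hR2)
    have a3 := ff_lip (v := v) hη (E R, E (R + h)) (U a φ R M, U a φ (R + h) M)
    simp only at a3
    have a4 : (2/η) * (|E R - U a φ R M| + |E (R + h) - U a φ (R + h) M|) ≤ (2/η) * (2 * ζ + G R / ζ + G (R + h) / ζ) := by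
      apply mul_le_mul_of_nonneg_left (by linarith) (by positivity)
    rw [abs_le] at a3
    simp only [hΨ]
    linarith [a3.1]
  have hint : θ / 2 * H ≤ ∫ R in X..(X+L), Ψ R := by
    have i1 : IntervalIntegrable (fun R => ff v η (U a φ R M, U a φ (R + h) M)) volume X (X+L) := by
      apply Continuous.intervalIntegrable
      exact (ff_cont v η).comp (hUc.prodMk (hUc.comp (by fun_prop)))
    have i2 : IntervalIntegrable G volume X (X+L) := hGc.intervalIntegrable _ _
    have i3 : IntervalIntegrable (fun R => G (R + h)) volume X (X+L) := (hGc.comp (by fun_prop)).intervalIntegrable _ _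
    have i0 : IntervalIntegrable (fun _ : ℝ => 2 * ζ) volume X (X+L) := continuous_const.intervalIntegrable _ _
    have e1 : ∫ R in X..(X+L), Ψ R = (∫ R in X..(X+L), ff v η (U a φ R M, U a φ (R + h) M)) -
        (2/η) * (2 * ζ * L + (∫ R in X..(X+L), G R) / ζ + (∫ R in X..(X+L), G (R + h)) / ζ) := by
      simp only [hΨ]
      have j1 : IntervalIntegrable (fun R => 2 * ζ + G R / ζ) volume X (X+L) := i0.add (i2.div_const ζ)
      have j2 : IntervalIntegrable (fun R => 2 * ζ + G R / ζ + G (R + h) / ζ) volume X (X+L) := j1.add (i3.div_const ζ)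
      rw [intervalIntegral.integral_sub i1 (j2.const_mul _), intervalIntegral.integral_const_mul (2/η),
        intervalIntegral.integral_add j1 (i3.div_const ζ), intervalIntegral.integral_add i0 (i2.div_const ζ),
        intervalIntegral.integral_div, intervalIntegral.integral_div, intervalIntegral.integral_const, add_sub_cancel_left, smul_eq_mul]
      ring
    have b1 := hweyl L hL0 X
    rw [abs_le] at b1
    have b2 : θ * L ≤ L * ∫ ω, ff v η (Y (Finset.Icc 1 (M^2)) (c0 a φ) ω, Y (Finset.Icc 1 (M^2)) (cX (c0 a φ) h) ω) ∂PP := by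
      rw [mul_comm θ L]; gcongr
    have b3 : ∫ R in X..(X+L), G R ≤ η' * H := by
      refine le_trans ?_ hGint
      apply intervalIntegral.integral_mono_interval le_rfl (by linarith) (by linarith)
        (Eventually.of_forall hG0) (hGc.intervalIntegrable _ _)
    have b4 : ∫ R in X..(X+L), G (R + h) ≤ η' * H := by
      rw [intervalIntegral.integral_comp_add_right (fun R => G R)]
      refine le_trans ?_ hGint
      apply intervalIntegral.integral_mono_interval (by linarith) (by linarith) (by linarith)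
        (Eventually.of_forall hG0) (hGc.intervalIntegrable _ _)
    have b5 : (2/η) * (2 * ζ * L + (∫ R in X..(X+L), G R) / ζ + (∫ R in X..(X+L), G (R + h)) / ζ) ≤ θ / 8 * H := by
      calc _ ≤ (2/η) * (2 * ζ * H + (η' * H) / ζ + (η' * H) / ζ) := by
            gcongr
            linarith
        _ = θ / 8 * H := by
            rw [hη', hζ]; field_simp; norm_num
    rw [e1]
    have b6 : 18 * h ≤ H := by linarith [hHb.2]
    have b7 : (3/4) * θ * L ≤ ∫ R in X..(X+L), ff v η (U a φ R M, U a φ (R + h) M) := by linarith [b1.1]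
    have b8 : (3/4) * θ * (H - 3 * h) ≤ (3/4) * θ * L := by gcongr
    have b9 : θ * (18 * h) ≤ θ * H := by gcongr
    linarith
  -- averaging over the starting point
  have hsplit : ∫ R in X..(X+L), Ψ R = ∫ β in (0:ℝ)..(2*h), ∑ k ∈ Finset.range Nn, Ψ (X + k * (2 * h) + β) := by
    have h3 := intervalIntegral.sum_integral_adjacent_intervals (a := fun n : ℕ => X + n * (2 * h)) (n := Nn) (f := Ψ) (μ := volume)
      (fun k _ => hΨc.intervalIntegrable _ _)
    simp only [Nat.cast_zero, zero_mul, add_zero] at h3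
    rw [hL, ← h3, intervalIntegral.integral_finsetSum]
    · apply Finset.sum_congr rfl
      intro n _
      rw [intervalIntegral.integral_comp_add_left (fun x => Ψ x)]
      congr 1
      · ring
      · push_cast; ring
    · intro n _
      exact (hΨc.comp (by fun_prop)).intervalIntegrable _ _
  obtain ⟨β, hβ0, hβ1, hβ⟩ : ∃ β : ℝ, 0 ≤ β ∧ β ≤ 2 * h ∧ θ * H / (8 * h) ≤ ∑ k ∈ Finset.range Nn, Ψ (X + k * (2 * h) + β) := by
    by_contra hcon
    push Not at hcon
    have hc : Continuous (fun β => ∑ k ∈ Finset.range Nn, Ψ (X + k * (2 * h) + β)) :=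
      continuous_finsetSum _ (fun n _ => hΨc.comp (by fun_prop))
    have h4 : ∫ β in (0:ℝ)..(2*h), ∑ k ∈ Finset.range Nn, Ψ (X + k * (2 * h) + β) ≤ ∫ _β in (0:ℝ)..(2*h), θ * H / (8 * h) :=
      intervalIntegral.integral_mono_on (by positivity) (hc.intervalIntegrable _ _) (continuous_const.intervalIntegrable _ _)
        (fun β hβ => (hcon β hβ.1 hβ.2).le)
    rw [intervalIntegral.integral_const, sub_zero, smul_eq_mul, ← hsplit] at h4
    have h5 : 2 * h * (θ * H / (8 * h)) = θ * H / 4 := by field_simp; norm_num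
    rw [h5] at h4
    have : 0 < θ * H := by positivity
    linarith
  -- the crossing intervals
  set u : ℕ → ℝ := fun k => X + k * (2 * h) + β with hu
  set wv : ℕ → ℝ := fun k => X + k * (2 * h) + β + h with hwv
  set S : Finset ℕ := (Finset.range Nn).filter (fun k => 0 < ff v η (E (u k), E (wv k))) with hS
  have hk : ∀ k ∈ Finset.range Nn, X ≤ u k ∧ wv k ≤ X + H := by
    intro k hk
    rw [Finset.mem_range] at hk
    have h1 : ((k:ℝ) + 1) ≤ Nn := by exact_mod_cast hk
    have h2 : ((k:ℝ) + 1) * (2 * h) ≤ Nn * (2 * h) := by gcongr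
    have h3 : 0 ≤ (k:ℝ) * (2 * h) := by positivity
    simp only [hu, hwv]
    constructor
    · linarith
    · linarith
  have hcard : θ * H / (8 * h) ≤ S.card := by
    refine hβ.trans ?_
    have h1 : ∑ k ∈ Finset.range Nn, Ψ (X + k * (2 * h) + β) ≤ ∑ k ∈ Finset.range Nn, if 0 < ff v η (E (u k), E (wv k)) then (1:ℝ) else 0 := by
      apply Finset.sum_le_sum
      intro k hk'
      have h2 := hk k hk'
      have h3 := hffΨ (u k) h2.1 (by simp only [hu]; simp only [hwv] at h2; exact h2.2)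
      refine h3.trans ?_
      by_cases h4 : 0 < ff v η (E (u k), E (wv k))
      · rw [if_pos h4]; exact ff_le hη _
      · rw [if_neg h4]; push Not at h4; exact h4
    refine h1.trans (le_of_eq ?_)
    rw [← Finset.sum_filter, Finset.sum_const, nsmul_eq_mul, mul_one]
  have hCH : C * H ≤ S.card := by
    refine le_trans ?_ hcard
    have h1 : 8 * (|C| + 1) * h ≤ θ := hKθ
    rw [le_div_iff₀ (by positivity)]
    have h2 : C ≤ |C| := le_abs_self C
    calc C * H * (8 * h) ≤ |C| * H * (8 * h) := by gcongr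
      _ ≤ (8 * (|C| + 1) * h) * H := by nlinarith
      _ ≤ θ * H := by gcongr
  have hcpos : 0 < S.card := by
    have h1 : 0 < θ * H / (8 * h) := by positivity
    have h2 : (0:ℝ) < S.card := lt_of_lt_of_le h1 hcard
    exact_mod_cast h2
  have hord : ∀ k k' : ℕ, k < k' → wv k < u k' := by
    intro k k' hkk'
    have h1 : ((k:ℝ) + 1) ≤ k' := by exact_mod_cast hkk'
    have h2 : ((k:ℝ) + 1) * (2 * h) ≤ k' * (2 * h) := by gcongr
    simp only [hu, hwv]
    linarith
  obtain ⟨t, ht1, ht2, ht3⟩ := alt (g := fun R => E R - v) (Q := fun x => x ∈ Set.Icc X (X + H) ∧ η ≤ |E x - v|) hord (S := S) (Finset.card_pos.mp hcpos) (by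
    intro k hkS
    rw [hS, Finset.mem_filter] at hkS
    have h1 := hk k hkS.1
    have h2 : u k < wv k := by simp only [hu, hwv]; linarith
    obtain ⟨h3, h4, h5⟩ := ff_pos hη hkS.2
    exact ⟨h2, h3, ⟨⟨h1.1, h2.le.trans h1.2⟩, h4⟩, ⟨⟨h1.1.trans h2.le, h1.2⟩, h5⟩⟩)
  exact ⟨S.card, t, hCH, ht1, ht2, ht3⟩

/-- all windows -/
theorem main (hD : Dt E a φ w κ₁ κ₂ C0 p) (v C : ℝ) : ∃ η K X0 : ℝ, 0 < η ∧ 0 < K ∧ 4 ≤ X0 ∧ ∀ X : ℝ, X0 ≤ X → ∀ H : ℝ, K * (Real.log X)^p ≤ H →
    ∃ (n : ℕ) (t : Fin (n+1) → ℝ), C * H ≤ n ∧ StrictMono t ∧ (∀ i, t i ∈ Set.Icc X (X + H) ∧ η ≤ |E (t i) - v|) ∧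
      ∀ i : Fin n, (E (t i.castSucc) - v) * (E (t i.succ) - v) < 0 := by
  obtain ⟨η, K, X0, hη, hK, hX0, hb⟩ := base hD v (2 * |C|)
  -- far out the whole dyadic window is long enough
  have ht : Tendsto (fun X : ℝ => (Real.log X)^p / X) atTop (𝓝 0) := by
    have := (Real.isLittleO_pow_log_id_atTop (n := p)).tendsto_div_nhds_zero
    simpa using this
  obtain ⟨X1, hX1⟩ := eventually_atTop.mp (ht.eventually (gt_mem_nhds (show (0:ℝ) < 1/K by positivity)))
  refine ⟨η, K, max X0 X1, hη, hK, hX0.trans (le_max_left _ _), fun X hX H hH => ?_⟩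
  have hXX0 : X0 ≤ X := (le_max_left _ _).trans hX
  have hXX1 : X1 ≤ X := (le_max_right _ _).trans hX
  have hXpos : 0 < X := by linarith
  have hlog0 : 0 ≤ (Real.log X)^p := pow_nonneg (Real.log_nonneg (by linarith)) p
  have hH0 : 0 ≤ H := le_trans (by positivity) hH
  have hCa := le_abs_self C
  rcases le_total H X with hHX | hHX
  · obtain ⟨n, t, h1, h2, h3, h4⟩ := hb X hXX0 H hH hHX
    refine ⟨n, t, ?_, h2, h3, h4⟩
    have : C * H ≤ 2 * |C| * H := by
      have := abs_nonneg C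
      gcongr
      linarith
    linarith
  · set X' := (X + H) / 2 with hX'
    have hXX' : X ≤ X' := by rw [hX']; linarith
    have hX'pos : 0 < X' := by linarith
    have h5 := hX1 X' (hXX1.trans hXX')
    have h6 : K * (Real.log X')^p ≤ X' := by
      rw [div_lt_div_iff₀ hX'pos hK] at h5
      linarith
    obtain ⟨n, t, h1, h2, h3, h4⟩ := hb X' (hXX0.trans hXX') X' h6 le_rfl
    refine ⟨n, t, ?_, h2, ?_, h4⟩
    · refine le_trans ?_ h1
      have h7 : H ≤ 2 * X' := by rw [hX']; linarith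
      have := abs_nonneg C
      calc C * H ≤ |C| * H := by gcongr
        _ ≤ |C| * (2 * X') := by gcongr
        _ = _ := by ring
    · intro i
      have := h3 i
      rw [Set.mem_Icc] at this ⊢
      have h8 : X' + X' = X + H := by rw [hX']; ring
      rw [h8] at this
      exact ⟨⟨hXX'.trans this.1.1, this.1.2⟩, this.2⟩

end Pool.Agent.NH96.SG
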