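import Mathlib
import Pool.Agent.H383.Num
import Pool.Agent.H383.GaussW
import Pool.Agent.NH96.SG.D4

/-! The mean square of the number of representations as a sum of two squares. -/

open Finset
open Pool.Agent.H383.Gauss

namespace Pool.Agent.NH96.SG.R2

noncomputable def gg (a b : ℕ) : ℝ := 1 / ((a:ℝ)^2 + (b:ℝ)^2)

lemma gg_nonneg (a b : ℕ) : 0 ≤ gg a b := by unfold gg; positivity

lemma gg_le (a b : ℕ) : gg a b ≤ (if b ≤ a then 1/(a:ℝ)^2 else 0) + (if a ≤ b then 1/(b:ℝ)^2 else 0) := by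
  unfold gg
  have ha : 0 ≤ 1/(a:ℝ)^2 := by positivity
  have hb : 0 ≤ 1/(b:ℝ)^2 := by positivity
  rcases Nat.eq_zero_or_pos a with h0 | h0
  · subst h0
    simp
  rcases Nat.eq_zero_or_pos b with h1 | h1
  · subst h1
    simp
  have ha' : (0:ℝ) < a := by exact_mod_cast h0
  have hb' : (0:ℝ) < b := by exact_mod_cast h1
  rcases le_total b a with h | h
  · rw [if_pos h]
    have h2 : 1 / ((a:ℝ)^2 + (b:ℝ)^2) ≤ 1/(a:ℝ)^2 := by
      apply one_div_le_one_div_of_le (by positivity)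
      nlinarith
    have h3 : 0 ≤ (if a ≤ b then 1/(b:ℝ)^2 else 0) := by split_ifs <;> positivity
    linarith
  · rw [if_pos h]
    have h2 : 1 / ((a:ℝ)^2 + (b:ℝ)^2) ≤ 1/(b:ℝ)^2 := by
      apply one_div_le_one_div_of_le (by positivity)
      nlinarith
    have h3 : 0 ≤ (if b ≤ a then 1/(a:ℝ)^2 else 0) := by split_ifs <;> positivity
    linarith

lemma half (Y : ℕ) : ∑ a ∈ range (Y+1), ∑ b ∈ range (Y+1), (if b ≤ a then 1/(a:ℝ)^2 else 0) ≤ 2 * (1 + Real.log Y) := by
  have h1 : ∀ a ∈ range (Y+1), ∑ b ∈ range (Y+1), (if b ≤ a then 1/(a:ℝ)^2 else 0) ≤ if 1 ≤ a then 2 * ((1:ℝ)/a) else 0 := by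
    intro a ha
    rw [mem_range] at ha
    rw [← sum_filter]
    have h2 : (range (Y+1)).filter (fun b => b ≤ a) = range (a+1) := by
      ext b; simp only [mem_filter, mem_range]; omega
    rw [h2, sum_const, card_range, nsmul_eq_mul]
    split_ifs with h3
    · have h3' : (1:ℝ) ≤ a := by exact_mod_cast h3
      rw [mul_one_div, mul_one_div, div_le_div_iff₀ (by positivity) (by positivity)]
      push_cast
      nlinarith
    · have : a = 0 := by omega
      subst this; simp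
  refine (sum_le_sum h1).trans ?_
  rw [← sum_filter]
  have h4 : (range (Y+1)).filter (fun a => 1 ≤ a) = Icc 1 Y := by
    ext b; simp only [mem_filter, mem_range, mem_Icc]; omega
  rw [h4, ← mul_sum]
  have := DS.harm_sum_le Y
  linarith

lemma wt_le (a : ℕ) : (wt a : ℝ) ≤ 2 := by
  unfold wt
  split_ifs <;> norm_num

lemma rA_sum (N : ℕ) : ∑ m ∈ Icc 1 N, rA m / m ≤ 16 * (1 + Real.log N) := by
  rcases Nat.eq_zero_or_pos N with hN | hN
  · subst hN; simp
  have e1 : ∀ m ∈ Icc 1 N, rA m / m = ∑ a ∈ range (N+1), ∑ b ∈ range (N+1),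
      (if a^2 + b^2 = m then (wt a : ℝ) * wt b * gg a b else 0) := by
    intro m hm
    rw [mem_Icc] at hm
    have hlt : m < (N+1)^2 := by nlinarith [hm.2]
    rw [rA_eq (K := N) hlt]
    push_cast
    rw [div_eq_mul_inv, sum_mul]
    apply sum_congr rfl
    intro a _
    rw [sum_mul]
    apply sum_congr rfl
    intro b _
    split_ifs with h
    · unfold gg
      have : (m:ℝ) = (a:ℝ)^2 + (b:ℝ)^2 := by rw [← h]; push_cast; ring
      rw [this]; ring
    · ring
  have e2 : ∑ m ∈ Icc 1 N, rA m / m ≤ ∑ a ∈ range (N+1), ∑ b ∈ range (N+1), (wt a : ℝ) * wt b * gg a b := by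
    rw [sum_congr rfl e1, sum_comm]
    apply sum_le_sum
    intro a _
    rw [sum_comm]
    apply sum_le_sum
    intro b _
    rw [sum_ite_eq]
    split_ifs
    · exact le_rfl
    · have := gg_nonneg a b
      positivity
  refine e2.trans ?_
  have e3 : ∑ a ∈ range (N+1), ∑ b ∈ range (N+1), (wt a : ℝ) * wt b * gg a b ≤
      ∑ a ∈ range (N+1), ∑ b ∈ range (N+1), 4 * ((if b ≤ a then 1/(a:ℝ)^2 else 0) + (if a ≤ b then 1/(b:ℝ)^2 else 0)) := by
    apply sum_le_sum
    intro a _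
    apply sum_le_sum
    intro b _
    have h1 := wt_le a
    have h2 := wt_le b
    have h3 := gg_le a b
    have h4 := gg_nonneg a b
    have h5 : (wt a : ℝ) * wt b ≤ 4 := by
      have : (0:ℝ) ≤ wt b := by positivity
      calc (wt a : ℝ) * wt b ≤ 2 * 2 := by gcongr
        _ = 4 := by norm_num
    calc (wt a : ℝ) * wt b * gg a b ≤ 4 * gg a b := by gcongr
      _ ≤ _ := by gcongr
  refine e3.trans ?_
  have e4 := half N
  have e5 : ∑ a ∈ range (N+1), ∑ b ∈ range (N+1), (if a ≤ b then 1/(b:ℝ)^2 else 0) ≤ 2 * (1 + Real.log N) := by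
    rw [sum_comm]; exact e4
  simp only [← mul_sum, sum_add_distrib]
  linarith

theorem rA_sq_sum (N : ℕ) : ∑ m ∈ Icc 1 N, (rA m)^2 / m ≤ 256 * (1 + Real.log N)^2 := by
  have h0 : 0 ≤ Real.log (N:ℝ) := Real.log_natCast_nonneg N
  have h1 : ∑ m ∈ Icc 1 N, (rA m)^2 / m ≤ ∑ n ∈ Icc 1 N, ∑ i ∈ n.divisorsAntidiagonal, (rA i.1 / i.1) * (rA i.2 / i.2) := by
    apply sum_le_sum
    intro n hn
    rw [mem_Icc] at hn
    have h2 := rA_sq_le hn.1
    have hn0 : (0:ℝ) < n := by exact_mod_cast hn.1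
    have h3 : ∑ i ∈ n.divisorsAntidiagonal, (rA i.1 / i.1) * (rA i.2 / i.2) = (∑ i ∈ n.divisorsAntidiagonal, rA i.1 * rA i.2) / n := by
      rw [sum_div]
      apply sum_congr rfl
      intro i hi
      rw [Nat.mem_divisorsAntidiagonal] at hi
      rw [div_mul_div_comm]
      congr 1
      rw [← hi.1]; push_cast; rfl
    rw [h3]
    gcongr
  refine h1.trans ?_
  rw [DS.hyperC N (fun b c => (rA b / b) * (rA c / c))]
  have hnn : ∀ b : ℕ, 0 ≤ rA b / b := fun b => div_nonneg (rA_nonneg b) (by positivity)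
  calc _ ≤ ∑ c ∈ Icc 1 N, ∑ b ∈ Icc 1 N, (rA b / b) * (rA c / c) := by
        apply sum_le_sum
        intro c hc
        apply sum_le_sum_of_subset_of_nonneg
        · exact Icc_subset_Icc_right (Nat.div_le_self _ _)
        · intro b _ _
          exact mul_nonneg (hnn b) (hnn c)
    _ = (∑ c ∈ Icc 1 N, rA c / c) ^ 2 := by
        rw [sq, sum_mul_sum, sum_comm]
    _ ≤ (16 * (1 + Real.log N)) ^ 2 := by
        have h4 := rA_sum N
        have h3 : 0 ≤ ∑ c ∈ Icc 1 N, rA c / c := sum_nonneg fun b _ => hnn b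
        gcongr
    _ = _ := by ring

end Pool.Agent.NH96.SG.R2
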