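import Mathlib
import Pool.Agent.NH96.SG.Fin
import Pool.Agent.NH96.SG.R2
import Pool.Agent.H383.FullC

/-! The circle problem. -/

open MeasureTheory Filter Topology
open Pool.Agent.H383.Gauss Pool.Agent.H383.Gen Pool.Agent.H383.Circ

namespace Pool.Agent.NH96.SG

theorem circ_Dt : ∃ C0 : ℝ, Dt En ag (3 * Real.pi/4) wg 2 (-2) C0 2 := by
  obtain ⟨C0, hC0, hS⟩ := En_Sand
  refine ⟨C0, ag_Bd, ag_zero, wg_Wt, hC0, hS, ag_LB, 256, by norm_num, fun N => ?_⟩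
  refine le_trans ?_ (R2.rA_sq_sum N)
  apply Finset.sum_le_sum
  intro m hm
  rw [Finset.mem_Icc] at hm
  have hm0 : (0:ℝ) < m := by exact_mod_cast hm.1
  have e : ((√(m:ℝ)) ^ (-(3/2):ℝ))^2 * √(m:ℝ) = 1/m := by
    have h1 : (√(m:ℝ)) ^ (-(3/2):ℝ) = (m:ℝ) ^ (-(3/4):ℝ) := by
      rw [Real.sqrt_eq_rpow, ← Real.rpow_mul hm0.le]; norm_num
    rw [h1, Real.sqrt_eq_rpow, ← Real.rpow_natCast, ← Real.rpow_mul hm0.le, ← Real.rpow_add hm0]
    norm_num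
    rw [Real.rpow_neg_one]
  have hpi := Real.pi_gt_three
  calc (ag m)^2 * √(m:ℝ) = (rA m / Real.pi)^2 * (((√(m:ℝ)) ^ (-(3/2):ℝ))^2 * √(m:ℝ)) := by unfold ag; ring
    _ = (rA m / Real.pi)^2 * (1/m) := by rw [e]
    _ ≤ (rA m)^2 * (1/m) := by
        have h0 := rA_nonneg m
        have : rA m / Real.pi ≤ rA m := by
          rw [div_le_iff₀ (by positivity)]; nlinarith
        gcongr
    _ = (rA m)^2 / m := by ring

end Pool.Agent.NH96.SG
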