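import Mathlib
import Pool.Agent.NH96.SG.Fin
import Pool.Agent.NH96.SG.D4
import Pool.Agent.H383.FullD
import Pool.Agent.H383.DivF
import Pool.Agent.H452R2.Win.V7

/-! The divisor problem. -/

open MeasureTheory Filter Topology
open Pool.Agent.H387R2.Vor
open Pool.Agent.H383.Gauss Pool.Agent.H383.Gen Pool.Agent.H383.Div

namespace Pool.Agent.NH96.SG

theorem div_Dt : ∃ C0 : ℝ, Dt E2 ad (Real.pi/4) wd 1 (-3) C0 4 := by
  obtain ⟨C0, hC0, hS⟩ := (Pool.Agent.H452R2.Win.E2_SandW vor).sand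
  refine ⟨C0, ad_Bd, ad_zero, wd_Wt, hC0, hS, ad_LB, 1, by norm_num, fun N => ?_⟩
  rw [one_mul]
  refine le_trans ?_ (DS.tau_sq_sum_le N)
  apply Finset.sum_le_sum
  intro m hm
  rw [Finset.mem_Icc] at hm
  have hm0 : (0:ℝ) < m := by exact_mod_cast hm.1
  have e : ((m:ℝ) ^ (-(3/4):ℝ))^2 * √(m:ℝ) = 1/m := by
    rw [Real.sqrt_eq_rpow, ← Real.rpow_natCast, ← Real.rpow_mul hm0.le, ← Real.rpow_add hm0]
    norm_num
    rw [Real.rpow_neg_one]
  have hpi := Real.pi_gt_three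
  have h2 : 1 ≤ √2 := Real.one_le_sqrt.mpr (by norm_num)
  have h3 : 1 / (Real.pi * √2) ≤ 1 := by
    rw [div_le_one (by positivity)]; nlinarith
  have h4 : 0 < 1 / (Real.pi * √2) := by positivity
  calc (ad m)^2 * √(m:ℝ) = (dv m)^2 * (1 / (Real.pi * √2))^2 * (((m:ℝ) ^ (-(3/4):ℝ))^2 * √(m:ℝ)) := by unfold ad; ring
    _ = (dv m)^2 * (1 / (Real.pi * √2))^2 * (1/m) := by rw [e]
    _ ≤ (dv m)^2 * 1^2 * (1/m) := by gcongr
    _ = (m.divisors.card : ℝ)^2 / m := by unfold dv; ring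

/-- the divisor problem in the variable `R = √x` -/
theorem div_main (v C : ℝ) : ∃ η K X0 : ℝ, 0 < η ∧ 0 < K ∧ 4 ≤ X0 ∧ ∀ X : ℝ, X0 ≤ X → ∀ H : ℝ, K * (Real.log X)^4 ≤ H →
    ∃ (n : ℕ) (t : Fin (n+1) → ℝ), C * H ≤ n ∧ StrictMono t ∧ (∀ i, t i ∈ Set.Icc X (X + H) ∧ η ≤ |Ed (t i) - v|) ∧
      ∀ i : Fin n, (Ed (t i.castSucc) - v) * (Ed (t i.succ) - v) < 0 := by
  obtain ⟨C0, hD⟩ := div_Dt
  obtain ⟨η, K, X0, hη, hK, hX0, hm⟩ := main hD v |C|
  refine ⟨η, 16 * K, X0, hη, by positivity, hX0, fun X hX H hH => ?_⟩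
  have hX4 : 4 ≤ X := hX0.trans hX
  have hlog : Real.log (2 * X) ≤ 2 * Real.log X := by
    rw [Real.log_mul (by norm_num) (by positivity)]
    have : Real.log 2 ≤ Real.log X := Real.log_le_log (by norm_num) (by linarith)
    linarith
  have hlog0 : 0 ≤ Real.log (2 * X) := Real.log_nonneg (by linarith)
  have h1 : K * (Real.log (2 * X))^4 ≤ 2 * H := by
    have h2 : (Real.log (2 * X))^4 ≤ (2 * Real.log X)^4 := pow_le_pow_left₀ hlog0 hlog 4
    have h3 : 0 ≤ H := le_trans (by positivity) hH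
    calc K * (Real.log (2 * X))^4 ≤ K * (2 * Real.log X)^4 := by gcongr
      _ = 16 * K * (Real.log X)^4 := by ring
      _ ≤ H := hH
      _ ≤ 2 * H := by linarith
  have hH0 : 0 ≤ H := le_trans (by positivity) hH
  obtain ⟨n, t, h1, h2, h3, h4⟩ := hm (2 * X) (by linarith) (2 * H) h1
  refine ⟨n, fun i => t i / 2, ?_, ?_, ?_, ?_⟩
  · have := le_abs_self C
    calc C * H ≤ |C| * (2 * H) := by nlinarith [abs_nonneg C]
      _ ≤ n := h1
  · intro i j hij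
    have := h2 hij
    simp only
    linarith
  · intro i
    have := h3 i
    rw [Set.mem_Icc] at this ⊢
    refine ⟨⟨?_, ?_⟩, this.2⟩
    · linarith [this.1.1]
    · linarith [this.1.2]
  · intro i
    exact h4 i

end Pool.Agent.NH96.SG
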